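import Pool.Agent.N846.ZD.Stm
import Pool.Agent.N846.LM.Ww

/-!
# Project ZD (helper846), BLOCK (helper327): large values on a block
-/

set_option autoImplicit false

namespace Pool.Agent.N846.ZD.H327

open Complex MeasureTheory
open Pool.Agent.TH949.LT (TT Lam)
open Pool.Agent.N846.DT (PairF co Uc co_abs summ_mono' Lam_nonneg)
open Pool.Agent.N846.LM (EG EG_pos EG_le)

variable {X : Type}

/-- the weight of the block -/
noncomputable def Wt (L : X → ℝ) (a r : ℕ) (l : TT X) : ℝ :=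
  ∑ i ∈ Finset.range (r + 1), EG (((a : ℝ) + (i : ℝ)) - Lam L l)

theorem Wt_pos (L : X → ℝ) (a r : ℕ) (l : TT X) : 0 < Wt L a r l :=
  Finset.sum_pos (fun _ _ => EG_pos _) ⟨0, Finset.mem_range.2 (Nat.succ_pos r)⟩

theorem Wt_low (L : X → ℝ) (a r : ℕ) (l : TT X) (h1 : (a : ℝ) ≤ Lam L l) (h2 : Lam L l ≤ a + r) :
    EG 1 ≤ Wt L a r l := by
  set i : ℕ := ⌊Lam L l - a⌋₊ with hi
  have h0 : 0 ≤ Lam L l - a := by linarith
  have h3 : (i : ℝ) ≤ Lam L l - a := Nat.floor_le h0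
  have h4 : Lam L l - a < i + 1 := Nat.lt_floor_add_one _
  have h5 : i ≤ r := by
    have : (i : ℝ) ≤ r := by linarith
    exact_mod_cast this
  have h6 : EG 1 ≤ EG (((a : ℝ) + (i : ℝ)) - Lam L l) := by
    unfold EG
    have h7 : 0 < 2 * √Real.pi := by positivity
    rw [div_le_div_iff_of_pos_right h7]
    apply Real.exp_le_exp.2
    nlinarith
  refine h6.trans ?_
  unfold Wt
  exact Finset.single_le_sum (f := fun i : ℕ => EG (((a : ℝ) + (i : ℝ)) - Lam L l))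
    (fun _ _ => (EG_pos _).le) (Finset.mem_range.2 (by omega))

theorem Wt_le (L : X → ℝ) (a r J : ℕ) (hr : r ≤ J) {c : ℝ} (hc : 0 < c) (l : TT X) :
    Wt L a r l ≤ ((J : ℝ) + 1) * Real.exp ((1 + c) ^ 2 + (1 + c) * J) * Real.exp ((1 + c) * a) *
      Real.exp (-((1 + c) * Lam L l)) := by
  unfold Wt
  have h1 : ∀ i ∈ Finset.range (r + 1), EG (((a : ℝ) + (i : ℝ)) - Lam L l) ≤
      Real.exp ((1 + c) ^ 2 + (1 + c) * J) * Real.exp ((1 + c) * a) * Real.exp (-((1 + c) * Lam L l)) := by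
    intro i hi
    have hir : i ≤ J := by
      have := Finset.mem_range.1 hi
      omega
    have hiJ : (i : ℝ) ≤ J := by exact_mod_cast hir
    refine (EG_le (1 + c) _).trans ?_
    have h2 : Real.exp ((1 + c) ^ 2) / (2 * √Real.pi) ≤ Real.exp ((1 + c) ^ 2) := by
      apply div_le_self (Real.exp_pos _).le
      have h3 : (1 : ℝ) ≤ √Real.pi := by
        rw [Real.one_le_sqrt]
        linarith [Real.pi_gt_three]
      linarith
    calc Real.exp ((1 + c) ^ 2) / (2 * √Real.pi) * Real.exp ((1 + c) * (((a : ℝ) + (i : ℝ)) - Lam L l))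
        ≤ Real.exp ((1 + c) ^ 2) * Real.exp ((1 + c) * (((a : ℝ) + (J : ℝ)) - Lam L l)) := by
          gcongr
      _ = _ := by
          rw [← Real.exp_add, ← Real.exp_add, ← Real.exp_add]
          congr 1
          ring
  refine (Finset.sum_le_sum h1).trans ?_
  rw [Finset.sum_const, Finset.card_range, nsmul_eq_mul]
  have hrJ : ((r + 1 : ℕ) : ℝ) ≤ (J : ℝ) + 1 := by
    push_cast
    have : (r : ℝ) ≤ J := by exact_mod_cast hr
    linarith
  calc ((r + 1 : ℕ) : ℝ) * (Real.exp ((1 + c) ^ 2 + (1 + c) * J) * Real.exp ((1 + c) * a) *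
        Real.exp (-((1 + c) * Lam L l)))
      ≤ ((J : ℝ) + 1) * (Real.exp ((1 + c) ^ 2 + (1 + c) * J) * Real.exp ((1 + c) * a) *
        Real.exp (-((1 + c) * Lam L l))) := by
        gcongr
    _ = _ := by ring

/-- the diagonal -/
theorem diag {u : X → ℂ} {L : X → ℝ} {c D : ℝ} (hc : 0 < c) (a r J : ℕ) (hr : r ≤ J)
    (hsum : Summable fun x => ‖u x‖ ^ 2 * Real.exp (-((1 + c) * L x)))
    (hD : Real.exp (∑' x, ‖u x‖ ^ 2 * Real.exp (-((1 + c) * L x))) ≤ D) :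
    (Summable fun l : TT X => ‖co u u l‖ * Wt L a r l) ∧
      ∑' l : TT X, ‖co u u l‖ * Wt L a r l ≤
        ((J : ℝ) + 1) * Real.exp ((1 + c) ^ 2 + (1 + c) * J) * (D * Real.exp ((1 + c) * a)) := by
  have hco := co_abs (u := u) (v := u) (L := L) (σ := 1 + c) (hsum.congr fun x => by rw [sq])
  have hle : ∀ l : TT X, ‖co u u l‖ * Wt L a r l ≤
      ((J : ℝ) + 1) * Real.exp ((1 + c) ^ 2 + (1 + c) * J) * Real.exp ((1 + c) * a) *
        (‖co u u l‖ * Real.exp (-((1 + c) * Lam L l))) := by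
    intro l
    calc _ ≤ ‖co u u l‖ * (((J : ℝ) + 1) * Real.exp ((1 + c) ^ 2 + (1 + c) * J) * Real.exp ((1 + c) * a) *
          Real.exp (-((1 + c) * Lam L l))) := mul_le_mul_of_nonneg_left (Wt_le L a r J hr hc l) (norm_nonneg _)
      _ = _ := by ring
  have hsm : Summable fun l : TT X => ‖co u u l‖ * Wt L a r l :=
    Summable.of_nonneg_of_le (fun l => mul_nonneg (norm_nonneg _) (Wt_pos L a r l).le) hle
      (hco.summable.mul_left _)
  refine ⟨hsm, (hsm.tsum_le_tsum hle (hco.summable.mul_left _)).trans ?_⟩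
  rw [tsum_mul_left, hco.tsum_eq]
  have h2 : Real.exp (∑' x, ‖u x‖ * ‖u x‖ * Real.exp (-((1 + c) * L x))) ≤ D := by
    refine le_trans (le_of_eq ?_) hD
    congr 1
    exact tsum_congr fun x => by rw [sq]
  calc _ ≤ ((J : ℝ) + 1) * Real.exp ((1 + c) ^ 2 + (1 + c) * J) * Real.exp ((1 + c) * a) * D := by
        apply mul_le_mul_of_nonneg_left h2
        positivity
    _ = _ := by ring

/-- the off-diagonal elements -/
theorem offd {σ₀ A CG : ℝ} (hσ : 0 < σ₀) (hCG : 0 < CG)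
    (hG : ∀ (X : Type) [Countable X] (u v : X → ℂ) (L : X → ℝ) (F : ℂ → ℂ), (∀ x, 0 ≤ L x) → PairF u v L F →
      (Summable fun x => ‖u x‖ ^ 2 * Real.exp (-((5 / 4 : ℝ) * L x))) →
      (Summable fun x => ‖v x‖ ^ 2 * Real.exp (-((5 / 4 : ℝ) * L x))) →
      ∀ (s0 : ℂ) (B i : ℝ), 0 ≤ s0.re → s0.re ≤ 1 → 0 ≤ B → 0 ≤ i →
        (∀ v' : ℝ, ‖F (((-σ₀ : ℝ) : ℂ) + (s0.im + v' : ℝ) * I)‖ ≤ B * (1 + |v'|) ^ A) →
        (Summable fun l : TT X => co u v l * Complex.exp (-(s0 * Lam L l)) * EG (i - Lam L l)) ∧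
        ‖∑' l : TT X, co u v l * Complex.exp (-(s0 * Lam L l)) * EG (i - Lam L l)‖ ≤
          CG * B * Real.exp (-(σ₀ * i)))
    [Countable X] (u v : X → ℂ) (L : X → ℝ) (F : ℂ → ℂ) (hL : ∀ x, 0 ≤ L x) (hF : PairF u v L F)
    (hu : Summable fun x => ‖u x‖ ^ 2 * Real.exp (-((5 / 4 : ℝ) * L x)))
    (hv : Summable fun x => ‖v x‖ ^ 2 * Real.exp (-((5 / 4 : ℝ) * L x)))
    (s0 : ℂ) (B : ℝ) (h0 : 0 ≤ s0.re) (h1 : s0.re ≤ 1) (hB : 0 ≤ B)
    (hFB : ∀ v' : ℝ, ‖F (((-σ₀ : ℝ) : ℂ) + (s0.im + v' : ℝ) * I)‖ ≤ B * (1 + |v'|) ^ A) (a r J : ℕ) (hr : r ≤ J) :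
    ‖∑' l : TT X, co u v l * Complex.exp (-(s0 * Lam L l)) * (Wt L a r l : ℂ)‖ ≤
      ((J : ℝ) + 1) * CG * (B * Real.exp (-(σ₀ * a))) := by
  have hi : ∀ i : ℕ, (Summable fun l : TT X => co u v l * Complex.exp (-(s0 * Lam L l)) *
        EG (((a : ℝ) + (i : ℝ)) - Lam L l)) ∧
      ‖∑' l : TT X, co u v l * Complex.exp (-(s0 * Lam L l)) * EG (((a : ℝ) + (i : ℝ)) - Lam L l)‖ ≤
        CG * (B * Real.exp (-(σ₀ * a))) := by
    intro i
    obtain ⟨g1, g2⟩ := hG X u v L F hL hF hu hv s0 B ((a : ℝ) + (i : ℝ)) h0 h1 hB (by positivity) hFB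
    refine ⟨g1, g2.trans ?_⟩
    have : Real.exp (-(σ₀ * ((a : ℝ) + (i : ℝ)))) ≤ Real.exp (-(σ₀ * a)) := by
      apply Real.exp_le_exp.2
      have : 0 ≤ σ₀ * (i : ℝ) := by positivity
      nlinarith
    rw [mul_assoc]
    gcongr
  have he : ∀ l : TT X, co u v l * Complex.exp (-(s0 * Lam L l)) * (Wt L a r l : ℂ) =
      ∑ i ∈ Finset.range (r + 1), co u v l * Complex.exp (-(s0 * Lam L l)) *
        EG (((a : ℝ) + (i : ℝ)) - Lam L l) := by
    intro l
    unfold Wt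
    rw [Complex.ofReal_sum, Finset.mul_sum]
  have hs : HasSum (fun l : TT X => ∑ i ∈ Finset.range (r + 1), co u v l * Complex.exp (-(s0 * Lam L l)) *
        EG (((a : ℝ) + (i : ℝ)) - Lam L l))
      (∑ i ∈ Finset.range (r + 1), ∑' l : TT X, co u v l * Complex.exp (-(s0 * Lam L l)) *
        EG (((a : ℝ) + (i : ℝ)) - Lam L l)) :=
    hasSum_sum fun i _ => (hi i).1.hasSum
  simp_rw [he]
  rw [hs.tsum_eq]
  refine (norm_sum_le _ _).trans ((Finset.sum_le_sum fun i _ => (hi i).2).trans ?_)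
  rw [Finset.sum_const, Finset.card_range, nsmul_eq_mul]
  have hrJ : ((r + 1 : ℕ) : ℝ) ≤ (J : ℝ) + 1 := by
    push_cast
    have : (r : ℝ) ≤ J := by exact_mod_cast hr
    linarith
  calc ((r + 1 : ℕ) : ℝ) * (CG * (B * Real.exp (-(σ₀ * a))))
      ≤ ((J : ℝ) + 1) * (CG * (B * Real.exp (-(σ₀ * a)))) := by
        gcongr
    _ = _ := by ring

theorem Uc_smul (k : ℂ) (w : X → ℂ) (l : TT X) : Uc (fun x => k * w x) l = k ^ l.1 * Uc w l := by
  unfold Uc
  rw [Finset.prod_mul_distrib, Finset.prod_const, Finset.card_univ, Fintype.card_fin]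

/-- the norm of the dual vector -/
theorem dual {w : X → ℂ} {L : X → ℝ} {c D' σ : ℝ} {k J a r : ℕ} {b : TT X → ℂ} (hc : 0 < c)
    (hσ : 1 / 2 ≤ σ)
    (hsum : Summable fun x => ‖w x‖ ^ 2 * Real.exp (-((1 + 2 * c) * L x)))
    (hD : Real.exp (∑' x, ‖w x‖ ^ 2 * Real.exp (-((1 + 2 * c) * L x))) ≤ D')
    (hb : Maj w k b) (hk : k ≤ 2 * J) (hS : Supp L b a (a + r)) (hr : r ≤ J) :
    (Summable fun l : TT X => (l.1.factorial : ℝ) * ‖b l‖ ^ 2 * Real.exp (-(2 * σ * Lam L l)) / Wt L a r l) ∧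
      ∑' l : TT X, (l.1.factorial : ℝ) * ‖b l‖ ^ 2 * Real.exp (-(2 * σ * Lam L l)) / Wt L a r l ≤
        Real.exp (2 * c * J) / EG 1 * (Real.exp ((1 - 2 * σ + 2 * c) * a) * D' ^ (4 * J ^ 2)) := by
  set w' : X → ℂ := fun x => (k : ℂ) * w x with hw'
  have hwn : ∀ x, ‖w' x‖ * ‖w' x‖ * Real.exp (-((1 + 2 * c) * L x)) =
      (k : ℝ) ^ 2 * (‖w x‖ ^ 2 * Real.exp (-((1 + 2 * c) * L x))) := by
    intro x
    rw [hw']
    simp only
    rw [norm_mul, Complex.norm_natCast]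
    ring
  have hco := co_abs (u := w') (v := w') (L := L) (σ := 1 + 2 * c)
    ((hsum.mul_left ((k : ℝ) ^ 2)).congr fun x => (hwn x).symm)
  have hE1 : 0 < EG 1 := EG_pos 1
  have hle : ∀ l : TT X, (l.1.factorial : ℝ) * ‖b l‖ ^ 2 * Real.exp (-(2 * σ * Lam L l)) / Wt L a r l ≤
      Real.exp (2 * c * J) / EG 1 * Real.exp ((1 - 2 * σ + 2 * c) * a) *
        (‖co w' w' l‖ * Real.exp (-((1 + 2 * c) * Lam L l))) := by
    intro l
    by_cases hbl : b l = 0
    · rw [hbl, norm_zero]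
      simp only [ne_eq, OfNat.ofNat_ne_zero, not_false_eq_true, zero_pow, mul_zero, zero_mul, zero_div]
      positivity
    obtain ⟨h1, h2⟩ := hS l hbl
    have hf0 : (0 : ℝ) < (l.1.factorial : ℝ) := by exact_mod_cast l.1.factorial_pos
    have hW := Wt_low L a r l h1 h2
    have hcn : ‖co w' w' l‖ = ((k : ℝ) ^ l.1 * ‖Uc w l‖) ^ 2 / (l.1.factorial : ℝ) := by
      unfold co
      rw [norm_div, norm_mul, RCLike.norm_conj, Complex.norm_natCast, hw', Uc_smul, norm_mul, norm_pow,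
        Complex.norm_natCast]
      ring
    have hbn : (l.1.factorial : ℝ) * ‖b l‖ ^ 2 ≤ ‖co w' w' l‖ := by
      rw [hcn]
      have h3 := hb l
      have h4 : ‖b l‖ ^ 2 ≤ ((k : ℝ) ^ l.1 * ‖Uc w l‖ / (l.1.factorial : ℝ)) ^ 2 :=
        pow_le_pow_left₀ (norm_nonneg _) h3 2
      calc (l.1.factorial : ℝ) * ‖b l‖ ^ 2 ≤
            (l.1.factorial : ℝ) * ((k : ℝ) ^ l.1 * ‖Uc w l‖ / (l.1.factorial : ℝ)) ^ 2 := by gcongr
        _ = _ := by field_simp
    have hex : Real.exp (-(2 * σ * Lam L l)) ≤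
        Real.exp (2 * c * J) * Real.exp ((1 - 2 * σ + 2 * c) * a) * Real.exp (-((1 + 2 * c) * Lam L l)) := by
      rw [← Real.exp_add, ← Real.exp_add]
      apply Real.exp_le_exp.2
      have hrJ : (r : ℝ) ≤ J := by exact_mod_cast hr
      have h5 : (1 - 2 * σ) * Lam L l ≤ (1 - 2 * σ) * a := mul_le_mul_of_nonpos_left h1 (by linarith)
      have h6 : 2 * c * Lam L l ≤ 2 * c * (a + J) := by
        apply mul_le_mul_of_nonneg_left _ (by linarith)
        linarith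
      nlinarith
    rw [div_le_iff₀ (Wt_pos L a r l)]
    calc (l.1.factorial : ℝ) * ‖b l‖ ^ 2 * Real.exp (-(2 * σ * Lam L l))
        ≤ ‖co w' w' l‖ * (Real.exp (2 * c * J) * Real.exp ((1 - 2 * σ + 2 * c) * a) *
            Real.exp (-((1 + 2 * c) * Lam L l))) :=
          mul_le_mul hbn hex (Real.exp_pos _).le (norm_nonneg _)
      _ = Real.exp (2 * c * J) / EG 1 * Real.exp ((1 - 2 * σ + 2 * c) * a) *
            (‖co w' w' l‖ * Real.exp (-((1 + 2 * c) * Lam L l))) * EG 1 := by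
          field_simp
      _ ≤ _ := mul_le_mul_of_nonneg_left hW (by positivity)
  have hsm : Summable fun l : TT X =>
      (l.1.factorial : ℝ) * ‖b l‖ ^ 2 * Real.exp (-(2 * σ * Lam L l)) / Wt L a r l :=
    Summable.of_nonneg_of_le (fun l => div_nonneg (by positivity) (Wt_pos L a r l).le) hle
      (hco.summable.mul_left _)
  refine ⟨hsm, (hsm.tsum_le_tsum hle (hco.summable.mul_left _)).trans ?_⟩
  rw [tsum_mul_left, hco.tsum_eq]
  have hS0 : 0 ≤ ∑' x, ‖w x‖ ^ 2 * Real.exp (-((1 + 2 * c) * L x)) := tsum_nonneg fun x => by positivity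
  have hD1 : 1 ≤ D' := (Real.one_le_exp hS0).trans hD
  have h7 : Real.exp (∑' x, ‖w' x‖ * ‖w' x‖ * Real.exp (-((1 + 2 * c) * L x))) ≤ D' ^ (4 * J ^ 2) := by
    rw [tsum_congr hwn, tsum_mul_left]
    have h8 : Real.exp ((k : ℝ) ^ 2 * ∑' x, ‖w x‖ ^ 2 * Real.exp (-((1 + 2 * c) * L x))) =
        Real.exp (∑' x, ‖w x‖ ^ 2 * Real.exp (-((1 + 2 * c) * L x))) ^ (k ^ 2) := by
      rw [← Real.exp_nat_mul]
      push_cast
      rfl
    rw [h8]
    calc _ ≤ D' ^ (k ^ 2) := pow_le_pow_left₀ (Real.exp_pos _).le hD _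
      _ ≤ D' ^ (4 * J ^ 2) := by
          apply pow_le_pow_right₀ hD1
          calc k ^ 2 ≤ (2 * J) ^ 2 := Nat.pow_le_pow_left hk 2
            _ = 4 * J ^ 2 := by ring
  calc _ ≤ Real.exp (2 * c * J) / EG 1 * Real.exp ((1 - 2 * σ + 2 * c) * a) * D' ^ (4 * J ^ 2) := by
        apply mul_le_mul_of_nonneg_left h7
        positivity
    _ = _ := by ring

/-- the large values -/
theorem core (h1 : S_GB) (h2 : Pool.Agent.N846.LM.S_LS) (σ₀ c A : ℝ) (J : ℕ) (hσ₀ : 0 < σ₀) (hc : 0 < c)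
    (hc4 : c ≤ 1 / 4) (hA : 0 ≤ A) : ∃ C : ℝ, 0 < C ∧
  ∀ (X ι : Type) [Countable X] [Fintype ι] (u : ι → X → ℂ) (L : X → ℝ) (s : ι → ℂ) (F : ι → ι → ℂ → ℂ)
    (w : X → ℂ) (k : ℕ) (b : TT X → ℂ) (a r : ℕ) (σ D D' B V : ℝ), (∀ x, 0 ≤ L x) → 1 / 2 ≤ σ →
    (∀ f, σ ≤ (s f).re) → (∀ f, (s f).re ≤ 1) →
    (∀ f, Summable fun x => ‖u f x‖ ^ 2 * Real.exp (-((1 + c) * L x))) →
    (∀ f, Real.exp (∑' x, ‖u f x‖ ^ 2 * Real.exp (-((1 + c) * L x))) ≤ D) →
    (Summable fun x => ‖w x‖ ^ 2 * Real.exp (-((1 + 2 * c) * L x))) →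
    Real.exp (∑' x, ‖w x‖ ^ 2 * Real.exp (-((1 + 2 * c) * L x))) ≤ D' →
    (∀ f g, f ≠ g → PairF (u f) (u g) L (F f g)) → 0 ≤ B →
    (∀ f g, f ≠ g → ∀ v : ℝ, ‖F f g (((-σ₀ : ℝ) : ℂ) + (((s f).im - (s g).im) + v : ℝ) * I)‖ ≤
      B * (1 + |v|) ^ A) →
    Maj w k b → k ≤ 2 * J → Supp L b a (a + r) → r ≤ J → 0 ≤ V → 0 ≤ D → (∀ f, V ≤ ‖Ph L b (u f) (s f)‖) →
    Fintype.card ι * V ^ 2 ≤ C * (D * Real.exp ((1 + c) * a) + Fintype.card ι * B * Real.exp (-(σ₀ * a))) *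
      (Real.exp ((1 - 2 * σ + 2 * c) * a) * D' ^ (4 * J ^ 2)) := by
  obtain ⟨CG, hCG0, hCG⟩ := h1 σ₀ A hσ₀ hA
  have hE1 : 0 < EG 1 := EG_pos 1
  set C1 : ℝ := ((J : ℝ) + 1) * Real.exp ((1 + c) ^ 2 + (1 + c) * J) + ((J : ℝ) + 1) * CG with hC1
  have hC10 : 0 < C1 := by positivity
  refine ⟨C1 * (Real.exp (2 * c * J) / EG 1), by positivity, ?_⟩
  intro X ι _ _ u L s F w k b a r σ D D' B V hL hσ hs1 hs2 hu hD hw hD' hF hB hFB hb hk hS hr hV hD0 hVf
  -- the vectors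
  set rt : TT X → ℝ := fun l => √(l.1.factorial : ℝ) with hrt
  have hf0 : ∀ l : TT X, (0 : ℝ) < (l.1.factorial : ℝ) := fun l => by exact_mod_cast l.1.factorial_pos
  have hr2 : ∀ l, rt l ^ 2 = (l.1.factorial : ℝ) := fun l => Real.sq_sqrt (hf0 l).le
  have hr0 : ∀ l, 0 < rt l := fun l => Real.sqrt_pos.2 (hf0 l)
  have hrc : ∀ l, ((l.1.factorial : ℕ) : ℂ) = (rt l : ℂ) * (rt l : ℂ) := by
    intro l
    rw [← sq, ← Complex.ofReal_pow, hr2]
    simp
  have hrne : ∀ l, (rt l : ℂ) ≠ 0 := fun l => by exact_mod_cast (hr0 l).ne'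
  set va : ι → TT X → ℂ := fun f l => Uc (u f) l * cexp (-((s f - σ) * Lam L l)) / (rt l : ℂ) with hva
  set vb : TT X → ℂ := fun l => (rt l : ℂ) * b l * cexp (-((σ : ℂ) * Lam L l)) with hvb
  have hab : ∀ f l, va f l * vb l = Uc (u f) l * b l * cexp (-(s f * Lam L l)) := by
    intro f l
    have e : cexp (-(s f * Lam L l)) = cexp (-((s f - σ) * Lam L l)) * cexp (-((σ : ℂ) * Lam L l)) := by
      rw [← Complex.exp_add]
      congr 1
      ring
    rw [hva, hvb, e]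
    simp only
    have := hrne l
    field_simp
  have haa : ∀ f g l, va f l * (starRingEnd ℂ) (va g l) * (Wt L a r l : ℂ) =
      co (u f) (u g) l * cexp (-(((s f - σ) + (starRingEnd ℂ) (s g - σ)) * Lam L l)) * (Wt L a r l : ℂ) := by
    intro f g l
    have e : cexp (-(((s f - σ) + (starRingEnd ℂ) (s g - σ)) * Lam L l)) =
        cexp (-((s f - σ) * Lam L l)) * (starRingEnd ℂ) (cexp (-((s g - σ) * Lam L l))) := by
      rw [← Complex.exp_conj, ← Complex.exp_add]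
      congr 1
      simp only [map_neg, map_mul, map_sub, Complex.conj_ofReal]
      ring
    rw [hva]
    simp only
    unfold co
    rw [hrc l, e, map_div₀, map_mul, Complex.conj_ofReal]
    have := hrne l
    field_simp
  have hvn : ∀ f l, ‖va f l‖ ^ 2 ≤ ‖co (u f) (u f) l‖ := by
    intro f l
    have h3 : ‖co (u f) (u f) l‖ = ‖Uc (u f) l‖ ^ 2 / (l.1.factorial : ℝ) := by
      unfold co
      rw [norm_div, norm_mul, RCLike.norm_conj, Complex.norm_natCast]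
      ring
    have h4 : ‖cexp (-((s f - σ) * Lam L l))‖ ≤ 1 := by
      rw [Complex.norm_exp, Real.exp_le_one_iff]
      have h5 : (-((s f - σ) * Lam L l)).re = -(((s f).re - σ) * Lam L l) := by
        simp
      rw [h5]
      have h6 := Lam_nonneg hL l
      have h7 : 0 ≤ (s f).re - σ := by linarith [hs1 f]
      nlinarith [mul_nonneg h7 h6]
    rw [hva, h3]
    simp only
    rw [norm_div, norm_mul, Complex.norm_real, Real.norm_of_nonneg (hr0 l).le, div_pow, hr2, mul_pow]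
    apply div_le_div_of_nonneg_right _ (hf0 l).le
    calc ‖Uc (u f) l‖ ^ 2 * ‖cexp (-((s f - σ) * Lam L l))‖ ^ 2 ≤ ‖Uc (u f) l‖ ^ 2 * 1 ^ 2 := by gcongr
      _ = _ := by ring
  -- the Gram matrix
  have hdg := fun f => diag (u := u f) (L := L) (D := D) hc a r J hr (hu f) (hD f)
  have hsum1 : ∀ f, Summable fun l => ‖va f l‖ ^ 2 * Wt L a r l := by
    intro f
    refine Summable.of_nonneg_of_le (fun l => mul_nonneg (by positivity) (Wt_pos L a r l).le) (fun l => ?_)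
      (hdg f).1
    exact mul_le_mul_of_nonneg_right (hvn f l) (Wt_pos L a r l).le
  have hself : ∀ f, ‖∑' l, va f l * (starRingEnd ℂ) (va f l) * (Wt L a r l : ℂ)‖ ≤
      ((J : ℝ) + 1) * Real.exp ((1 + c) ^ 2 + (1 + c) * J) * (D * Real.exp ((1 + c) * a)) := by
    intro f
    have h3 : ∀ l, ‖va f l * (starRingEnd ℂ) (va f l) * (Wt L a r l : ℂ)‖ = ‖va f l‖ ^ 2 * Wt L a r l := by
      intro l
      rw [norm_mul, norm_mul, RCLike.norm_conj, Complex.norm_real, Real.norm_of_nonneg (Wt_pos L a r l).le]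
      ring
    have h4 : Summable fun l => ‖va f l * (starRingEnd ℂ) (va f l) * (Wt L a r l : ℂ)‖ :=
      (hsum1 f).congr fun l => (h3 l).symm
    refine (norm_tsum_le_tsum_norm h4).trans ?_
    simp_rw [h3]
    refine ((hsum1 f).tsum_le_tsum (fun l => ?_) (hdg f).1).trans (hdg f).2
    exact mul_le_mul_of_nonneg_right (hvn f l) (Wt_pos L a r l).le
  have hoff : ∀ f g, f ≠ g → ‖∑' l, va f l * (starRingEnd ℂ) (va g l) * (Wt L a r l : ℂ)‖ ≤
      ((J : ℝ) + 1) * CG * (B * Real.exp (-(σ₀ * a))) := by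
    intro f g hfg
    rw [tsum_congr (haa f g)]
    refine offd hσ₀ hCG0 hCG (u f) (u g) L (F f g) hL (hF f g hfg)
      (summ_mono' hL (fun x => by positivity) (by linarith) (hu f))
      (summ_mono' hL (fun x => by positivity) (by linarith) (hu g))
      ((s f - σ) + (starRingEnd ℂ) (s g - σ)) B ?_ ?_ hB ?_ a r J hr
    · have : ((s f - σ) + (starRingEnd ℂ) (s g - σ)).re = ((s f).re - σ) + ((s g).re - σ) := by simp
      rw [this]
      linarith [hs1 f, hs1 g]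
    · have : ((s f - σ) + (starRingEnd ℂ) (s g - σ)).re = ((s f).re - σ) + ((s g).re - σ) := by simp
      rw [this]
      linarith [hs2 f, hs2 g]
    · intro v'
      have : ((s f - σ) + (starRingEnd ℂ) (s g - σ)).im = (s f).im - (s g).im := by
        simp [sub_eq_add_neg]
      rw [this]
      exact hFB f g hfg v'
  have hM0 : 0 ≤ C1 * (D * Real.exp ((1 + c) * a) + Fintype.card ι * B * Real.exp (-(σ₀ * a))) := by
    positivity
  have hrow : ∀ f, ∑ g, ‖∑' l, va f l * (starRingEnd ℂ) (va g l) * (Wt L a r l : ℂ)‖ ≤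
      C1 * (D * Real.exp ((1 + c) * a) + Fintype.card ι * B * Real.exp (-(σ₀ * a))) := by
    intro f
    classical
    rw [← Finset.add_sum_erase Finset.univ _ (Finset.mem_univ f)]
    have h3 : ∑ g ∈ Finset.univ.erase f, ‖∑' l, va f l * (starRingEnd ℂ) (va g l) * (Wt L a r l : ℂ)‖ ≤
        Fintype.card ι * (((J : ℝ) + 1) * CG * (B * Real.exp (-(σ₀ * a)))) := by
      have h4 : ∀ g ∈ Finset.univ.erase f, ‖∑' l, va f l * (starRingEnd ℂ) (va g l) * (Wt L a r l : ℂ)‖ ≤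
          ((J : ℝ) + 1) * CG * (B * Real.exp (-(σ₀ * a))) := by
        intro g hg
        exact hoff f g (fun h => (Finset.mem_erase.1 hg).1 h.symm)
      refine (Finset.sum_le_card_nsmul _ _ _ h4).trans ?_
      rw [nsmul_eq_mul]
      refine mul_le_mul_of_nonneg_right ?_ (by positivity)
      exact_mod_cast Finset.card_le_univ _
    refine (add_le_add (hself f) h3).trans ?_
    rw [hC1]
    have h5 : 0 ≤ D * Real.exp ((1 + c) * a) := by positivity
    have h6 : 0 ≤ (Fintype.card ι : ℝ) * B * Real.exp (-(σ₀ * a)) := by positivity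
    have h7 : 0 ≤ ((J : ℝ) + 1) * Real.exp ((1 + c) ^ 2 + (1 + c) * J) := by positivity
    have h8 : 0 ≤ ((J : ℝ) + 1) * CG := by positivity
    nlinarith [mul_nonneg h7 h6, mul_nonneg h8 h5]
  -- the dual vector
  have hdl := dual (L := L) (a := a) (r := r) hc hσ hw hD' hb hk hS hr
  have hbn : ∀ l, ‖vb l‖ ^ 2 / Wt L a r l =
      (l.1.factorial : ℝ) * ‖b l‖ ^ 2 * Real.exp (-(2 * σ * Lam L l)) / Wt L a r l := by
    intro l
    rw [hvb]
    simp only
    rw [norm_mul, norm_mul, Complex.norm_real, Real.norm_of_nonneg (hr0 l).le, Complex.norm_exp, mul_pow, mul_pow,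
      hr2, ← Real.exp_nat_mul]
    congr 3
    simp only [Complex.neg_re, Complex.re_ofReal_mul, Complex.ofReal_re]
    push_cast
    ring
  have hsum2 : Summable fun l => ‖vb l‖ ^ 2 / Wt L a r l := hdl.1.congr fun l => (hbn l).symm
  have hls := h2 (TT X) ι va vb (Wt L a r) _ hM0 (Wt_pos L a r) hsum1 hsum2 hrow
  simp_rw [hab] at hls
  rw [tsum_congr hbn] at hls
  have hlow : Fintype.card ι * V ^ 2 ≤ ∑ f, ‖∑' l, Uc (u f) l * b l * cexp (-(s f * Lam L l))‖ ^ 2 := by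
    have h3 : ∑ _f : ι, V ^ 2 = Fintype.card ι * V ^ 2 := by
      rw [Finset.sum_const, Finset.card_univ, nsmul_eq_mul]
    rw [← h3]
    apply Finset.sum_le_sum
    intro f _
    exact pow_le_pow_left₀ hV (hVf f) 2
  refine hlow.trans (hls.trans ?_)
  calc _ ≤ C1 * (D * Real.exp ((1 + c) * a) + Fintype.card ι * B * Real.exp (-(σ₀ * a))) *
        (Real.exp (2 * c * J) / EG 1 * (Real.exp ((1 - 2 * σ + 2 * c) * a) * D' ^ (4 * J ^ 2))) :=
        mul_le_mul_of_nonneg_left hdl.2 hM0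
    _ = _ := by ring

end Pool.Agent.N846.ZD.H327

namespace Pool.Agent.N846.ZD

theorem block (h1 : S_GB) (h2 : Pool.Agent.N846.LM.S_LS) : S_BLOCK :=
  fun σ₀ c A J a1 a2 a3 a4 => H327.core h1 h2 σ₀ c A J a1 a2 a3 a4

end Pool.Agent.N846.ZD
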