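import Pool.Agent.N846.ZD.Stm

/-!
# Products and powers in the Fock space (`S_CONV`, `S_POW`)
-/

set_option autoImplicit false

namespace Pool.Agent.N846.ZD

open Complex
open Pool.Agent.TH949.LT (TT Lam)
open Pool.Agent.N846.DT (Uc)

namespace Conv

variable {X : Type}

/-- lists and tuples -/
def eqv (X : Type) : List X ≃ TT X := List.equivSigmaTuple

theorem eqv_fst (l : List X) : (eqv X l).1 = l.length := rfl

theorem Uc_eqv (u : X → ℂ) (l : List X) : Uc u (eqv X l) = (l.map u).prod := by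
  unfold Uc
  show ∏ i : Fin l.length, u (l.get i) = (l.map u).prod
  rw [← List.prod_ofFn]
  congr 1
  show List.ofFn (u ∘ l.get) = l.map u
  rw [← List.map_ofFn, List.ofFn_get]

theorem Lam_eqv (L : X → ℝ) (l : List X) : Lam L (eqv X l) = (l.map L).sum := by
  unfold Lam
  show ∑ i : Fin l.length, L (l.get i) = (l.map L).sum
  rw [← List.sum_ofFn]
  congr 1
  show List.ofFn (L ∘ l.get) = l.map L
  rw [← List.map_ofFn, List.ofFn_get]

theorem Uc_split (u : X → ℂ) (l : List X) (i : ℕ) :
    Uc u (eqv X l) = Uc u (eqv X (l.take i)) * Uc u (eqv X (l.drop i)) := by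
  rw [Uc_eqv, Uc_eqv, Uc_eqv, ← List.prod_append, ← List.map_append, List.take_append_drop]

theorem Lam_split (L : X → ℝ) (l : List X) (i : ℕ) :
    Lam L (eqv X l) = Lam L (eqv X (l.take i)) + Lam L (eqv X (l.drop i)) := by
  rw [Lam_eqv, Lam_eqv, Lam_eqv, ← List.sum_append, ← List.map_append, List.take_append_drop]

theorem sig_ext (l l' : List X) (i : Fin (l.length + 1)) (i' : Fin (l'.length + 1)) (h : l = l')
    (hi : i.val = i'.val) : (⟨l, i⟩ : Σ l : List X, Fin (l.length + 1)) = ⟨l', i'⟩ := by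
  subst h
  congr 1
  exact Fin.ext hi

/-- pairs of lists and splittings of lists -/
def spl (X : Type) : List X × List X ≃ Σ l : List X, Fin (l.length + 1) where
  toFun p := ⟨p.1 ++ p.2, ⟨p.1.length, by rw [List.length_append]; omega⟩⟩
  invFun q := (q.1.take q.2, q.1.drop q.2)
  left_inv p := by simp
  right_inv q := by
    obtain ⟨l, i⟩ := q
    apply sig_ext
    · exact List.take_append_drop _ _
    · show (l.take i).length = i
      rw [List.length_take]
      omega

/-- the coefficients of the product -/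
noncomputable def bL (b₁ b₂ : TT X → ℂ) (l : List X) : ℂ :=
  ∑ i : Fin (l.length + 1), b₁ (eqv X (l.take i)) * b₂ (eqv X (l.drop i))

theorem maj {w : X → ℂ} {k₁ k₂ : ℕ} {b₁ b₂ : TT X → ℂ} (h1 : Maj w k₁ b₁) (h2 : Maj w k₂ b₂)
    (l : List X) : ‖bL b₁ b₂ l‖ ≤ ((k₁ + k₂ : ℕ) : ℝ) ^ l.length * ‖Uc w (eqv X l)‖ /
      (l.length.factorial : ℝ) := by
  have hterm : ∀ i : Fin (l.length + 1), ‖b₁ (eqv X (l.take i)) * b₂ (eqv X (l.drop i))‖ ≤
      (‖Uc w (eqv X l)‖ / (l.length.factorial : ℝ)) *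
        ((k₁ : ℝ) ^ (i : ℕ) * (k₂ : ℝ) ^ (l.length - i) * (l.length.choose i : ℝ)) := by
    intro i
    have hi : (i : ℕ) ≤ l.length := by omega
    have e1 : (l.take i).length = i := by
      rw [List.length_take]
      omega
    have e2 : (l.drop i).length = l.length - i := List.length_drop
    have a1 := h1 (eqv X (l.take i))
    have a2 := h2 (eqv X (l.drop i))
    rw [eqv_fst, e1] at a1
    rw [eqv_fst, e2] at a2
    rw [norm_mul]
    refine (mul_le_mul a1 a2 (norm_nonneg _) (by positivity)).trans (le_of_eq ?_)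
    rw [Uc_split w l i, norm_mul, Nat.cast_choose ℝ hi]
    have f1 : ((i : ℕ).factorial : ℝ) ≠ 0 := by positivity
    have f2 : ((l.length - (i : ℕ)).factorial : ℝ) ≠ 0 := by positivity
    have f3 : (l.length.factorial : ℝ) ≠ 0 := by positivity
    field_simp
  unfold bL
  refine (norm_sum_le _ _).trans ((Finset.sum_le_sum fun i _ => hterm i).trans (le_of_eq ?_))
  rw [← Finset.mul_sum, Finset.sum_fin_eq_sum_range]
  have e3 : ∑ i ∈ Finset.range (l.length + 1), (if h : i < l.length + 1 then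
      (k₁ : ℝ) ^ ((⟨i, h⟩ : Fin (l.length + 1)) : ℕ) *
      (k₂ : ℝ) ^ (l.length - ((⟨i, h⟩ : Fin (l.length + 1)) : ℕ)) *
      (l.length.choose ((⟨i, h⟩ : Fin (l.length + 1)) : ℕ) : ℝ) else 0) =
      ((k₁ : ℝ) + k₂) ^ l.length := by
    rw [add_pow]
    refine Finset.sum_congr rfl fun i hi => ?_
    rw [dif_pos (Finset.mem_range.1 hi)]
  rw [e3]
  push_cast
  ring

theorem supp {L : X → ℝ} {b₁ b₂ : TT X → ℂ} {p₁ r₁ p₂ r₂ : ℝ} (h1 : Supp L b₁ p₁ r₁)
    (h2 : Supp L b₂ p₂ r₂) (l : List X) (h : bL b₁ b₂ l ≠ 0) :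
    p₁ + p₂ ≤ Lam L (eqv X l) ∧ Lam L (eqv X l) ≤ r₁ + r₂ := by
  unfold bL at h
  obtain ⟨i, -, hi⟩ := Finset.exists_ne_zero_of_sum_ne_zero h
  have a1 := h1 _ (left_ne_zero_of_mul hi)
  have a2 := h2 _ (right_ne_zero_of_mul hi)
  rw [Lam_split L l i]
  exact ⟨by linarith [a1.1, a2.1], by linarith [a1.2, a2.2]⟩

theorem hs {L : X → ℝ} {b₁ b₂ : TT X → ℂ} {u : X → ℂ} {s : ℂ}
    (h1 : Summable fun l : TT X => Uc u l * b₁ l * Complex.exp (-(s * Lam L l)))
    (h2 : Summable fun l : TT X => Uc u l * b₂ l * Complex.exp (-(s * Lam L l))) :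
    HasSum (fun l : List X => Uc u (eqv X l) * bL b₁ b₂ l * Complex.exp (-(s * Lam L (eqv X l))))
      (Ph L b₁ u s * Ph L b₂ u s) := by
  set f₁ : List X → ℂ := fun l => Uc u (eqv X l) * b₁ (eqv X l) *
    Complex.exp (-(s * Lam L (eqv X l))) with hf₁
  set f₂ : List X → ℂ := fun l => Uc u (eqv X l) * b₂ (eqv X l) *
    Complex.exp (-(s * Lam L (eqv X l))) with hf₂
  have g1 : HasSum f₁ (Ph L b₁ u s) := (eqv X).hasSum_iff.2 h1.hasSum
  have g2 : HasSum f₂ (Ph L b₂ u s) := (eqv X).hasSum_iff.2 h2.hasSum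
  have hsum : Summable fun x : List X × List X => f₁ x.1 * f₂ x.2 :=
    summable_mul_of_summable_norm g1.summable.norm g2.summable.norm
  have h3 : HasSum (fun x : List X × List X => f₁ x.1 * f₂ x.2) (Ph L b₁ u s * Ph L b₂ u s) :=
    g1.mul g2 hsum
  have h4 : HasSum (fun q : Σ l : List X, Fin (l.length + 1) =>
      f₁ (q.1.take q.2) * f₂ (q.1.drop q.2)) (Ph L b₁ u s * Ph L b₂ u s) := by
    refine (spl X).hasSum_iff.1 ?_
    have e : (fun q : Σ l : List X, Fin (l.length + 1) => f₁ (q.1.take q.2) * f₂ (q.1.drop q.2)) ∘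
        (spl X) = fun x : List X × List X => f₁ x.1 * f₂ x.2 := by
      funext x
      have h6 := (spl X).left_inv x
      have h7 : ((spl X x).1.take (spl X x).2, (spl X x).1.drop (spl X x).2) = x := h6
      have h8 : (spl X x).1.take (spl X x).2 = x.1 := congrArg Prod.fst h7
      have h9 : (spl X x).1.drop (spl X x).2 = x.2 := congrArg Prod.snd h7
      simp only [Function.comp_apply]
      rw [h8, h9]
    rw [e]
    exact h3
  have h5 := h4.sigma (fun l => hasSum_fintype _)
  have e : (fun l : List X => ∑ i : Fin (l.length + 1), f₁ (l.take i) * f₂ (l.drop i)) =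
      fun l : List X => Uc u (eqv X l) * bL b₁ b₂ l * Complex.exp (-(s * Lam L (eqv X l))) := by
    funext l
    unfold bL
    rw [Finset.mul_sum, Finset.sum_mul]
    refine Finset.sum_congr rfl fun i _ => ?_
    simp only [hf₁, hf₂]
    rw [Uc_split u l i, Lam_split L l i]
    have e1 : -(s * ((Lam L (eqv X (l.take i)) + Lam L (eqv X (l.drop i)) : ℝ) : ℂ)) =
        -(s * Lam L (eqv X (l.take i))) + -(s * Lam L (eqv X (l.drop i))) := by
      push_cast
      ring
    rw [e1, Complex.exp_add]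
    ring
  rw [← e]
  exact h5

end Conv

theorem conv : S_CONV := by
  intro X w L k₁ k₂ b₁ b₂ p₁ r₁ p₂ r₂ h1 h2 s1 s2
  refine ⟨fun t => Conv.bL b₁ b₂ ((Conv.eqv X).symm t), ?_, ?_, ?_⟩
  · intro t
    obtain ⟨l, rfl⟩ := (Conv.eqv X).surjective t
    simp only [Equiv.symm_apply_apply]
    exact Conv.maj h1 h2 l
  · intro t ht
    obtain ⟨l, rfl⟩ := (Conv.eqv X).surjective t
    simp only [Equiv.symm_apply_apply] at ht
    exact Conv.supp s1 s2 l ht
  · intro u s g1 g2
    refine (Conv.eqv X).hasSum_iff.1 ?_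
    have h := Conv.hs g1 g2
    have e : (fun t : TT X => Uc u t * Conv.bL b₁ b₂ ((Conv.eqv X).symm t) *
        Complex.exp (-(s * Lam L t))) ∘ (Conv.eqv X) =
        fun l : List X => Uc u (Conv.eqv X l) * Conv.bL b₁ b₂ l *
          Complex.exp (-(s * Lam L (Conv.eqv X l))) := by
      funext l
      simp only [Function.comp_apply, Equiv.symm_apply_apply]
    rw [e]
    exact h

theorem pow : S_POW := by
  intro X w L k b p r hM hS j
  induction j with
  | zero =>
    refine ⟨fun l => if l.1 = 0 then 1 else 0, ?_, ?_, ?_⟩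
    · rintro ⟨m, f⟩
      simp only
      by_cases hm : m = 0
      · subst hm
        rw [if_pos rfl]
        unfold Uc
        simp
      · rw [if_neg hm, norm_zero]
        positivity
    · rintro ⟨m, f⟩ h
      simp only [ne_eq, ite_eq_right_iff, one_ne_zero, imp_false, not_not] at h
      subst h
      unfold Lam
      simp
    · intro u s _
      rw [pow_zero]
      have h := hasSum_single (f := fun l : TT X => Uc u l * (if l.1 = 0 then 1 else 0) *
        Complex.exp (-(s * Lam L l))) ⟨0, Fin.elim0⟩ (by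
          rintro ⟨m, f⟩ hne
          simp only
          by_cases hm : m = 0
          · subst hm
            exact absurd (by congr 1; exact Subsingleton.elim _ _) hne
          · rw [if_neg hm]
            ring)
      have e : Uc u (⟨0, Fin.elim0⟩ : TT X) * (if (⟨0, Fin.elim0⟩ : TT X).1 = 0 then 1 else 0) *
        Complex.exp (-(s * Lam L (⟨0, Fin.elim0⟩ : TT X))) = 1 := by
        unfold Uc Lam
        simp
      rw [e] at h
      exact h
  | succ j ih =>
    obtain ⟨b', hM', hS', hH'⟩ := ih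
    obtain ⟨b'', hM'', hS'', hH''⟩ := conv X w L (j * k) k b' b (j * p) (j * r) p r hM' hM hS' hS
    refine ⟨b'', ?_, ?_, ?_⟩
    · have e : (j + 1) * k = j * k + k := by ring
      rw [e]
      exact hM''
    · have e1 : ((j + 1 : ℕ) : ℝ) * p = j * p + p := by push_cast; ring
      have e2 : ((j + 1 : ℕ) : ℝ) * r = j * r + r := by push_cast; ring
      rw [e1, e2]
      exact hS''
    · intro u s hs
      have h := hH'' u s (hH' u s hs).summable hs
      have e : Ph L b' u s = Ph L b u s ^ j := (hH' u s hs).tsum_eq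
      rw [e, ← pow_succ] at h
      exact h

end Pool.Agent.N846.ZD
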