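import Pool.Agent.N846.ZD.Stm
import Pool.Agent.N846.LM.Gram

/-!
# Zero density: one Gaussian at a complex point (helper163)

`gb : S_GB`. The proof of `GRAMP.one_term` (`Pool/Agent/N846/LM/Gram.lean`, helper438) at a point `s0`
with `0 ≤ Re s0 ≤ 1` instead of a point of the imaginary axis.
-/

set_option autoImplicit false

namespace Pool.Agent.N846.ZD

open Filter Topology Complex MeasureTheory Set
open Pool.Agent.TH942.SL (V shift)
open Pool.Agent.TH949.LT (TT Lam norm_exp_sq exp_aux)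
open Pool.Agent.N846.DT (PairF co Uc co_sum co_abs rpow_exp JK JK_int JK_nonneg summ_cs summ_mono'
  term_norm')
open Pool.Agent.N846.LM (EG)
open Pool.Agent.N846.LM.GRAMP (EX EX_norm expandG)

namespace GBP

/-- the bound for one Gaussian -/
theorem one_term {X : Type} [Countable X] {u v : X → ℂ} {L : X → ℝ} {F : ℂ → ℂ}
    (hF : PairF u v L F) {s0 : ℂ} (hs0 : 0 ≤ s0.re) (hs1 : s0.re ≤ 1)
    (hs3 : Summable fun x => ‖u x‖ * ‖v x‖ * Real.exp (-((s0.re + 3) * L x)))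
    {σ₀ B K : ℝ} (hσ : 0 < σ₀) (hB0 : 0 ≤ B)
    (hB : ∀ v' : ℝ, ‖F (((-σ₀ : ℝ) : ℂ) + (s0.im + v' : ℝ) * I)‖ ≤ B * (1 + |v'|) ^ K) {y : ℝ}
    (hy : 0 ≤ y) :
    ∃ T : ℂ, HasSum (fun l : TT X => co u v l * cexp (-(s0 * Lam L l)) * EG (y - Lam L l)) T ∧
      ‖T‖ ≤ Real.exp ((σ₀ + 1) ^ 2) * JK K * B * Real.exp (-(σ₀ * y)) := by
  have h1 := expandG (c := fun l : TT X => co u v l) (Λ := Lam L) (F := F) (s0 := s0) (b := 3)
    (co_abs hs3).summable (fun s hs' => by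
      rw [hF.eq s (by rw [hs']; linarith)]
      exact co_sum (by rw [hs']; exact hs3)) y
  set τ : ℝ := σ₀ + s0.re with hτ
  have hτ0 : 0 < τ := by linarith
  set H : ℂ → ℂ := fun w => F (s0 + w) * cexp (w * y) * cexp (w ^ 2) with hH
  obtain ⟨C1, A1, hCA⟩ := hF.growth (-σ₀) 4
  obtain ⟨C2, hC20, hC2⟩ := rpow_exp (|A1|)
  have hHb : ∀ w : ℂ, -τ ≤ w.re → w.re ≤ 3 →
      ‖H w‖ ≤ (|C1| * ((1 + |s0.im|) ^ (|A1|) * C2) * Real.exp ((|-τ| + 3) * |y|) *
        Real.exp (τ ^ 2 + 3 ^ 2) * Real.exp 3) * (1 + |w.im|) ^ (-2 : ℝ) := by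
    intro w hw1 hw2
    rw [hH]
    simp only
    rw [norm_mul, norm_mul, norm_exp_sq]
    have h2 := hCA (s0 + w) (by rw [add_re]; linarith)
      (by rw [add_re]; linarith)
    have h3 : ‖cexp (w * y)‖ ≤ Real.exp ((|-τ| + 3) * |y|) := by
      rw [Complex.norm_exp]
      refine Real.exp_le_exp.2 ?_
      simp only [Complex.mul_re, Complex.ofReal_re, Complex.ofReal_im, mul_zero, sub_zero]
      calc w.re * y ≤ |w.re * y| := le_abs_self _
        _ = |w.re| * |y| := abs_mul _ _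
        _ ≤ (|-τ| + 3) * |y| := by
            refine mul_le_mul_of_nonneg_right ?_ (abs_nonneg y)
            rw [abs_le]
            constructor
            · linarith [neg_abs_le (-τ)]
            · linarith [abs_nonneg (-τ)]
    have h4 : (1 + |(s0 + w).im|) ^ A1 ≤ (1 + |s0.im|) ^ (|A1|) * C2 * Real.exp |w.im| := by
      have e1 : 1 + |(s0 + w).im| ≤ (1 + |s0.im|) * (1 + |w.im|) := by
        rw [Complex.add_im]
        have := abs_add_le s0.im w.im
        nlinarith [abs_nonneg s0.im, abs_nonneg w.im]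
      have e2 : (1 + |(s0 + w).im|) ^ A1 ≤ (1 + |(s0 + w).im|) ^ (|A1|) :=
        Real.rpow_le_rpow_of_exponent_le (by linarith [abs_nonneg (s0 + w).im]) (le_abs_self _)
      have e3 : (1 + |(s0 + w).im|) ^ (|A1|) ≤ ((1 + |s0.im|) * (1 + |w.im|)) ^ (|A1|) :=
        Real.rpow_le_rpow (by positivity) e1 (abs_nonneg _)
      rw [Real.mul_rpow (by positivity) (by positivity)] at e3
      refine (e2.trans e3).trans ?_
      rw [mul_assoc]
      exact mul_le_mul_of_nonneg_left (hC2 _ (abs_nonneg _)) (by positivity)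
    have h5 : ‖F (s0 + w)‖ ≤ |C1| * ((1 + |s0.im|) ^ (|A1|) * C2 * Real.exp |w.im|) := by
      refine h2.trans ?_
      have hX : 0 ≤ (1 + |(s0 + w).im|) ^ A1 := Real.rpow_nonneg (by positivity) _
      calc _ ≤ |C1| * (1 + |(s0 + w).im|) ^ A1 :=
            mul_le_mul_of_nonneg_right (le_abs_self _) hX
        _ ≤ _ := mul_le_mul_of_nonneg_left h4 (abs_nonneg _)
    have h6 : Real.exp (w.re ^ 2 - w.im ^ 2) ≤
        Real.exp (τ ^ 2 + 3 ^ 2) * Real.exp (- w.im ^ 2) := by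
      rw [← Real.exp_add]
      refine Real.exp_le_exp.2 ?_
      have : w.re ^ 2 ≤ τ ^ 2 + 3 ^ 2 := by
        rcases le_total 0 w.re with h0 | h0 <;> nlinarith
      linarith
    calc ‖F (s0 + w)‖ * ‖cexp (w * y)‖ * Real.exp (w.re ^ 2 - w.im ^ 2) ≤
          (|C1| * ((1 + |s0.im|) ^ (|A1|) * C2 * Real.exp |w.im|)) * Real.exp ((|-τ| + 3) * |y|) *
            (Real.exp (τ ^ 2 + 3 ^ 2) * Real.exp (- w.im ^ 2)) :=
          mul_le_mul (mul_le_mul h5 h3 (norm_nonneg _) (by positivity)) h6 (Real.exp_pos _).le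
            (by positivity)
      _ = |C1| * ((1 + |s0.im|) ^ (|A1|) * C2) * Real.exp ((|-τ| + 3) * |y|) *
            Real.exp (τ ^ 2 + 3 ^ 2) * Real.exp (|w.im| - w.im ^ 2) := by
          rw [sub_eq_add_neg |w.im|, Real.exp_add |w.im|]
          ring
      _ ≤ |C1| * ((1 + |s0.im|) ^ (|A1|) * C2) * Real.exp ((|-τ| + 3) * |y|) *
            Real.exp (τ ^ 2 + 3 ^ 2) * (Real.exp 3 * (1 + |w.im|) ^ (-2 : ℝ)) :=
          mul_le_mul_of_nonneg_left (exp_aux _) (by positivity)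
      _ = _ := by ring
  have hHd : Differentiable ℂ H :=
    ((hF.diff.comp (by fun_prop)).mul (by fun_prop)).mul (by fun_prop)
  have h2 := shift (H := H) (a := -τ) (b := 3) (p := 2) (by norm_num) (by linarith)
    (fun s _ _ => hHd s) hHb
  -- the integral on the left
  have hIb : ‖∫ t : ℝ, H (((-τ : ℝ) : ℂ) + t * I)‖ ≤
      Real.exp ((σ₀ + 1) ^ 2) * JK K * B * Real.exp (-(σ₀ * y)) := by
    have h3 : ∀ t : ℝ, ‖H (((-τ : ℝ) : ℂ) + t * I)‖ ≤
        Real.exp ((σ₀ + 1) ^ 2) * B * Real.exp (-(σ₀ * y)) *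
          ((1 + |t|) ^ K * Real.exp (-t ^ 2)) := by
      intro t
      have e1 : s0 + (((-τ : ℝ) : ℂ) + t * I) = ((-σ₀ : ℝ) : ℂ) + (s0.im + t : ℝ) * I := by
        apply Complex.ext
        · simp [hτ]
        · simp [hτ]
      have e2 : ‖cexp ((((-τ : ℝ) : ℂ) + t * I) * y)‖ ≤ Real.exp (-(σ₀ * y)) := by
        rw [Complex.norm_exp]
        refine Real.exp_le_exp.2 ?_
        have : ((((-τ : ℝ) : ℂ) + t * I) * y).re = -(τ * y) := by simp
        rw [this]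
        nlinarith
      have e3 : ‖cexp ((((-τ : ℝ) : ℂ) + t * I) ^ 2)‖ ≤
          Real.exp ((σ₀ + 1) ^ 2) * Real.exp (-t ^ 2) := by
        have h4 := EX_norm (-τ) t
        rw [neg_sq] at h4
        have h5 : ‖cexp ((((-τ : ℝ) : ℂ) + t * I) ^ 2)‖ = Real.exp (τ ^ 2) * Real.exp (-t ^ 2) := h4
        rw [h5]
        refine mul_le_mul_of_nonneg_right (Real.exp_le_exp.2 ?_) (Real.exp_pos _).le
        exact pow_le_pow_left₀ hτ0.le (by linarith) 2
      rw [hH]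
      simp only
      rw [norm_mul, norm_mul, e1]
      have hK : 0 ≤ (1 + |t|) ^ K := Real.rpow_nonneg (by positivity) _
      calc _ ≤ (B * (1 + |t|) ^ K) * Real.exp (-(σ₀ * y)) *
            (Real.exp ((σ₀ + 1) ^ 2) * Real.exp (-t ^ 2)) :=
            mul_le_mul (mul_le_mul (hB t) e2 (norm_nonneg _) (by positivity)) e3 (norm_nonneg _)
              (by positivity)
        _ = _ := by ring
    refine (norm_integral_le_of_norm_le ((JK_int K).const_mul _)
      (Eventually.of_forall h3)).trans (le_of_eq ?_)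
    rw [integral_const_mul]
    unfold JK
    ring
  -- conclusion
  have hpi := Real.pi_pos
  have h2pi : (2 * Real.pi : ℂ) ≠ 0 := by exact_mod_cast (by positivity : (2 * Real.pi : ℝ) ≠ 0)
  have hpi' : (((2 * Real.pi)⁻¹ : ℝ) : ℂ) ≠ 0 := by
    exact_mod_cast (by positivity : (2 * Real.pi)⁻¹ ≠ 0)
  unfold V at h2
  have h4 := mul_left_cancel₀ hpi' h2
  have h5 : (∫ v : ℝ, F (s0 + (((3 : ℝ) : ℂ) + v * I)) * cexp ((((3 : ℝ) : ℂ) + v * I) * y) *
      EX 3 v) = ∫ t : ℝ, H (((-τ : ℝ) : ℂ) + t * I) := by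
    rw [h4]
    rfl
  rw [h5] at h1
  refine ⟨(2 * Real.pi : ℂ)⁻¹ * ∫ t : ℝ, H (((-τ : ℝ) : ℂ) + t * I), ?_, ?_⟩
  · refine (h1.mul_left ((2 * Real.pi : ℂ)⁻¹)).congr_fun fun l => ?_
    field_simp
  · rw [norm_mul, norm_inv]
    have h5 : ‖(2 * Real.pi : ℂ)‖ = 2 * Real.pi := by
      rw [norm_mul, Complex.norm_real, Real.norm_of_nonneg hpi.le]
      simp
    rw [h5]
    have h6 : (2 * Real.pi)⁻¹ ≤ 1 := inv_le_one_of_one_le₀ (by linarith [Real.pi_gt_three])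
    calc _ ≤ 1 * ‖∫ t : ℝ, H (((-τ : ℝ) : ℂ) + t * I)‖ :=
          mul_le_mul_of_nonneg_right h6 (norm_nonneg _)
      _ ≤ _ := by rw [one_mul]; exact hIb

end GBP

/-- **GB.** -/
theorem gb : S_GB := by
  intro σ₀ A hσ hA
  refine ⟨Real.exp ((σ₀ + 1) ^ 2) * JK A + 1, by
    have := JK_nonneg A
    positivity, ?_⟩
  intro X _ u v L F hL hF hu hv s0 B i hs0 hs1 hB0 hi hB
  have hs3 : Summable fun x => ‖u x‖ * ‖v x‖ * Real.exp (-((s0.re + 3) * L x)) :=
    summ_mono' hL (fun x => by positivity) (by linarith) (summ_cs hu hv)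
  obtain ⟨T, hT, hTn⟩ := GBP.one_term hF hs0 hs1 hs3 hσ hB0 hB hi
  refine ⟨hT.summable, ?_⟩
  rw [hT.tsum_eq]
  refine hTn.trans ?_
  have h1 : 0 ≤ B * Real.exp (-(σ₀ * i)) := by positivity
  calc Real.exp ((σ₀ + 1) ^ 2) * JK A * B * Real.exp (-(σ₀ * i))
      = Real.exp ((σ₀ + 1) ^ 2) * JK A * (B * Real.exp (-(σ₀ * i))) := by ring
    _ ≤ (Real.exp ((σ₀ + 1) ^ 2) * JK A + 1) * (B * Real.exp (-(σ₀ * i))) :=
        mul_le_mul_of_nonneg_right (by linarith) h1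
    _ = _ := by ring

end Pool.Agent.N846.ZD
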