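import Pool.Agent.N846.ZD.Data

/-! Zero density: splitting into blocks. -/

set_option autoImplicit false

namespace Pool.Agent.N846.ZD

open Filter Topology Complex MeasureTheory Set
open Pool.Agent.TH949.LT (TT Lam VV VV_nonneg VV_le)
open Pool.Agent.N846.DT (PairF co Uc co_abs summ_mono' summ_cs Lam_nonneg half_exp)
open Pool.Agent.N846.LM (VV_le_one)

variable {X : Type}

theorem Uc_mul (k : ℝ) (u : X → ℂ) (l : TT X) : Uc (fun x => (k : ℂ) * u x) l = (k : ℂ) ^ l.1 * Uc u l := by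
  unfold Uc
  rw [Finset.prod_mul_distrib, Finset.prod_const, Finset.card_univ, Fintype.card_fin]

theorem maj_norm {w : X → ℂ} {k : ℕ} {b : TT X → ℂ} (h : Maj w k b) (u : X → ℂ) (l : TT X) :
    ‖Uc u l * b l‖ ≤ ‖co (fun x => ((k : ℝ) : ℂ) * u x) w l‖ := by
  unfold co
  rw [norm_div, norm_mul, norm_mul, RCLike.norm_conj, Uc_mul, norm_mul, norm_pow, Complex.norm_real,
    Complex.norm_natCast, Real.norm_of_nonneg (Nat.cast_nonneg k)]
  calc ‖Uc u l‖ * ‖b l‖ ≤ ‖Uc u l‖ * ((k : ℝ) ^ l.1 * ‖Uc w l‖ / (l.1.factorial : ℝ)) :=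
        mul_le_mul_of_nonneg_left (h l) (norm_nonneg _)
    _ = _ := by ring

theorem co_k_summ {u w : X → ℂ} {L : X → ℝ} {a : ℝ} (k : ℝ)
    (hs : Summable fun z => ‖u z‖ * ‖w z‖ * Real.exp (-(a * L z))) :
    Summable fun l : TT X => ‖co (fun x => (k : ℂ) * u x) w l‖ * Real.exp (-(a * Lam L l)) := by
  refine (co_abs (u := fun x => (k : ℂ) * u x) (v := w) (L := L) (σ := a) ?_).summable
  refine (hs.mul_left |k|).congr fun x => ?_
  rw [norm_mul, Complex.norm_real, Real.norm_eq_abs]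
  ring

/-- a bounded piece converges absolutely everywhere -/
theorem cut_summ {u w : X → ℂ} {L : X → ℝ} {a : ℝ} {k : ℕ} {b : TT X → ℂ} (hL : ∀ z, 0 ≤ L z)
    (hs : Summable fun z => ‖u z‖ * ‖w z‖ * Real.exp (-(a * L z))) (hb : Maj w k b) {p r : ℝ}
    (hS : Supp L b p r) (s : ℂ) :
    Summable fun l : TT X => Uc u l * b l * cexp (-(s * Lam L l)) := by
  refine Summable.of_norm ?_
  refine Summable.of_nonneg_of_le (fun l => norm_nonneg _) (fun l => ?_)
    ((co_k_summ (k := (k : ℝ)) hs).mul_left (Real.exp (|a - s.re| * |r|)))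
  rw [norm_mul, Complex.norm_exp]
  have h1 : (-(s * (Lam L l : ℂ))).re = -(s.re * Lam L l) := by simp
  rw [h1]
  have hΛ := Lam_nonneg hL l
  by_cases hb0 : b l = 0
  · rw [hb0, mul_zero, norm_zero, zero_mul]
    positivity
  have h2 := (hS l hb0).2
  have h3 : -(s.re * Lam L l) ≤ |a - s.re| * |r| + -(a * Lam L l) := by
    have h4 : (a - s.re) * Lam L l ≤ |a - s.re| * |r| := by
      calc (a - s.re) * Lam L l ≤ |a - s.re| * Lam L l := mul_le_mul_of_nonneg_right (le_abs_self _) hΛ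
        _ ≤ |a - s.re| * |r| := mul_le_mul_of_nonneg_left (h2.trans (le_abs_self _)) (abs_nonneg _)
    nlinarith
  calc ‖Uc u l * b l‖ * Real.exp (-(s.re * Lam L l)) ≤
        ‖co (fun x => ((k : ℝ) : ℂ) * u x) w l‖ * Real.exp (|a - s.re| * |r| + -(a * Lam L l)) :=
        mul_le_mul (maj_norm hb u l) (Real.exp_le_exp.2 h3) (Real.exp_pos _).le (norm_nonneg _)
    _ = _ := by rw [Real.exp_add]; ring

/-- the block `r` -/
noncomputable def blk (L : X → ℝ) (c : TT X → ℂ) (x y Y : ℝ) (r : ℕ) (l : TT X) : ℂ :=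
  open Classical in if (r : ℝ) < Lam L l ∧ Lam L l ≤ r + 1 ∧ x < Lam L l ∧ Lam L l ≤ Y then
    c l * VV (y - Lam L l) else 0

theorem blk_maj {w : X → ℂ} {L : X → ℝ} {c : TT X → ℂ} {k : ℕ} (h : Maj w k c) (x y Y : ℝ) (r : ℕ) :
    Maj w k (blk L c x y Y r) := by
  intro l
  unfold blk
  split_ifs
  · rw [norm_mul, Complex.norm_real, Real.norm_of_nonneg (VV_nonneg _)]
    calc _ ≤ ‖c l‖ * 1 := mul_le_mul_of_nonneg_left (VV_le_one _) (norm_nonneg _)
      _ ≤ _ := by rw [mul_one]; exact h l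
  · rw [norm_zero]
    positivity

theorem blk_supp (L : X → ℝ) (c : TT X → ℂ) (x y Y : ℝ) (r : ℕ) :
    Supp L (blk L c x y Y r) (r : ℝ) ((r : ℝ) + 1) := by
  intro l hl
  unfold blk at hl
  split_ifs at hl with h
  · exact ⟨h.1.le, h.2.1⟩
  · exact absurd rfl hl

theorem pig {u w : X → ℂ} {L : X → ℝ} {a x y Y : ℝ} {c : TT X → ℂ} {s0 : ℂ} (hL : ∀ z, 0 ≤ L z) (hx : 0 ≤ x)
    (hs : Summable fun z => ‖u z‖ * ‖w z‖ * Real.exp (-(a * L z))) (hc : Maj w 2 c)
    (h : 1 / 4 ≤ ‖∑' l : TT X, if x < Lam L l ∧ Lam L l ≤ Y then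
      Uc u l * (c l * VV (y - Lam L l)) * cexp (-(s0 * Lam L l)) else 0‖) :
    ∃ r ∈ Finset.Ico ⌊x⌋₊ (⌊Y⌋₊ + 1), 1 / (4 * ((⌊Y⌋₊ : ℝ) + 1)) ≤ ‖Ph L (blk L c x y Y r) u s0‖ := by
  have hY0 : 0 ≤ Y := by
    by_contra hY
    push Not at hY
    have h0 : ∀ l : TT X, (if x < Lam L l ∧ Lam L l ≤ Y then
        Uc u l * (c l * VV (y - Lam L l)) * cexp (-(s0 * Lam L l)) else 0) = 0 := by
      intro l
      rw [if_neg]
      rintro ⟨-, h2⟩
      have := Lam_nonneg hL l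
      linarith
    simp_rw [h0] at h
    rw [tsum_zero, norm_zero] at h
    norm_num at h
  have hsum : ∀ r : ℕ, Summable fun l : TT X => Uc u l * blk L c x y Y r l * cexp (-(s0 * Lam L l)) := fun r =>
    cut_summ hL hs (blk_maj hc x y Y r) (blk_supp L c x y Y r) s0
  have hpt : ∀ l : TT X, (if x < Lam L l ∧ Lam L l ≤ Y then
      Uc u l * (c l * VV (y - Lam L l)) * cexp (-(s0 * Lam L l)) else 0) =
      ∑ r ∈ Finset.Ico ⌊x⌋₊ (⌊Y⌋₊ + 1), Uc u l * blk L c x y Y r l * cexp (-(s0 * Lam L l)) := by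
    intro l
    split_ifs with hl
    · -- the block of `l`
      set r0 : ℕ := ⌈Lam L l⌉₊ - 1 with hr0
      have hpos : 0 < Lam L l := lt_of_le_of_lt hx hl.1
      have hc1 : 1 ≤ ⌈Lam L l⌉₊ := Nat.one_le_ceil_iff.2 hpos
      have hceil : ⌈Lam L l⌉₊ = r0 + 1 := by omega
      have h1 : (r0 : ℝ) < Lam L l := by
        have := (Nat.ceil_eq_iff (n := r0 + 1) (by omega)).1 hceil
        simpa using this.1
      have h2 : Lam L l ≤ (r0 : ℝ) + 1 := by
        have := (Nat.ceil_eq_iff (n := r0 + 1) (by omega)).1 hceil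
        have h3 := this.2
        push_cast at h3
        exact h3
      have hmem : r0 ∈ Finset.Ico ⌊x⌋₊ (⌊Y⌋₊ + 1) := by
        rw [Finset.mem_Ico]
        constructor
        · by_contra hlt
          push Not at hlt
          have h3 : (r0 : ℝ) + 1 ≤ (⌊x⌋₊ : ℝ) := by exact_mod_cast hlt
          have h4 := Nat.floor_le hx
          linarith [hl.1]
        · have h3 : (r0 : ℝ) ≤ Y := by linarith [hl.2]
          have := Nat.le_floor h3
          omega
      rw [Finset.sum_eq_single r0]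
      · have : blk L c x y Y r0 l = c l * VV (y - Lam L l) := by
          unfold blk
          rw [if_pos ⟨h1, h2, hl.1, hl.2⟩]
        rw [this]
      · intro r _ hne
        have : blk L c x y Y r l = 0 := by
          unfold blk
          rw [if_neg]
          rintro ⟨g1, g2, -, -⟩
          apply hne
          have e1 : (r : ℝ) < (r0 : ℝ) + 1 := lt_of_lt_of_le g1 h2
          have e2 : (r0 : ℝ) < (r : ℝ) + 1 := lt_of_lt_of_le h1 g2
          have e3 : r < r0 + 1 := by exact_mod_cast e1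
          have e4 : r0 < r + 1 := by exact_mod_cast e2
          omega
        rw [this, mul_zero, zero_mul]
      · intro hn
        exact absurd hmem hn
    · symm
      refine Finset.sum_eq_zero fun r _ => ?_
      have : blk L c x y Y r l = 0 := by
        unfold blk
        rw [if_neg]
        rintro ⟨-, -, g3, g4⟩
        exact hl ⟨g3, g4⟩
      rw [this, mul_zero, zero_mul]
  have htot : ∑' l : TT X, (if x < Lam L l ∧ Lam L l ≤ Y then
      Uc u l * (c l * VV (y - Lam L l)) * cexp (-(s0 * Lam L l)) else 0) =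
      ∑ r ∈ Finset.Ico ⌊x⌋₊ (⌊Y⌋₊ + 1), Ph L (blk L c x y Y r) u s0 := by
    simp_rw [hpt]
    exact Summable.tsum_finsetSum fun r _ => hsum r
  rw [htot] at h
  by_contra hcon
  push Not at hcon
  have h5 : ‖∑ r ∈ Finset.Ico ⌊x⌋₊ (⌊Y⌋₊ + 1), Ph L (blk L c x y Y r) u s0‖ < 1 / 4 := by
    rcases (Finset.Ico ⌊x⌋₊ (⌊Y⌋₊ + 1)).eq_empty_or_nonempty with he | hne
    · rw [he, Finset.sum_empty, norm_zero]
      norm_num
    refine lt_of_le_of_lt (norm_sum_le _ _) ?_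
    refine lt_of_lt_of_le (Finset.sum_lt_sum_of_nonempty hne hcon) ?_
    rw [Finset.sum_const, Nat.card_Ico, nsmul_eq_mul]
    have h6 : (((⌊Y⌋₊ + 1 - ⌊x⌋₊ : ℕ)) : ℝ) ≤ (⌊Y⌋₊ : ℝ) + 1 := by
      have : (⌊Y⌋₊ + 1 - ⌊x⌋₊ : ℕ) ≤ ⌊Y⌋₊ + 1 := Nat.sub_le _ _
      exact_mod_cast this
    have h7 : (0 : ℝ) < (⌊Y⌋₊ : ℝ) + 1 := by positivity
    calc _ ≤ ((⌊Y⌋₊ : ℝ) + 1) * (1 / (4 * ((⌊Y⌋₊ : ℝ) + 1))) :=
          mul_le_mul_of_nonneg_right h6 (by positivity)
      _ = 1 / 4 := by field_simp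
  linarith

end Pool.Agent.N846.ZD
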