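import Mathlib

/-! Zero density: the choice of the parameters. -/

set_option autoImplicit false

namespace Pool.Agent.N846.ZD

theorem params {σ₀ σ₁ τ : ℝ} (h0 : 0 < σ₀) (h1 : 0 < σ₁) (hτ : 0 < τ) : ∃ c a₁ a : ℝ, 0 < c ∧ c ≤ 1 / 4 ∧
    c ≤ σ₀ / 4 ∧ 0 < a₁ ∧ a₁ ≤ 1 ∧ 2 ≤ a ∧ ∀ σ M LC LQ : ℝ, 1 / 2 ≤ σ → σ ≤ 1 → 0 ≤ LC → LC ≤ M → 0 ≤ LQ →
      LQ ≤ M →
      (((1 / 2 + σ₁) * LC + a₁ * (9 + σ₁) * M) / (σ + σ₁) ≤ (19 + 4 * σ₁) * M) ∧
      ((a * (((1 / 2 + σ₁) * LC + a₁ * (9 + σ₁) * M) / (σ + σ₁)) + a₁ * M) / (a - 1) ≤ (39 + 8 * σ₁) * M) ∧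
      (((1 / 2 + σ₀) * LQ + a₁ * M) / (σ₀ + 2 * σ - 1 - 2 * c) ≤ (3 + 2 * σ₀) / σ₀ * M) ∧
      2 * a₁ * M + (2 - 2 * σ + 3 * c) * (((1 / 2 + σ₀) * LQ + a₁ * M) / (σ₀ + 2 * σ - 1 - 2 * c) +
        (a * (((1 / 2 + σ₁) * LC + a₁ * (9 + σ₁) * M) / (σ + σ₁)) + a₁ * M) / (a - 1)) ≤
      τ * M + (2 - 2 * σ) * ((1 / 2 + σ₀) / (σ₀ + 2 * σ - 1) * LQ + (1 / 2 + σ₁) / (σ + σ₁) * LC) := by
  set P1 : ℝ := 2 + 2 / σ₀ + 2 * (9 + σ₁) with hP1
  set P2 : ℝ := (1 / 2 + σ₀) * (4 / σ₀ ^ 2) + 3 * ((3 + 2 * σ₀) / σ₀ + (39 + 8 * σ₁)) with hP2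
  set P3 : ℝ := 20 + 4 * σ₁ with hP3
  have hP10 : 0 < P1 := by positivity
  have hP20 : 0 < P2 := by positivity
  have hP30 : 0 < P3 := by positivity
  set a₁ : ℝ := min 1 (τ / (3 * P1)) with ha₁
  set c : ℝ := min (min (1 / 4) (σ₀ / 4)) (τ / (3 * P2)) with hc
  set a : ℝ := 2 + 3 * P3 / τ with ha
  have ha₁0 : 0 < a₁ := lt_min one_pos (by positivity)
  have ha₁1 : a₁ ≤ 1 := min_le_left _ _
  have hc0 : 0 < c := lt_min (lt_min (by norm_num) (by positivity)) (by positivity)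
  have hc1 : c ≤ 1 / 4 := (min_le_left _ _).trans (min_le_left _ _)
  have hc2 : c ≤ σ₀ / 4 := (min_le_left _ _).trans (min_le_right _ _)
  have ha2 : 2 ≤ a := by
    rw [ha]
    have : 0 < 3 * P3 / τ := by positivity
    linarith
  have e1 : a₁ * P1 ≤ τ / 3 := by
    have : a₁ ≤ τ / (3 * P1) := min_le_right _ _
    calc a₁ * P1 ≤ τ / (3 * P1) * P1 := mul_le_mul_of_nonneg_right this hP10.le
      _ = τ / 3 := by field_simp
  have e2 : c * P2 ≤ τ / 3 := by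
    have : c ≤ τ / (3 * P2) := min_le_right _ _
    calc c * P2 ≤ τ / (3 * P2) * P2 := mul_le_mul_of_nonneg_right this hP20.le
      _ = τ / 3 := by field_simp
  have e3 : P3 / (a - 1) ≤ τ / 3 := by
    rw [div_le_iff₀ (by linarith), ha]
    have : τ / 3 * (2 + 3 * P3 / τ - 1) = τ / 3 + P3 := by
      field_simp
      ring
    rw [this]
    linarith
  refine ⟨c, a₁, a, hc0, hc1, hc2, ha₁0, ha₁1, ha2, ?_⟩
  intro σ M LC LQ hσ hσ1 hLC hLCM hLQ hLQM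
  have hM : 0 ≤ M := hLC.trans hLCM
  set y : ℝ := ((1 / 2 + σ₁) * LC + a₁ * (9 + σ₁) * M) / (σ + σ₁) with hy
  have hσσ : 1 / 2 ≤ σ + σ₁ := by linarith
  have hy0 : 0 ≤ y := by positivity
  have hyle : y ≤ (19 + 4 * σ₁) * M := by
    rw [hy, div_le_iff₀ (by linarith)]
    have h2 : (1 / 2 + σ₁) * LC ≤ (1 / 2 + σ₁) * M := mul_le_mul_of_nonneg_left hLCM (by linarith)
    have h3 : a₁ * (9 + σ₁) * M ≤ (9 + σ₁) * M := by
      have : a₁ * (9 + σ₁) ≤ 1 * (9 + σ₁) := mul_le_mul_of_nonneg_right ha₁1 (by linarith)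
      rw [one_mul] at this
      exact mul_le_mul_of_nonneg_right this hM
    have h4 : (19 + 4 * σ₁) * M * (1 / 2) ≤ (19 + 4 * σ₁) * M * (σ + σ₁) :=
      mul_le_mul_of_nonneg_left hσσ (by positivity)
    nlinarith
  have ha1 : 0 < a - 1 := by linarith
  set Y : ℝ := (a * y + a₁ * M) / (a - 1) with hY
  have hYeq : Y = y + (y + a₁ * M) / (a - 1) := by
    rw [hY]
    field_simp
    ring
  have hya : y + a₁ * M ≤ P3 * M := by
    rw [hP3]
    nlinarith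
  have hfrac : (y + a₁ * M) / (a - 1) ≤ τ / 3 * M := by
    calc _ ≤ P3 * M / (a - 1) := div_le_div_of_nonneg_right hya ha1.le
      _ = P3 / (a - 1) * M := by ring
      _ ≤ _ := mul_le_mul_of_nonneg_right e3 hM
  have hfrac0 : 0 ≤ (y + a₁ * M) / (a - 1) := by positivity
  have hfrac2 : (y + a₁ * M) / (a - 1) ≤ P3 * M := by
    refine (div_le_self (by positivity) (by linarith)).trans hya
  have hYle : Y ≤ (39 + 8 * σ₁) * M := by
    rw [hYeq]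
    rw [hP3] at hfrac2
    nlinarith
  set e : ℝ := σ₀ + 2 * σ - 1 - 2 * c with he
  have he0 : σ₀ / 2 ≤ e := by rw [he]; linarith
  have he1 : 0 < e := by linarith
  have hE0 : σ₀ ≤ σ₀ + 2 * σ - 1 := by linarith
  set z : ℝ := ((1 / 2 + σ₀) * LQ + a₁ * M) / e with hz
  have hz0 : 0 ≤ z := by positivity
  have hzle : z ≤ (3 + 2 * σ₀) / σ₀ * M := by
    rw [hz, div_le_iff₀ he1]
    have h2 : (1 / 2 + σ₀) * LQ ≤ (1 / 2 + σ₀) * M := mul_le_mul_of_nonneg_left hLQM (by linarith)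
    have h3 : a₁ * M ≤ 1 * M := mul_le_mul_of_nonneg_right ha₁1 hM
    have h4 : (3 + 2 * σ₀) / σ₀ * M * (σ₀ / 2) ≤ (3 + 2 * σ₀) / σ₀ * M * e :=
      mul_le_mul_of_nonneg_left he0 (by positivity)
    have h5 : (3 + 2 * σ₀) / σ₀ * M * (σ₀ / 2) = (3 + 2 * σ₀) / 2 * M := by field_simp
    rw [h5] at h4
    linarith
  refine ⟨hyle, hYle, hzle, ?_⟩
  -- the main inequality
  have hs1 : 0 ≤ 2 - 2 * σ := by linarith
  have hs2 : 2 - 2 * σ ≤ 1 := by linarith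
  have hinv : 1 / e ≤ 1 / (σ₀ + 2 * σ - 1) + 4 / σ₀ ^ 2 * c := by
    have h2 : 1 / e - 1 / (σ₀ + 2 * σ - 1) = 2 * c / (e * (σ₀ + 2 * σ - 1)) := by
      have : σ₀ + 2 * σ - 1 ≠ 0 := by linarith
      field_simp
      rw [he]
      ring
    have h3 : 2 * c / (e * (σ₀ + 2 * σ - 1)) ≤ 2 * c / (σ₀ / 2 * σ₀) := by
      refine div_le_div_of_nonneg_left (by positivity) (by positivity) ?_
      exact mul_le_mul he0 hE0 h0.le he1.le
    have h4 : 2 * c / (σ₀ / 2 * σ₀) = 4 / σ₀ ^ 2 * c := by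
      field_simp
      ring
    linarith
  have hinv2 : 1 / e ≤ 2 / σ₀ := by
    rw [div_le_div_iff₀ he1 h0]
    linarith
  have t1 : (2 - 2 * σ) * z ≤ (2 - 2 * σ) * ((1 / 2 + σ₀) / (σ₀ + 2 * σ - 1) * LQ) +
      (1 / 2 + σ₀) * (4 / σ₀ ^ 2 * c) * M + a₁ * (2 / σ₀) * M := by
    have h2 : z = (1 / 2 + σ₀) * LQ * (1 / e) + a₁ * M * (1 / e) := by
      rw [hz]
      ring
    have h3 : (1 / 2 + σ₀) * LQ * (1 / e) ≤ (1 / 2 + σ₀) * LQ * (1 / (σ₀ + 2 * σ - 1) + 4 / σ₀ ^ 2 * c) :=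
      mul_le_mul_of_nonneg_left hinv (by positivity)
    have h4 : a₁ * M * (1 / e) ≤ a₁ * M * (2 / σ₀) := mul_le_mul_of_nonneg_left hinv2 (by positivity)
    have h5 : (1 / 2 + σ₀) * LQ * (4 / σ₀ ^ 2 * c) ≤ (1 / 2 + σ₀) * (4 / σ₀ ^ 2 * c) * M := by
      have : 0 ≤ (1 / 2 + σ₀) * (4 / σ₀ ^ 2 * c) := by positivity
      nlinarith
    have h6 : (2 - 2 * σ) * z ≤ (2 - 2 * σ) * ((1 / 2 + σ₀) / (σ₀ + 2 * σ - 1) * LQ) +
        (2 - 2 * σ) * ((1 / 2 + σ₀) * (4 / σ₀ ^ 2 * c) * M + a₁ * (2 / σ₀) * M) := by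
      rw [← mul_add]
      refine mul_le_mul_of_nonneg_left ?_ hs1
      have h7 : (1 / 2 + σ₀) * LQ * (1 / (σ₀ + 2 * σ - 1)) = (1 / 2 + σ₀) / (σ₀ + 2 * σ - 1) * LQ := by ring
      rw [mul_add, h7] at h3
      linarith
    have h8 : 0 ≤ (1 / 2 + σ₀) * (4 / σ₀ ^ 2 * c) * M + a₁ * (2 / σ₀) * M := by positivity
    have h9 := mul_le_mul_of_nonneg_right hs2 h8
    linarith
  have t2 : (2 - 2 * σ) * Y ≤ (2 - 2 * σ) * ((1 / 2 + σ₁) / (σ + σ₁) * LC) + a₁ * (2 * (9 + σ₁)) * M + τ / 3 * M := by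
    have h2 : y = (1 / 2 + σ₁) / (σ + σ₁) * LC + a₁ * (9 + σ₁) * M * (1 / (σ + σ₁)) := by
      rw [hy]
      ring
    have h3 : 1 / (σ + σ₁) ≤ 2 := by
      rw [div_le_iff₀ (by linarith)]
      linarith
    have h4 : a₁ * (9 + σ₁) * M * (1 / (σ + σ₁)) ≤ a₁ * (9 + σ₁) * M * 2 :=
      mul_le_mul_of_nonneg_left h3 (by positivity)
    have h5 : (2 - 2 * σ) * Y ≤ (2 - 2 * σ) * ((1 / 2 + σ₁) / (σ + σ₁) * LC) +
        (2 - 2 * σ) * (a₁ * (9 + σ₁) * M * 2 + τ / 3 * M) := by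
      rw [← mul_add]
      refine mul_le_mul_of_nonneg_left ?_ hs1
      rw [hYeq]
      linarith
    have h8 : 0 ≤ a₁ * (9 + σ₁) * M * 2 + τ / 3 * M := by positivity
    have h9 := mul_le_mul_of_nonneg_right hs2 h8
    linarith
  have t3 : 3 * c * (z + Y) ≤ c * (3 * ((3 + 2 * σ₀) / σ₀ + (39 + 8 * σ₁))) * M := by
    have : z + Y ≤ ((3 + 2 * σ₀) / σ₀ + (39 + 8 * σ₁)) * M := by
      rw [add_mul]
      exact add_le_add hzle hYle
    have := mul_le_mul_of_nonneg_left this (by positivity : (0 : ℝ) ≤ 3 * c)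
    linarith
  have k1 := mul_le_mul_of_nonneg_right e1 hM
  have k2 := mul_le_mul_of_nonneg_right e2 hM
  rw [hP1] at k1
  rw [hP2] at k2
  have k3 : (2 - 2 * σ + 3 * c) * (z + Y) = (2 - 2 * σ) * z + (2 - 2 * σ) * Y + 3 * c * (z + Y) := by ring
  rw [k3, mul_add]
  nlinarith

/-- the inequality for one block -/
theorem real_block {R V Cb σ σ₀ c η M LQ : ℝ} {a' J : ℕ} (hR : 0 ≤ R) (hV : Real.exp (-(η * J * M)) ≤ V)
    (hCb : Cb ≤ Real.exp (η * M)) (h8 : 8 ≤ Real.exp (η * M))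
    (h2 : η * (2 * J + 3 + 8 * J ^ 2) * M + (1 / 2 + σ₀) * LQ - (σ₀ + 2 * σ - 1 - 2 * c) * a' ≤ -(η * M))
    (h : R * V ^ 2 ≤ Cb * (Real.exp (2 * η * M) * Real.exp ((1 + c) * a') +
      R * Real.exp ((1 / 2 + σ₀) * LQ + 2 * η * M) * Real.exp (-(σ₀ * a'))) *
      (Real.exp ((1 - 2 * σ + 2 * c) * a') * Real.exp (2 * η * M) ^ (4 * J ^ 2))) :
    R ≤ 2 * Real.exp (η * (2 * J + 3 + 8 * J ^ 2) * M + (2 - 2 * σ + 3 * c) * a') := by
  have hV2 : Real.exp (-(2 * η * J * M)) ≤ V ^ 2 := by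
    have h3 := pow_le_pow_left₀ (Real.exp_pos _).le hV 2
    rw [← Real.exp_nat_mul] at h3
    refine le_trans (le_of_eq ?_) h3
    congr 1
    push_cast
    ring
  have hVR : R * Real.exp (-(2 * η * J * M)) ≤ R * V ^ 2 := mul_le_mul_of_nonneg_left hV2 hR
  set E1 : ℝ := Real.exp (η * (2 * J + 3 + 8 * J ^ 2) * M + (2 - 2 * σ + 3 * c) * a') with hE1
  set E2 : ℝ := Real.exp (η * (2 * J + 3 + 8 * J ^ 2) * M + (1 / 2 + σ₀) * LQ - (σ₀ + 2 * σ - 1 - 2 * c) * a') with hE2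
  have hpow : Real.exp (2 * η * M) ^ (4 * J ^ 2) = Real.exp (8 * η * J ^ 2 * M) := by
    rw [← Real.exp_nat_mul]
    congr 1
    push_cast
    ring
  have hbig : R * V ^ 2 ≤ Real.exp (-(2 * η * J * M)) * (E1 + R * E2) := by
    refine h.trans ?_
    rw [hpow]
    calc _ ≤ Real.exp (η * M) * (Real.exp (2 * η * M) * Real.exp ((1 + c) * a') +
          R * Real.exp ((1 / 2 + σ₀) * LQ + 2 * η * M) * Real.exp (-(σ₀ * a'))) *
          (Real.exp ((1 - 2 * σ + 2 * c) * a') * Real.exp (8 * η * J ^ 2 * M)) := by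
          refine mul_le_mul_of_nonneg_right (mul_le_mul_of_nonneg_right hCb (by positivity)) (by positivity)
      _ = Real.exp (η * M) * Real.exp (2 * η * M) * Real.exp ((1 + c) * a') *
            Real.exp ((1 - 2 * σ + 2 * c) * a') * Real.exp (8 * η * J ^ 2 * M) +
          R * (Real.exp (η * M) * Real.exp ((1 / 2 + σ₀) * LQ + 2 * η * M) * Real.exp (-(σ₀ * a')) *
            Real.exp ((1 - 2 * σ + 2 * c) * a') * Real.exp (8 * η * J ^ 2 * M)) := by ring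
      _ = Real.exp (-(2 * η * J * M)) * E1 + R * (Real.exp (-(2 * η * J * M)) * E2) := by
          rw [hE1, hE2, ← Real.exp_add, ← Real.exp_add, ← Real.exp_add, ← Real.exp_add, ← Real.exp_add,
            ← Real.exp_add, ← Real.exp_add, ← Real.exp_add, ← Real.exp_add, ← Real.exp_add]
          congr 2
          · ring
          · congr 1
            ring
      _ = _ := by ring
  have h3 : Real.exp (-(2 * η * J * M)) * R ≤ Real.exp (-(2 * η * J * M)) * (E1 + R * E2) := by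
    rw [mul_comm]
    exact hVR.trans hbig
  have h4 := le_of_mul_le_mul_left h3 (Real.exp_pos _)
  have h5 : E2 ≤ 1 / 2 := by
    have h6 : E2 ≤ Real.exp (-(η * M)) := Real.exp_le_exp.2 h2
    rw [Real.exp_neg] at h6
    have h7 : (Real.exp (η * M))⁻¹ ≤ 8⁻¹ := inv_anti₀ (by norm_num) h8
    norm_num at h7 ⊢
    linarith
  have h6 : R * E2 ≤ R * (1 / 2) := mul_le_mul_of_nonneg_left h5 hR
  linarith

/-- absorbing the constants -/
theorem absorb {η : ℝ} (hη : 0 < η) (A : ℝ) : ∃ E₀ : ℝ, 1 ≤ E₀ ∧ ∀ G : ℝ, E₀ ≤ G →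
    A ≤ Real.exp (η * Real.log G) ∧ A * (Real.log G + 1) ≤ Real.exp (η * Real.log G) := by
  have h1 : Filter.Tendsto (fun x : ℝ => Real.exp (η * x) / (x + 1)) Filter.atTop Filter.atTop := by
    have h2 : Filter.Tendsto (fun x : ℝ => Real.exp (η * x) / x ^ (1 : ℝ)) Filter.atTop Filter.atTop := by
      exact tendsto_exp_mul_div_rpow_atTop 1 η hη
    have h3 : Filter.Tendsto (fun x : ℝ => (1 / 2 : ℝ) * (Real.exp (η * x) / x ^ (1 : ℝ))) Filter.atTop Filter.atTop :=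
      h2.const_mul_atTop (by norm_num)
    refine Filter.tendsto_atTop_mono' _ ?_ h3
    filter_upwards [Filter.eventually_ge_atTop (1 : ℝ)] with x hx
    rw [Real.rpow_one]
    have : x + 1 ≤ 2 * x := by linarith
    rw [show (1 / 2 : ℝ) * (Real.exp (η * x) / x) = Real.exp (η * x) / (2 * x) by ring]
    exact div_le_div_of_nonneg_left (Real.exp_pos _).le (by linarith) this
  have h2 := h1.comp Real.tendsto_log_atTop
  obtain ⟨E₀, hE₀⟩ := Filter.eventually_atTop.1 (h2.eventually_ge_atTop |A|)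
  refine ⟨max 1 E₀, le_max_left _ _, fun G hG => ?_⟩
  have hG1 : 1 ≤ G := (le_max_left _ _).trans hG
  have hlog := Real.log_nonneg hG1
  have h3 := hE₀ G ((le_max_right _ _).trans hG)
  simp only [Function.comp] at h3
  rw [le_div_iff₀ (by linarith)] at h3
  constructor
  · refine le_trans ?_ h3
    calc A ≤ |A| := le_abs_self _
      _ ≤ |A| * (Real.log G + 1) := le_mul_of_one_le_right (abs_nonneg _) (by linarith)
  · refine le_trans ?_ h3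
    exact mul_le_mul_of_nonneg_right (le_abs_self _) (by linarith)

end Pool.Agent.N846.ZD
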