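import Pool.Agent.N846.ZD.Pig
import Pool.Agent.N846.ZD.Par

/-! Zero density: the bound for large conductors. -/

set_option autoImplicit false

namespace Pool.Agent.N846.ZD

open Filter Topology Complex MeasureTheory Set NumberField IsDedekindDomain
open Pool.Agent.TH949.LT (TT Lam VV VV_nonneg VV_le)
open Pool.Agent.N846.DT (PairF co Uc co_abs summ_mono' summ_cs Lam_nonneg half_exp)
open Pool.Agent.N846.DU (VX LV logRS RS GLFamily Rep LV_nonneg one_le_cond shift_cond S_LEFT S_DIAG)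
open Pool.Agent.N846.LM (Twists)

/-- one block -/
theorem one_block (hPow : S_POW) {σ₀ c a₁ η : ℝ} {J : ℕ} {Cb A₀ : ℝ} (h0 : 0 < σ₀) (hc0 : 0 < c)
    (hc2 : c ≤ σ₀ / 4) (hη : 0 < η) (hηJ : η * (2 * J + 4 + 8 * J ^ 2) ≤ a₁) (ha₁ : 0 < a₁)
    (hBlk : ∀ (X ι : Type) [Countable X] [Fintype ι] (u : ι → X → ℂ) (L : X → ℝ) (s : ι → ℂ) (F : ι → ι → ℂ → ℂ)
      (w : X → ℂ) (k : ℕ) (b : TT X → ℂ) (a r : ℕ) (σ D D' B V : ℝ), (∀ x, 0 ≤ L x) → 1 / 2 ≤ σ →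
      (∀ f, σ ≤ (s f).re) → (∀ f, (s f).re ≤ 1) →
      (∀ f, Summable fun x => ‖u f x‖ ^ 2 * Real.exp (-((1 + c) * L x))) →
      (∀ f, Real.exp (∑' x, ‖u f x‖ ^ 2 * Real.exp (-((1 + c) * L x))) ≤ D) →
      (Summable fun x => ‖w x‖ ^ 2 * Real.exp (-((1 + 2 * c) * L x))) →
      Real.exp (∑' x, ‖w x‖ ^ 2 * Real.exp (-((1 + 2 * c) * L x))) ≤ D' →
      (∀ f g, f ≠ g → PairF (u f) (u g) L (F f g)) → 0 ≤ B →
      (∀ f g, f ≠ g → ∀ v : ℝ, ‖F f g (((-σ₀ : ℝ) : ℂ) + (((s f).im - (s g).im) + v : ℝ) * I)‖ ≤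
        B * (1 + |v|) ^ A₀) →
      Maj w k b → k ≤ 2 * J → Supp L b a (a + r) → r ≤ J → 0 ≤ V → 0 ≤ D → (∀ f, V ≤ ‖Ph L b (u f) (s f)‖) →
      Fintype.card ι * V ^ 2 ≤ Cb * (D * Real.exp ((1 + c) * a) + Fintype.card ι * B * Real.exp (-(σ₀ * a))) *
        (Real.exp ((1 - 2 * σ + 2 * c) * a) * D' ^ (4 * J ^ 2)))
    {X ι : Type} [Countable X] [Fintype ι] {u : ι → X → ℂ} {L : X → ℝ} {s : ι → ℂ} {F : ι → ι → ℂ → ℂ}
    {w : X → ℂ} {cf : TT X → ℂ} {σ M LQ x y Y : ℝ} {r : ℕ} (hL : ∀ z, 0 ≤ L z) (hσ : 1 / 2 ≤ σ) (hσ1 : σ ≤ 1)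
    (hM : 0 ≤ M) (hLQ : 0 ≤ LQ) (hs1 : ∀ f, σ ≤ (s f).re) (hs2 : ∀ f, (s f).re ≤ 1)
    (hsu : ∀ f, Summable fun x => ‖u f x‖ ^ 2 * Real.exp (-((1 + c) * L x)))
    (hD : ∀ f, Real.exp (∑' x, ‖u f x‖ ^ 2 * Real.exp (-((1 + c) * L x))) ≤ Real.exp (2 * η * M))
    (hsw : Summable fun x => ‖w x‖ ^ 2 * Real.exp (-((1 + 2 * c) * L x)))
    (hD' : Real.exp (∑' x, ‖w x‖ ^ 2 * Real.exp (-((1 + 2 * c) * L x))) ≤ Real.exp (2 * η * M))
    (hsuw : ∀ f, Summable fun z => ‖u f z‖ * ‖w z‖ * Real.exp (-((1 + c) * L z)))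
    (hF : ∀ f g, f ≠ g → PairF (u f) (u g) L (F f g))
    (hFb : ∀ f g, f ≠ g → ∀ v : ℝ, ‖F f g (((-σ₀ : ℝ) : ℂ) + (((s f).im - (s g).im) + v : ℝ) * I)‖ ≤
        Real.exp ((1 / 2 + σ₀) * LQ + 2 * η * M) * (1 + |v|) ^ A₀) (hcf : Maj w 2 cf)
    (hCbM : Cb ≤ Real.exp (η * M)) (h8 : 8 ≤ Real.exp (η * M)) (hr0 : 0 < r)
    (hrJ : ((1 / 2 + σ₀) * LQ + a₁ * M) / (σ₀ + 2 * σ - 1 - 2 * c) / r ≤ J)
    (hY : 4 * ((⌊Y⌋₊ : ℝ) + 1) ≤ Real.exp (η * M))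
    (hlarge : ∀ f, 1 / (4 * ((⌊Y⌋₊ : ℝ) + 1)) ≤ ‖Ph L (blk L cf x y Y r) (u f) (s f)‖) :
    (Fintype.card ι : ℝ) ≤ 2 * Real.exp (η * (2 * J + 3 + 8 * J ^ 2) * M + (2 - 2 * σ + 3 * c) *
      (((1 / 2 + σ₀) * LQ + a₁ * M) / (σ₀ + 2 * σ - 1 - 2 * c) + r)) := by
  set e : ℝ := σ₀ + 2 * σ - 1 - 2 * c with he
  have he0 : 0 < e := by rw [he]; linarith
  set z : ℝ := ((1 / 2 + σ₀) * LQ + a₁ * M) / e with hz
  have hz0 : 0 ≤ z := by positivity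
  have hr : (0 : ℝ) < r := by exact_mod_cast hr0
  set j : ℕ := ⌈z / r⌉₊ with hj
  have hj1 : z / r ≤ j := Nat.le_ceil _
  have hjz : z ≤ ((j * r : ℕ) : ℝ) := by
    push_cast
    rwa [div_le_iff₀ hr] at hj1
  have hj2 : (j : ℝ) < z / r + 1 := Nat.ceil_lt_add_one (by positivity)
  have hjr : ((j * r : ℕ) : ℝ) ≤ z + r := by
    push_cast
    have h1 : (j : ℝ) * r ≤ (z / r + 1) * r := mul_le_mul_of_nonneg_right hj2.le hr.le
    have h2 : (z / r + 1) * r = z + r := by field_simp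
    linarith
  have hjJ : j ≤ J := Nat.ceil_le.2 hrJ
  obtain ⟨b', hb'M, hb'S, hb'H⟩ := hPow X w L 2 (blk L cf x y Y r) r (r + 1) (blk_maj hcf x y Y r)
    (blk_supp L cf x y Y r) j
  set V₀ : ℝ := 1 / (4 * ((⌊Y⌋₊ : ℝ) + 1)) with hV₀
  have hV₀0 : 0 < V₀ := by positivity
  have hV₀e : Real.exp (-(η * M)) ≤ V₀ := by
    rw [hV₀, Real.exp_neg, one_div]
    exact inv_anti₀ (by positivity) hY
  have hVj : Real.exp (-(η * J * M)) ≤ V₀ ^ j := by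
    have h1 := pow_le_pow_left₀ (Real.exp_pos _).le hV₀e j
    rw [← Real.exp_nat_mul] at h1
    refine le_trans (Real.exp_le_exp.2 ?_) h1
    have h2 : (j : ℝ) ≤ J := by exact_mod_cast hjJ
    have h3 : 0 ≤ η * M := by positivity
    nlinarith
  have hPh : ∀ f, V₀ ^ j ≤ ‖Ph L b' (u f) (s f)‖ := by
    intro f
    have h1 := (hb'H (u f) (s f) (cut_summ hL (hsuw f) (blk_maj hcf x y Y r) (blk_supp L cf x y Y r) (s f))).tsum_eq
    have h2 : Ph L b' (u f) (s f) = Ph L (blk L cf x y Y r) (u f) (s f) ^ j := h1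
    rw [h2, norm_pow]
    exact pow_le_pow_left₀ hV₀0.le (hlarge f) j
  have hS' : Supp L b' ((j * r : ℕ) : ℝ) (((j * r : ℕ) : ℝ) + (j : ℝ)) := by
    intro l hl
    have h1 := hb'S l hl
    push_cast
    constructor
    · exact h1.1
    · have : (j : ℝ) * (r + 1) = j * r + j := by ring
      rw [← this]
      exact h1.2
  have hmain := hBlk X ι u L s F w (j * 2) b' (j * r) j σ (Real.exp (2 * η * M)) (Real.exp (2 * η * M))
    (Real.exp ((1 / 2 + σ₀) * LQ + 2 * η * M)) (V₀ ^ j) hL hσ hs1 hs2 hsu hD hsw hD' hF (Real.exp_pos _).le hFb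
    hb'M (by omega) hS' hjJ (by positivity) (Real.exp_pos _).le hPh
  have hfin := real_block (J := J) (a' := j * r) (σ := σ) (σ₀ := σ₀) (c := c) (η := η) (M := M) (LQ := LQ)
    (R := (Fintype.card ι : ℝ)) (Nat.cast_nonneg _) hVj hCbM h8 (by
      have h1 : e * z = (1 / 2 + σ₀) * LQ + a₁ * M := by
        rw [hz]
        field_simp
      have h2 : e * z ≤ e * ((j * r : ℕ) : ℝ) := mul_le_mul_of_nonneg_left hjz he0.le
      have h3 : η * (2 * J + 4 + 8 * J ^ 2) * M ≤ a₁ * M := mul_le_mul_of_nonneg_right hηJ hM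
      rw [← he]
      linarith) hmain
  refine hfin.trans ?_
  refine mul_le_mul_of_nonneg_left (Real.exp_le_exp.2 ?_) (by norm_num)
  have hneg : 0 ≤ 2 - 2 * σ + 3 * c := by linarith
  have := mul_le_mul_of_nonneg_left hjr hneg
  linarith

theorem core0 (hPow : S_POW) (hMo : S_MOLL) (hBl : S_BLOCK) (hDe : S_DETECT) (hL : S_LEFT) (hDi : S_DIAG)
    (K : Type) [Field K] [NumberField K] (n N n' N' N'' : ℕ) {σ₀ σ₁ τ : ℝ} (h0 : 0 < σ₀) (h1 : 0 < σ₁)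
    (hτ : 0 < τ) : ∃ E₀ : ℝ, 1 ≤ E₀ ∧
    ∀ (ι : Type) [Fintype ι] (S : ι → Finset (HeightOneSpectrum (𝓞 K)))
      (α : ι → HeightOneSpectrum (𝓞 K) → Fin n → ℂ) (u : ι → VX K → ℂ) (q : ι → ι → ℝ) (κ : ι → ι → Fin N → ℂ)
      (S' : Finset (HeightOneSpectrum (𝓞 K))) (α' : HeightOneSpectrum (𝓞 K) → Fin n' → ℂ) (w : VX K → ℂ) (q' : ℝ)
      (κ' : Fin N'' → ℂ) (qs : ι → ℝ) (μ : ι → Fin N' → ℂ) (L : ι → ℂ → ℂ),
      GLFamily n N S α u q κ → Twists n' N' N'' u S' α' w q' κ' qs μ L →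
      ∀ (ρ : ι → ℂ) (σ C Q Q' : ℝ), 1 / 2 ≤ σ → σ ≤ 1 → 1 ≤ C → 1 ≤ Q → q' * ∏ j, (1 + ‖κ' j‖) ≤ Q' →
        E₀ ≤ C * Q * Q' → (∀ f, L f (ρ f) = 0) → (∀ f, σ ≤ (ρ f).re) →
        (∀ f, qs f * ∏ j, (1 + ‖μ f j + (ρ f).im * I‖) ≤ C) →
        (∀ f g, q f g * ∏ j, (1 + ‖κ f g j + ((ρ f).im - (ρ g).im) * I‖) ≤ Q) →
        (Fintype.card ι : ℝ) ≤ (C * Q * Q') ^ τ *
          (Q ^ ((1 / 2 + σ₀) / (σ₀ + 2 * σ - 1)) * C ^ ((1 / 2 + σ₁) / (σ + σ₁))) ^ (2 - 2 * σ) := by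
  obtain ⟨c, a₁, a, hc0, hc1, hc2, ha₁0, ha₁1, ha2, hpar⟩ := params h0 h1 hτ
  set J : ℕ := ⌈(3 + 2 * σ₀) / (σ₀ * a₁)⌉₊ + 1 with hJ
  set η : ℝ := a₁ / (8 * J ^ 2 + 2 * J + 20) with hη
  have hη0 : 0 < η := by positivity
  have hηJ : η * (8 * J ^ 2 + 2 * J + 20) = a₁ := by
    rw [hη]
    field_simp
  have hJ0 : (0 : ℝ) ≤ J := Nat.cast_nonneg J
  have hη20 : 20 * η ≤ a₁ := by nlinarith [mul_nonneg hη0.le hJ0, mul_nonneg hη0.le (sq_nonneg (J : ℝ))]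
  have hηJ2 : η * (2 * J + 4 + 8 * J ^ 2) ≤ a₁ := by
    nlinarith [mul_nonneg hη0.le hJ0, mul_nonneg hη0.le (sq_nonneg (J : ℝ))]
  obtain ⟨K₁, hK₁, hdat⟩ := data hL hDi K n N n' N' N'' (σ₀ := σ₀) (σ₁ := σ₁) (c := c) (η := η) h0 h1 hc0 hη0
  obtain ⟨Cd, hCd0, hDet⟩ := hDe σ₁ c (N' * (1 / 2 + σ₁)) h1 hc0 hc1 (by positivity)
  obtain ⟨Cb, hCb0, hBlk⟩ := hBl σ₀ c (N * (1 / 2 + σ₀)) J h0 hc0 hc1 (by positivity)
  set A : ℝ := K₁ + Cd + Cb + 8 + Real.exp (2 * (1 + c + σ₁)) + Real.exp (a ^ 2) + (4 * (39 + 8 * σ₁) + 4) with hA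
  have hx1 := Real.exp_pos (2 * (1 + c + σ₁))
  have hx2 := Real.exp_pos (a ^ 2)
  obtain ⟨E₀, hE₀1, hE₀⟩ := absorb hη0 A
  refine ⟨E₀, hE₀1, ?_⟩
  intro ι _ S α u q κ S' α' w q' κ' qs μ L h hT ρ σ C Q Q' hσ hσ1 hC hQ hcQ' hGE hzero hre hcC hcQ
  have hC0 : 0 < C := by linarith
  have hQ0 : 0 < Q := by linarith
  have hQ'1 : 1 ≤ Q' := by
    have h2 := one_le_cond (κ := κ') hT.self.one_le 0
    simp only [add_zero] at h2
    linarith
  set G : ℝ := C * Q * Q' with hG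
  have hCQ1 : 1 ≤ C * Q := by nlinarith
  have hQG : Q ≤ G := by
    rw [hG]
    have : Q ≤ C * Q := by nlinarith
    nlinarith
  have hCG : C ≤ G := by
    rw [hG]
    have : C ≤ C * Q := by nlinarith
    nlinarith
  have hG1 : 1 ≤ G := by linarith
  have hG0 : 0 < G := by linarith
  set M : ℝ := Real.log G with hM
  set LC : ℝ := Real.log C with hLC
  set LQ : ℝ := Real.log Q with hLQ
  have hM0 : 0 ≤ M := Real.log_nonneg hG1
  have hLC0 : 0 ≤ LC := Real.log_nonneg hC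
  have hLQ0 : 0 ≤ LQ := Real.log_nonneg hQ
  have hLCM : LC ≤ M := Real.log_le_log hC0 hCG
  have hLQM : LQ ≤ M := Real.log_le_log hQ0 hQG
  obtain ⟨hAM, hAM1⟩ := hE₀ G hGE
  have hAle : ∀ B : ℝ, B ≤ A → B ≤ Real.exp (η * M) := fun B hB => hB.trans hAM
  have hKM : K₁ ≤ Real.exp (η * M) := hAle _ (by rw [hA]; linarith)
  have hCdM : Cd ≤ Real.exp (η * M) := hAle _ (by rw [hA]; linarith)
  have hCbM : Cb ≤ Real.exp (η * M) := hAle _ (by rw [hA]; linarith)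
  have h8M : 8 ≤ Real.exp (η * M) := hAle _ (by rw [hA]; linarith)
  have he1M : Real.exp (2 * (1 + c + σ₁)) ≤ Real.exp (η * M) := hAle _ (by rw [hA]; linarith)
  have he2M : Real.exp (a ^ 2) ≤ Real.exp (η * M) := hAle _ (by rw [hA]; linarith)
  have hGη : G ^ η = Real.exp (η * M) := by
    rw [Real.rpow_def_of_pos hG0, mul_comm]
  obtain ⟨hpy, hpY, hpz, hpfin⟩ := hpar σ M LC LQ hσ hσ1 hLC0 hLCM hLQ0 hLQM
  set y : ℝ := ((1 / 2 + σ₁) * LC + a₁ * (9 + σ₁) * M) / (σ + σ₁) with hy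
  set Y : ℝ := (a * y + a₁ * M) / (a - 1) with hY
  set z : ℝ := ((1 / 2 + σ₀) * LQ + a₁ * M) / (σ₀ + 2 * σ - 1 - 2 * c) with hz
  set x : ℝ := 2 + a₁ * M with hx
  have hx0 : 0 ≤ x := by positivity
  have hy0 : 0 ≤ y := by positivity
  have hY0 : 0 ≤ Y := div_nonneg (by positivity) (by linarith)
  -- the data
  obtain ⟨hD1, hDw, ⟨F, hF⟩, hLf⟩ := hdat ι S α u q κ S' α' w q' κ' qs μ L h hT (fun f => (ρ f).im) C Q Q' hC hQ
    hcQ' hcC hcQ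
  have hKG : K₁ * G ^ η ≤ Real.exp (2 * η * M) := by
    rw [hGη]
    calc K₁ * Real.exp (η * M) ≤ Real.exp (η * M) * Real.exp (η * M) :=
          mul_le_mul_of_nonneg_right hKM (Real.exp_pos _).le
      _ = _ := by rw [← Real.exp_add]; congr 1; ring
  have hwsum : Summable fun x => ‖w x‖ ^ 2 * Real.exp (-((1 + c) * LV x)) := hT.rep.summable _ (by linarith)
  have hwsum2 : Summable fun x => ‖w x‖ ^ 2 * Real.exp (-((1 + 2 * c) * LV x)) := hT.rep.summable _ (by linarith)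
  have husum : ∀ f, Summable fun x => ‖u f x‖ ^ 2 * Real.exp (-((1 + c) * LV x)) := fun f =>
    (h.rep f).summable _ (by linarith)
  have hD' : Real.exp (∑' x : VX K, ‖w x‖ ^ 2 * Real.exp (-((1 + 2 * c) * LV x))) ≤ Real.exp (2 * η * M) := by
    refine le_trans (Real.exp_le_exp.2 (hwsum2.tsum_le_tsum (fun v => ?_) hwsum)) (hDw.trans hKG)
    refine mul_le_mul_of_nonneg_left (Real.exp_le_exp.2 ?_) (by positivity)
    have := LV_nonneg v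
    nlinarith
  have huw : ∀ f, Summable fun v => ‖u f v‖ * ‖w v‖ * Real.exp (-((1 + c) * LV v)) := fun f =>
    summ_cs (husum f) hwsum
  have hDuw : ∀ f, Real.exp (∑' v : VX K, ‖u f v‖ * ‖w v‖ * Real.exp (-((1 + c) * LV v))) ≤
      Real.exp (2 * η * M) := by
    intro f
    have h2 : ∑' v : VX K, ‖u f v‖ * ‖w v‖ * Real.exp (-((1 + c) * LV v)) ≤
        (∑' x : VX K, ‖u f x‖ ^ 2 * Real.exp (-((1 + c) * LV x))) / 2 +
          (∑' x : VX K, ‖w x‖ ^ 2 * Real.exp (-((1 + c) * LV x))) / 2 := by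
      rw [← tsum_div_const, ← tsum_div_const, ← ((husum f).div_const 2).tsum_add (hwsum.div_const 2)]
      refine (huw f).tsum_le_tsum (fun v => ?_) (((husum f).div_const 2).add (hwsum.div_const 2))
      have h3 : 0 < Real.exp (-((1 + c) * LV v)) := Real.exp_pos _
      have h4 := sq_nonneg (‖u f v‖ - ‖w v‖)
      nlinarith
    exact (Real.exp_le_exp.2 h2).trans (half_exp ((hD1 f).trans hKG) (hDw.trans hKG))
  have hre1 : ∀ f, (ρ f).re ≤ 1 := by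
    intro f
    by_contra hlt
    push Not at hlt
    have h2 := hT.eq f (ρ f) hlt
    rw [hzero f] at h2
    exact Complex.exp_ne_zero _ h2.symm
  have hFb : ∀ f g, f ≠ g → ∀ v : ℝ, ‖F f g (((-σ₀ : ℝ) : ℂ) + (((ρ f).im - (ρ g).im) + v : ℝ) * I)‖ ≤
      Real.exp ((1 / 2 + σ₀) * LQ + 2 * η * M) * (1 + |v|) ^ (N * (1 / 2 + σ₀)) := by
    intro f g hfg v
    refine ((hF f g hfg).2 v).trans (mul_le_mul_of_nonneg_right ?_ (by positivity))
    have h2 : Q ^ (1 / 2 + σ₀) = Real.exp ((1 / 2 + σ₀) * LQ) := by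
      rw [Real.rpow_def_of_pos hQ0, mul_comm]
    rw [Real.exp_add, ← h2]
    calc _ = Q ^ (1 / 2 + σ₀) * (K₁ * G ^ η) := by ring
      _ ≤ _ := mul_le_mul_of_nonneg_left hKG (by positivity)
  have hLb : ∀ f, ∀ v : ℝ, ‖L f (((-σ₁ : ℝ) : ℂ) + ((ρ f).im + v : ℝ) * I)‖ ≤
      Real.exp ((1 / 2 + σ₁) * LC + 2 * η * M) * (1 + |v|) ^ (N' * (1 / 2 + σ₁)) := by
    intro f v
    refine ((hLf f).2 v).trans (mul_le_mul_of_nonneg_right ?_ (by positivity))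
    have h2 : C ^ (1 / 2 + σ₁) = Real.exp ((1 / 2 + σ₁) * LC) := by
      rw [Real.rpow_def_of_pos hC0, mul_comm]
    rw [Real.exp_add, ← h2]
    calc _ = C ^ (1 / 2 + σ₁) * (K₁ * G ^ η) := by ring
      _ ≤ _ := mul_le_mul_of_nonneg_left hKG (by positivity)
  -- detection
  have hinv8 : Real.exp (-(η * M)) ≤ 1 / 8 := by
    rw [Real.exp_neg, one_div]
    exact inv_anti₀ (by norm_num) h8M
  have hηa : η * M * 20 ≤ a₁ * M := by nlinarith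
  have hi : Cd * Real.exp ((1 / 2 + σ₁) * LC + 2 * η * M) * Real.exp (2 * η * M) *
      Real.exp ((1 + c + σ₁) * x) * Real.exp (-((σ₁ + σ) * y)) ≤ 1 / 8 := by
    have h2 : (σ₁ + σ) * y = (1 / 2 + σ₁) * LC + a₁ * (9 + σ₁) * M := by
      rw [hy]
      field_simp
      ring
    have h3 : Real.exp ((1 + c + σ₁) * x) = Real.exp (2 * (1 + c + σ₁)) * Real.exp ((1 + c + σ₁) * (a₁ * M)) := by
      rw [← Real.exp_add, hx]
      congr 1
      ring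
    rw [h2, h3]
    refine le_trans ?_ hinv8
    calc _ ≤ Real.exp (η * M) * Real.exp ((1 / 2 + σ₁) * LC + 2 * η * M) * Real.exp (2 * η * M) *
          (Real.exp (η * M) * Real.exp ((1 + c + σ₁) * (a₁ * M))) *
          Real.exp (-((1 / 2 + σ₁) * LC + a₁ * (9 + σ₁) * M)) := by
          refine mul_le_mul_of_nonneg_right ?_ (Real.exp_pos _).le
          refine mul_le_mul ?_ (mul_le_mul_of_nonneg_right he1M (Real.exp_pos _).le) (by positivity)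
            (by positivity)
          exact mul_le_mul_of_nonneg_right (mul_le_mul_of_nonneg_right hCdM (Real.exp_pos _).le)
            (Real.exp_pos _).le
      _ = Real.exp (η * M + ((1 / 2 + σ₁) * LC + 2 * η * M) + 2 * η * M + (η * M + (1 + c + σ₁) * (a₁ * M)) +
          -((1 / 2 + σ₁) * LC + a₁ * (9 + σ₁) * M)) := by
          rw [← Real.exp_add, ← Real.exp_add, ← Real.exp_add, ← Real.exp_add, ← Real.exp_add]
      _ ≤ _ := by
          refine Real.exp_le_exp.2 ?_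
          have h5 : 0 ≤ a₁ * M := by positivity
          have h6 : c * (a₁ * M) ≤ 1 / 4 * (a₁ * M) := mul_le_mul_of_nonneg_right hc1 h5
          nlinarith
  have hii : Real.exp (2 * η * M) ^ 2 * Real.exp (a ^ 2 + a * y - (a - 1) * Y) ≤ 1 / 8 := by
    have h2 : (a - 1) * Y = a * y + a₁ * M := by
      rw [hY]
      have : a - 1 ≠ 0 := by linarith
      field_simp
    rw [h2, show a ^ 2 + a * y - (a * y + a₁ * M) = a ^ 2 + -(a₁ * M) by ring, Real.exp_add, ← Real.exp_nat_mul]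
    refine le_trans ?_ hinv8
    calc _ ≤ Real.exp ((2 : ℕ) * (2 * η * M)) * (Real.exp (η * M) * Real.exp (-(a₁ * M))) := by
          refine mul_le_mul_of_nonneg_left ?_ (Real.exp_pos _).le
          exact mul_le_mul_of_nonneg_right he2M (Real.exp_pos _).le
      _ = Real.exp ((2 : ℕ) * (2 * η * M) + (η * M + -(a₁ * M))) := by
          rw [Real.exp_add, Real.exp_add (η * M)]
      _ ≤ _ := by
          refine Real.exp_le_exp.2 ?_
          push_cast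
          nlinarith [mul_nonneg hη0.le hM0]
  obtain ⟨cf, hcM, hc1', hc0', hcH⟩ := hMo (VX K) w LV x LV_nonneg hx0
  have hdet : ∀ f, 1 / 4 ≤ ‖∑' l : TT (VX K), if x < Lam LV l ∧ Lam LV l ≤ Y then
      Uc (u f) l * (cf l * VV (y - Lam LV l)) * cexp (-(ρ f * Lam LV l)) else 0‖ := by
    intro f
    exact hDet (VX K) (u f) w LV (L f) cf (ρ f) σ (Real.exp ((1 / 2 + σ₁) * LC + 2 * η * M)) x y Y
      (Real.exp (2 * η * M)) a LV_nonneg (hLf f).1 (hzero f) hσ (hre f) (hre1 f) (huw f) (hDuw f) hx0 hy0 ha2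
      (Real.exp_pos _).le (hLb f) hcM hc1' hc0' (fun s hs => hcH (u f) s hs) hi hii
  have hpig := fun f => pig (u := u f) (L := LV) LV_nonneg hx0 (huw f) hcM (hdet f)
  choose rr hrr1 hrr2 using hpig
  -- the number of blocks
  have hfl : 4 * ((⌊Y⌋₊ : ℝ) + 1) ≤ Real.exp (η * M) := by
    refine le_trans ?_ hAM1
    have h2 := Nat.floor_le hY0
    have h3 : (4 * (39 + 8 * σ₁) + 4) * (M + 1) ≤ A * (M + 1) :=
      mul_le_mul_of_nonneg_right (by rw [hA]; linarith) (by linarith)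
    refine le_trans ?_ h3
    have h4 : 4 * (⌊Y⌋₊ : ℝ) ≤ 4 * ((39 + 8 * σ₁) * M) := by linarith
    nlinarith [mul_nonneg h1.le hM0]
  -- each block
  have hblock : ∀ r ∈ Finset.Ico ⌊x⌋₊ (⌊Y⌋₊ + 1), (((Finset.univ.filter fun f => rr f = r).card : ℕ) : ℝ) ≤
      2 * Real.exp (η * (2 * J + 3 + 8 * J ^ 2) * M + (2 - 2 * σ + 3 * c) * (z + Y)) := by
    intro r hr
    rw [Finset.mem_Ico] at hr
    have hr1 : x - 1 ≤ (r : ℝ) := by
      have h2 := Nat.sub_one_lt_floor x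
      have h3 : (⌊x⌋₊ : ℝ) ≤ r := by exact_mod_cast hr.1
      linarith
    have hr2 : (r : ℝ) ≤ Y := by
      have h2 : r ≤ ⌊Y⌋₊ := by omega
      have h3 : (r : ℝ) ≤ (⌊Y⌋₊ : ℝ) := by exact_mod_cast h2
      exact h3.trans (Nat.floor_le hY0)
    have hr3 : 1 + a₁ * M ≤ (r : ℝ) := by
      rw [hx] at hr1
      linarith
    have hrpos : (0 : ℝ) < r := by
      have : 0 ≤ a₁ * M := by positivity
      linarith
    have hr0 : 0 < r := by exact_mod_cast hrpos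
    have hrJ : z / r ≤ J := by
      rw [div_le_iff₀ hrpos]
      have h2 : (3 + 2 * σ₀) / (σ₀ * a₁) ≤ J := by
        refine (Nat.le_ceil _).trans ?_
        rw [hJ]
        push_cast
        linarith
      have h3 : (3 + 2 * σ₀) / σ₀ * M = (3 + 2 * σ₀) / (σ₀ * a₁) * (a₁ * M) := by
        field_simp
      have h4 : (3 + 2 * σ₀) / (σ₀ * a₁) * (a₁ * M) ≤ J * (a₁ * M) :=
        mul_le_mul_of_nonneg_right h2 (by positivity)
      have h5 : (J : ℝ) * (a₁ * M) ≤ J * r := mul_le_mul_of_nonneg_left (by linarith) hJ0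
      linarith
    have hcard : (((Finset.univ.filter fun f => rr f = r).card : ℕ) : ℝ) =
        (Fintype.card {f // rr f = r} : ℝ) := by
      rw [Fintype.card_subtype]
    rw [hcard]
    have h2 := one_block hPow h0 hc0 hc2 hη0 hηJ2 ha₁0 hBlk (X := VX K) (ι := {f // rr f = r})
      (u := fun f => u f.1) (L := LV) (s := fun f => ρ f.1) (F := fun f g => F f.1 g.1) (w := w) (cf := cf)
      (σ := σ) (M := M) (LQ := LQ) (x := x) (y := y) (Y := Y) (r := r) LV_nonneg hσ hσ1 hM0 hLQ0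
      (fun f => hre f.1) (fun f => hre1 f.1) (fun f => husum f.1) (fun f => (hD1 f.1).trans hKG) hwsum2 hD'
      (fun f => huw f.1) (fun f g hfg => (hF f.1 g.1 fun h' => hfg (Subtype.ext h')).1)
      (fun f g hfg => hFb f.1 g.1 fun h' => hfg (Subtype.ext h')) hcM hCbM h8M hr0 hrJ hfl
      (fun f => by
        have := hrr2 f.1
        rw [f.2] at this
        exact this)
    refine h2.trans ?_
    refine mul_le_mul_of_nonneg_left (Real.exp_le_exp.2 ?_) (by norm_num)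
    have hneg : 0 ≤ 2 - 2 * σ + 3 * c := by linarith
    have := mul_le_mul_of_nonneg_left (add_le_add_right hr2 z) hneg
    linarith
  -- summation over the blocks
  have hcount : (Fintype.card ι : ℝ) ≤ ∑ r ∈ Finset.Ico ⌊x⌋₊ (⌊Y⌋₊ + 1),
      (((Finset.univ.filter fun f => rr f = r).card : ℕ) : ℝ) := by
    have h2 : Fintype.card ι = ∑ r ∈ Finset.Ico ⌊x⌋₊ (⌊Y⌋₊ + 1), (Finset.univ.filter fun f => rr f = r).card := by
      rw [← Finset.card_univ]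
      exact Finset.card_eq_sum_card_fiberwise fun f _ => hrr1 f
    rw [h2]
    push_cast
    exact le_rfl
  refine hcount.trans ((Finset.sum_le_sum hblock).trans ?_)
  rw [Finset.sum_const, Nat.card_Ico, nsmul_eq_mul]
  have h6 : (((⌊Y⌋₊ + 1 - ⌊x⌋₊ : ℕ)) : ℝ) ≤ (⌊Y⌋₊ : ℝ) + 1 := by
    have : (⌊Y⌋₊ + 1 - ⌊x⌋₊ : ℕ) ≤ ⌊Y⌋₊ + 1 := Nat.sub_le _ _
    exact_mod_cast this
  have h7 : (0 : ℝ) ≤ (⌊Y⌋₊ : ℝ) + 1 := by positivity
  have hrhs : G ^ τ * (Q ^ ((1 / 2 + σ₀) / (σ₀ + 2 * σ - 1)) * C ^ ((1 / 2 + σ₁) / (σ + σ₁))) ^ (2 - 2 * σ) =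
      Real.exp (τ * M + (2 - 2 * σ) * ((1 / 2 + σ₀) / (σ₀ + 2 * σ - 1) * LQ + (1 / 2 + σ₁) / (σ + σ₁) * LC)) := by
    have e1 : Q ^ ((1 / 2 + σ₀) / (σ₀ + 2 * σ - 1)) * C ^ ((1 / 2 + σ₁) / (σ + σ₁)) =
        Real.exp ((1 / 2 + σ₀) / (σ₀ + 2 * σ - 1) * LQ + (1 / 2 + σ₁) / (σ + σ₁) * LC) := by
      rw [Real.rpow_def_of_pos hQ0, Real.rpow_def_of_pos hC0, ← Real.exp_add]
      congr 1
      ring
    rw [e1, Real.rpow_def_of_pos hG0, Real.rpow_def_of_pos (Real.exp_pos _), Real.log_exp, ← Real.exp_add]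
    congr 1
    ring
  rw [hrhs]
  calc _ ≤ ((⌊Y⌋₊ : ℝ) + 1) * (2 * Real.exp (η * (2 * J + 3 + 8 * J ^ 2) * M + (2 - 2 * σ + 3 * c) * (z + Y))) :=
        mul_le_mul_of_nonneg_right h6 (by positivity)
    _ ≤ Real.exp (η * M) * Real.exp (η * (2 * J + 3 + 8 * J ^ 2) * M + (2 - 2 * σ + 3 * c) * (z + Y)) := by
        rw [← mul_assoc]
        refine mul_le_mul_of_nonneg_right ?_ (Real.exp_pos _).le
        linarith
    _ ≤ _ := by
        rw [← Real.exp_add]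
        refine Real.exp_le_exp.2 ?_
        have h9 : η * (2 * J + 4 + 8 * J ^ 2) * M ≤ a₁ * M := mul_le_mul_of_nonneg_right hηJ2 hM0
        have h10 : 0 ≤ a₁ * M := by positivity
        linarith

end Pool.Agent.N846.ZD
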