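import Pool.Agent.N846.ZD.Stm2

set_option autoImplicit false

/-! # Task CVX (project ZD+, helper846): convexity bound on a vertical strip (helper402) -/

namespace Pool.Agent.N846.ZD.Cv402

open Complex Set Filter Topology

/-- `(1 + u) ^ A exp (-u ^ 2)` is bounded -/
theorem rpow_exp_le {A u : ℝ} (hA : 0 ≤ A) (hu : 0 ≤ u) :
    (1 + u) ^ A * Real.exp (-u ^ 2) ≤ Real.exp (A ^ 2 / 4) := by
  have h1 : (1 + u) ^ A ≤ Real.exp (A * u) := by
    rw [Real.rpow_def_of_pos (by linarith)]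
    apply Real.exp_le_exp.2
    have h2 := Real.log_le_sub_one_of_pos (by linarith : (0 : ℝ) < 1 + u)
    have h3 : Real.log (1 + u) ≤ u := by linarith
    calc Real.log (1 + u) * A ≤ u * A := mul_le_mul_of_nonneg_right h3 hA
      _ = A * u := mul_comm _ _
  calc (1 + u) ^ A * Real.exp (-u ^ 2) ≤ Real.exp (A * u) * Real.exp (-u ^ 2) :=
        mul_le_mul_of_nonneg_right h1 (Real.exp_pos _).le
    _ = Real.exp (A * u + -u ^ 2) := (Real.exp_add _ _).symm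
    _ ≤ Real.exp (A ^ 2 / 4) := by
      apply Real.exp_le_exp.2
      nlinarith [sq_nonneg (u - A / 2)]

theorem exp_split (x y : ℝ) : Real.exp (x ^ 2 - y ^ 2) = Real.exp (x ^ 2) * Real.exp (-y ^ 2) := by
  rw [← Real.exp_add]
  congr 1

theorem norm_g (t : ℝ) (s : ℂ) : ‖Complex.exp ((s - (t : ℂ) * I) ^ 2)‖ = Real.exp (s.re ^ 2 - (s.im - t) ^ 2) := by
  rw [Complex.norm_exp]
  congr 1
  rw [pow_two, Complex.mul_re]
  simp
  ring

theorem main {σ₁ c A : ℝ} (hσ : 0 < σ₁) (hc : 0 < c) (hA : 0 ≤ A) {F : ℂ → ℂ} {t B D : ℝ}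
    (hF : Differentiable ℂ F)
    (hg : ∀ a b : ℝ, ∃ C' A' : ℝ, ∀ s : ℂ, a ≤ s.re → s.re ≤ b → ‖F s‖ ≤ C' * (1 + |s.im|) ^ A')
    (hB : 1 ≤ B) (hD : 1 ≤ D) (h1 : ∀ v : ℝ, ‖F (((-σ₁ : ℝ) : ℂ) + (t + v : ℝ) * I)‖ ≤ B * (1 + |v|) ^ A)
    (h2 : ∀ v : ℝ, ‖F (((1 + c : ℝ) : ℂ) + (t + v : ℝ) * I)‖ ≤ D) (s : ℂ) (hs1 : -σ₁ ≤ s.re)
    (hs2 : s.re ≤ 1 + c) (hs3 : |s.im - t| ≤ 2) :
    ‖F s‖ ≤ Real.exp 4 * (Real.exp (σ₁ ^ 2 + A ^ 2 / 4) * Real.exp ((1 + c) ^ 2)) * (B * D) := by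
  set C1 := Real.exp (σ₁ ^ 2 + A ^ 2 / 4) with hC1
  set C2 := Real.exp ((1 + c) ^ 2) with hC2
  have hC11 : 1 ≤ C1 := Real.one_le_exp (by positivity)
  have hC21 : 1 ≤ C2 := Real.one_le_exp (by positivity)
  have hv : ∀ z : ℂ, z = ((z.re : ℝ) : ℂ) + ((t + (z.im - t) : ℝ) : ℂ) * I := by
    intro z
    rw [add_sub_cancel]
    exact (Complex.re_add_im z).symm
  -- the bounds on the lines
  have hl : ∀ z : ℂ, z.re = -σ₁ → ‖F z * Complex.exp ((z - (t : ℂ) * I) ^ 2)‖ ≤ C1 * C2 * (B * D) := by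
    intro z hz
    rw [norm_mul, norm_g, hz]
    have h3 := h1 (z.im - t)
    rw [← hz, ← hv z] at h3
    have h4 := rpow_exp_le hA (abs_nonneg (z.im - t))
    rw [sq_abs] at h4
    calc ‖F z‖ * Real.exp ((-σ₁) ^ 2 - (z.im - t) ^ 2) ≤
        (B * (1 + |z.im - t|) ^ A) * Real.exp ((-σ₁) ^ 2 - (z.im - t) ^ 2) :=
          mul_le_mul_of_nonneg_right h3 (Real.exp_pos _).le
      _ = B * Real.exp (σ₁ ^ 2) * ((1 + |z.im - t|) ^ A * Real.exp (-(z.im - t) ^ 2)) := by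
        rw [neg_sq, exp_split]
        ring
      _ ≤ B * Real.exp (σ₁ ^ 2) * Real.exp (A ^ 2 / 4) :=
        mul_le_mul_of_nonneg_left h4 (by positivity)
      _ = C1 * 1 * (B * 1) := by
        rw [hC1, Real.exp_add]
        ring
      _ ≤ C1 * C2 * (B * D) := by gcongr
  have hr : ∀ z : ℂ, z.re = 1 + c → ‖F z * Complex.exp ((z - (t : ℂ) * I) ^ 2)‖ ≤ C1 * C2 * (B * D) := by
    intro z hz
    rw [norm_mul, norm_g, hz]
    have h3 := h2 (z.im - t)
    rw [← hz, ← hv z] at h3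
    calc ‖F z‖ * Real.exp ((1 + c) ^ 2 - (z.im - t) ^ 2) ≤ D * Real.exp ((1 + c) ^ 2 - 0) := by
          apply mul_le_mul h3 _ (Real.exp_pos _).le (by linarith)
          apply Real.exp_le_exp.2
          have := sq_nonneg (z.im - t)
          linarith
      _ = 1 * C2 * (1 * D) := by
        rw [sub_zero]
        ring
      _ ≤ C1 * C2 * (B * D) := by gcongr
  -- the growth
  have hab : (0 : ℝ) < (1 + c) - (-σ₁) := by linarith
  obtain ⟨C', A', hgr⟩ := hg (-σ₁) (1 + c)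
  set A2 := max A' 0 with hA2
  have hA20 : 0 ≤ A2 := le_max_right _ _
  set M := |C'| * (1 + |t|) ^ A2 * Real.exp (A2 ^ 2 / 4) * Real.exp ((1 + c + σ₁) ^ 2) with hM
  have hbd : ∀ z : ℂ, z ∈ (re ⁻¹' Ioo (-σ₁) (1 + c)) →
      ‖F z * Complex.exp ((z - (t : ℂ) * I) ^ 2)‖ ≤ M := by
    intro z hz
    have hz1 : -σ₁ < z.re := hz.1
    have hz2 : z.re < 1 + c := hz.2
    rw [norm_mul, norm_g]
    have h3 : ‖F z‖ ≤ |C'| * (1 + |z.im|) ^ A2 := by
      refine (hgr z hz1.le hz2.le).trans ?_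
      apply mul_le_mul (le_abs_self _) _ (by positivity) (abs_nonneg _)
      exact Real.rpow_le_rpow_of_exponent_le (by linarith [abs_nonneg z.im]) (le_max_left _ _)
    have h4 : (1 + |z.im|) ^ A2 ≤ (1 + |t|) ^ A2 * (1 + |z.im - t|) ^ A2 := by
      rw [← Real.mul_rpow (by positivity) (by positivity)]
      apply Real.rpow_le_rpow (by positivity) _ hA20
      have h5 : |z.im| ≤ |t| + |z.im - t| := by
        have := abs_add_le t (z.im - t)
        rwa [add_sub_cancel] at this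
      nlinarith [abs_nonneg t, abs_nonneg (z.im - t), mul_nonneg (abs_nonneg t) (abs_nonneg (z.im - t))]
    have h6 := rpow_exp_le hA20 (abs_nonneg (z.im - t))
    rw [sq_abs] at h6
    have h7 : z.re ^ 2 ≤ (1 + c + σ₁) ^ 2 := by
      apply sq_le_sq'
      · linarith
      · linarith
    calc ‖F z‖ * Real.exp (z.re ^ 2 - (z.im - t) ^ 2) ≤
        (|C'| * ((1 + |t|) ^ A2 * (1 + |z.im - t|) ^ A2)) * Real.exp (z.re ^ 2 - (z.im - t) ^ 2) :=
          mul_le_mul_of_nonneg_right (h3.trans (mul_le_mul_of_nonneg_left h4 (abs_nonneg _))) (Real.exp_pos _).le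
      _ = |C'| * (1 + |t|) ^ A2 * ((1 + |z.im - t|) ^ A2 * Real.exp (-(z.im - t) ^ 2)) * Real.exp (z.re ^ 2) := by
        rw [exp_split]
        ring
      _ ≤ |C'| * (1 + |t|) ^ A2 * Real.exp (A2 ^ 2 / 4) * Real.exp ((1 + c + σ₁) ^ 2) := by
        apply mul_le_mul _ (Real.exp_le_exp.2 h7) (Real.exp_pos _).le (by positivity)
        exact mul_le_mul_of_nonneg_left h6 (by positivity)
      _ = M := rfl
  have hdiff : Differentiable ℂ (fun z : ℂ => F z * Complex.exp ((z - (t : ℂ) * I) ^ 2)) := by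
    fun_prop
  have hPL := PhragmenLindelof.vertical_strip (a := -σ₁) (b := 1 + c) (C := C1 * C2 * (B * D))
    (f := fun z : ℂ => F z * Complex.exp ((z - (t : ℂ) * I) ^ 2)) hdiff.diffContOnCl
    ⟨0, div_pos Real.pi_pos hab, 0, by
      apply Asymptotics.IsBigO.of_bound M
      rw [Filter.eventually_inf_principal]
      refine Filter.Eventually.of_forall fun z hz => ?_
      simp only [zero_mul, Real.exp_zero, norm_one, mul_one]
      exact hbd z hz⟩ (fun z hz => hl z hz) (fun z hz => hr z hz) (z := s) hs1 hs2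
  rw [norm_mul, norm_g] at hPL
  have h8 : Real.exp (-4) ≤ Real.exp (s.re ^ 2 - (s.im - t) ^ 2) := by
    apply Real.exp_le_exp.2
    have h9 : (s.im - t) ^ 2 ≤ 2 ^ 2 := by
      rw [← sq_abs (s.im - t)]
      exact pow_le_pow_left₀ (abs_nonneg _) hs3 2
    nlinarith [sq_nonneg s.re]
  have h9 : ‖F s‖ * Real.exp (-4) ≤ C1 * C2 * (B * D) :=
    (mul_le_mul_of_nonneg_left h8 (norm_nonneg _)).trans hPL
  have h10 : Real.exp 4 * Real.exp (-4) = 1 := by
    rw [← Real.exp_add]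
    simp
  calc ‖F s‖ = Real.exp 4 * (‖F s‖ * Real.exp (-4)) := by
        linear_combination (-‖F s‖) * h10
    _ ≤ Real.exp 4 * (C1 * C2 * (B * D)) := mul_le_mul_of_nonneg_left h9 (Real.exp_pos _).le
    _ = _ := by ring

end Pool.Agent.N846.ZD.Cv402

namespace Pool.Agent.N846.ZD

/-- **CVX** -/
theorem cvx : S_CVX := by
  intro σ₁ c A hσ hc hA
  refine ⟨Real.exp 4 * (Real.exp (σ₁ ^ 2 + A ^ 2 / 4) * Real.exp ((1 + c) ^ 2)), ?_, ?_⟩
  · have h1 : 1 ≤ Real.exp 4 := Real.one_le_exp (by norm_num)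
    have h2 : 1 ≤ Real.exp (σ₁ ^ 2 + A ^ 2 / 4) := Real.one_le_exp (by positivity)
    have h3 : 1 ≤ Real.exp ((1 + c) ^ 2) := Real.one_le_exp (by positivity)
    nlinarith [mul_le_mul h2 h3 zero_le_one (by positivity)]
  · intro F t B D hF hg hB hD h1 h2 s hs1 hs2 hs3
    exact Cv402.main hσ hc hA hF hg hB hD h1 h2 s hs1 hs2 hs3

end Pool.Agent.N846.ZD
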