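import Pool.Agent.N846.ZD.Stm
import Pool.Agent.N846.LM.Main

/-! Zero density: the analytic data of a family. -/

set_option autoImplicit false

namespace Pool.Agent.N846.ZD

open Filter Topology Complex MeasureTheory Set NumberField IsDedekindDomain
open Pool.Agent.TH949.LT (TT Lam VV VV_nonneg VV_le)
open Pool.Agent.N846.DT (PairF co Uc co_abs summ_mono' summ_cs Lam_nonneg half_exp)
open Pool.Agent.N846.DU (VX LV logRS RS GLFamily Rep LV_nonneg one_le_cond shift_cond S_LEFT S_DIAG)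
open Pool.Agent.N846.LM (Twists)

theorem entire_eq {F G : ℂ → ℂ} (hF : Differentiable ℂ F) (hG : Differentiable ℂ G)
    (h : ∀ s : ℂ, 1 < s.re → F s = G s) : F = G := by
  have hev : F =ᶠ[𝓝 (3 : ℂ)] G := by
    have hopen : IsOpen {s : ℂ | 1 < s.re} := isOpen_lt continuous_const Complex.continuous_re
    filter_upwards [hopen.mem_nhds (show (3 : ℂ) ∈ {s : ℂ | 1 < s.re} by simp)] with s hs
    exact h s hs
  exact (hF.differentiableOn.analyticOnNhd isOpen_univ).eq_of_eventuallyEq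
    (hG.differentiableOn.analyticOnNhd isOpen_univ) hev

/-- the bounds which are used -/
theorem data (hL : S_LEFT) (hDi : S_DIAG) (K : Type) [Field K] [NumberField K] (n N n' N' N'' : ℕ)
    {σ₀ σ₁ c η : ℝ} (hσ : 0 < σ₀) (hσ₁ : 0 < σ₁) (hc : 0 < c) (hη : 0 < η) : ∃ A : ℝ, 1 ≤ A ∧
    ∀ (ι : Type) (S : ι → Finset (HeightOneSpectrum (𝓞 K)))
      (α : ι → HeightOneSpectrum (𝓞 K) → Fin n → ℂ) (u : ι → VX K → ℂ) (q : ι → ι → ℝ) (κ : ι → ι → Fin N → ℂ)
      (S' : Finset (HeightOneSpectrum (𝓞 K))) (α' : HeightOneSpectrum (𝓞 K) → Fin n' → ℂ) (w : VX K → ℂ) (q' : ℝ)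
      (κ' : Fin N'' → ℂ) (qs : ι → ℝ) (μ : ι → Fin N' → ℂ) (L : ι → ℂ → ℂ),
      GLFamily n N S α u q κ → Twists n' N' N'' u S' α' w q' κ' qs μ L →
      ∀ (t : ι → ℝ) (C Q Q' : ℝ), 1 ≤ C → 1 ≤ Q → q' * ∏ j, (1 + ‖κ' j‖) ≤ Q' →
        (∀ f, qs f * ∏ j, (1 + ‖μ f j + t f * I‖) ≤ C) →
        (∀ f g, q f g * ∏ j, (1 + ‖κ f g j + (t f - t g) * I‖) ≤ Q) →
        (∀ f, Real.exp (∑' x : VX K, ‖u f x‖ ^ 2 * Real.exp (-((1 + c) * LV x))) ≤ A * (C * Q * Q') ^ η) ∧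
        (Real.exp (∑' x : VX K, ‖w x‖ ^ 2 * Real.exp (-((1 + c) * LV x))) ≤ A * (C * Q * Q') ^ η) ∧
        (∃ F : ι → ι → ℂ → ℂ, ∀ f g, f ≠ g → PairF (u f) (u g) LV (F f g) ∧
          ∀ v : ℝ, ‖F f g (((-σ₀ : ℝ) : ℂ) + ((t f - t g) + v : ℝ) * I)‖ ≤
            (A * Q ^ (1 / 2 + σ₀) * (C * Q * Q') ^ η) * (1 + |v|) ^ (N * (1 / 2 + σ₀))) ∧
        ∀ f, PairF (u f) w LV (L f) ∧ ∀ v : ℝ, ‖L f (((-σ₁ : ℝ) : ℂ) + (t f + v : ℝ) * I)‖ ≤
            (A * C ^ (1 / 2 + σ₁) * (C * Q * Q') ^ η) * (1 + |v|) ^ (N' * (1 / 2 + σ₁)) := by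
  obtain ⟨CL, hCL0, hCL⟩ := hL N σ₀ hσ
  obtain ⟨CM, hCM0, hCM⟩ := hL N' σ₁ hσ₁
  obtain ⟨C1, hC10, hC1⟩ := hDi K n N c η hc hη
  obtain ⟨C2, hC20, hC2⟩ := hDi K n N σ₀ η hσ hη
  obtain ⟨C3, hC30, hC3⟩ := hDi K n' N'' c η hc hη
  obtain ⟨C4, hC40, hC4⟩ := hDi K n N σ₁ η hσ₁ hη
  obtain ⟨C5, hC50, hC5⟩ := hDi K n' N'' σ₁ η hσ₁ hη
  set A : ℝ := 1 + C1 + C3 + CL * C2 + CM * (C4 + C5) with hA
  have hp1 : 0 < CL * C2 := by positivity
  have hp2 : 0 < CM * (C4 + C5) := by positivity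
  refine ⟨A, by linarith, ?_⟩
  intro ι S α u q κ S' α' w q' κ' qs μ L h hT t C Q Q' hC hQ hcQ' hcC hcQ
  have hC0 : 0 < C := by linarith
  have hQ0 : 0 < Q := by linarith
  have hQ'1 : 1 ≤ Q' := by
    have h1 := one_le_cond (κ := κ') hT.self.one_le 0
    simp only [add_zero] at h1
    linarith
  have hQ'0 : 0 < Q' := by linarith
  set G : ℝ := C * Q * Q' with hG
  have hCQ1 : 1 ≤ C * Q := by nlinarith
  have hQG : Q ≤ G := by
    rw [hG]
    have : Q ≤ C * Q := by nlinarith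
    nlinarith
  have hCG : C ≤ G := by
    rw [hG]
    have : C ≤ C * Q := by nlinarith
    nlinarith
  have hQ'G : Q' ≤ G := by
    rw [hG]
    nlinarith
  have hG0 : 0 < G := by linarith
  have hq1 : ∀ f g, 1 ≤ q f g := by
    intro f g
    by_cases hfg : f = g
    · rw [hfg]
      exact (h.self g).one_le
    · exact (h.pair f g hfg).one_le
  have hpow : ∀ f, (q f f * ∏ j, (1 + ‖κ f f j‖)) ^ η ≤ G ^ η := by
    intro f
    have h1 := one_le_cond (κ := κ f f) (hq1 f f) 0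
    simp only [add_zero] at h1
    have h2 := hcQ f f
    simp only [sub_self, zero_mul, add_zero] at h2
    exact Real.rpow_le_rpow (by linarith) (h2.trans hQG) hη.le
  have hpow' : (q' * ∏ j, (1 + ‖κ' j‖)) ^ η ≤ G ^ η := by
    have h1 := one_le_cond (κ := κ') hT.self.one_le 0
    simp only [add_zero] at h1
    exact Real.rpow_le_rpow (by linarith) (hcQ'.trans hQ'G) hη.le
  have hGη : 0 < G ^ η := by positivity
  refine ⟨fun f => ?_, ?_, ?_, ?_⟩
  · refine (hC1 (S f) (α f) (u f) (q f f) (κ f f) (h.rep f) (h.self f)).trans ?_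
    exact mul_le_mul (by linarith) (hpow f) (by have := hq1 f f; positivity) (by linarith)
  · refine (hC3 S' α' w q' κ' hT.rep hT.self).trans ?_
    exact mul_le_mul (by linarith) hpow' (by have := hT.self.one_le; positivity) (by linarith)
  · have hD2 : ∀ f, Real.exp (∑' x : VX K, ‖u f x‖ ^ 2 * Real.exp (-((1 + σ₀) * LV x))) ≤ C2 * G ^ η := fun f =>
      (hC2 (S f) (α f) (u f) (q f f) (κ f f) (h.rep f) (h.self f)).trans
        (mul_le_mul_of_nonneg_left (hpow f) hC20.le)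
    have hpair := fun f g (hfg : f ≠ g) => hCL K (u f) (u g) (q f g) (κ f g) 0 (by norm_num) (h.pair f g hfg)
      (h.rep f).summable (h.rep g).summable
    choose! F hF1 hF2 hF3 hF4 hF5 using hpair
    refine ⟨F, fun f g hfg => ⟨⟨hF1 f g hfg, fun z hz => ?_, hF3 f g hfg⟩, fun v => ?_⟩⟩
    · rw [hF2 f g hfg z (by linarith), pow_zero, one_mul]
      rfl
    have h1 := hF5 f g hfg ((t f - t g) + v)
    simp only [pow_zero, mul_one] at h1
    have e1 : q f g * ∏ j, (1 + ‖κ f g j + (((t f - t g) + v : ℝ) : ℂ) * I‖) ≤ Q * (1 + |v|) ^ N := by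
      have h3 := shift_cond (κ := κ f g) (hq1 f g) (z := ((t f : ℂ) - t g) * I) (w := 0) (c := 0)
        (by simp) v
      rw [add_zero, one_pow, one_mul] at h3
      refine le_trans (le_of_eq ?_) (h3.trans (mul_le_mul_of_nonneg_right (hcQ f g) (by positivity)))
      congr 1
      refine Finset.prod_congr rfl fun j _ => ?_
      congr 2
      push_cast
      ring
    have h0 : 0 ≤ q f g * ∏ j, (1 + ‖κ f g j + (((t f - t g) + v : ℝ) : ℂ) * I‖) := by
      have := one_le_cond (κ := κ f g) (hq1 f g) ((((t f - t g) + v : ℝ) : ℂ) * I)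
      linarith
    have e4 : (q f g * ∏ j, (1 + ‖κ f g j + (((t f - t g) + v : ℝ) : ℂ) * I‖)) ^ (1 / 2 + σ₀) ≤
        Q ^ (1 / 2 + σ₀) * (1 + |v|) ^ (N * (1 / 2 + σ₀)) := by
      refine (Real.rpow_le_rpow h0 e1 (by linarith)).trans (le_of_eq ?_)
      rw [Real.mul_rpow hQ0.le (by positivity), ← Real.rpow_natCast (1 + |v|) N,
        ← Real.rpow_mul (by positivity)]
    have e5 : Real.exp ((∑' x : VX K, ‖u f x‖ ^ 2 * Real.exp (-((1 + σ₀) * LV x))) / 2 +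
        (∑' x : VX K, ‖u g x‖ ^ 2 * Real.exp (-((1 + σ₀) * LV x))) / 2) ≤ C2 * G ^ η :=
      half_exp (hD2 f) (hD2 g)
    calc _ ≤ CL * (Q ^ (1 / 2 + σ₀) * (1 + |v|) ^ (N * (1 / 2 + σ₀))) * (C2 * G ^ η) :=
          h1.trans (mul_le_mul (mul_le_mul_of_nonneg_left e4 hCL0.le) e5 (Real.exp_pos _).le (by positivity))
      _ = CL * C2 * (Q ^ (1 / 2 + σ₀) * (1 + |v|) ^ (N * (1 / 2 + σ₀)) * G ^ η) := by ring
      _ ≤ A * (Q ^ (1 / 2 + σ₀) * (1 + |v|) ^ (N * (1 / 2 + σ₀)) * G ^ η) :=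
          mul_le_mul_of_nonneg_right (by linarith) (by positivity)
      _ = _ := by ring
  · intro f
    obtain ⟨F, hF1, hF2, hF3, hF4, hF5⟩ := hCM K (u f) w (qs f) (μ f) 0 (by norm_num) (hT.rs f)
      (h.rep f).summable hT.rep.summable
    have hFL : L f = F := by
      refine entire_eq (hT.diff f) hF1 fun s hs => ?_
      rw [hT.eq f s hs, hF2 s hs, pow_zero, one_mul]
    refine ⟨⟨hT.diff f, fun z hz => ?_, ?_⟩, fun v => ?_⟩
    · rw [hT.eq f z (by linarith)]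
      rfl
    · rw [hFL]
      exact hF3
    have h1 := hF5 (t f + v)
    simp only [pow_zero, mul_one] at h1
    have hqs1 := (hT.rs f).one_le
    have e1 : qs f * ∏ j, (1 + ‖μ f j + ((t f + v : ℝ) : ℂ) * I‖) ≤ C * (1 + |v|) ^ N' := by
      have h3 := shift_cond (κ := μ f) hqs1 (z := (t f : ℂ) * I) (w := 0) (c := 0) (by simp) v
      rw [add_zero, one_pow, one_mul] at h3
      refine le_trans (le_of_eq ?_) (h3.trans (mul_le_mul_of_nonneg_right (hcC f) (by positivity)))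
      congr 1
      refine Finset.prod_congr rfl fun j _ => ?_
      congr 2
      push_cast
      ring
    have h0 : 0 ≤ qs f * ∏ j, (1 + ‖μ f j + ((t f + v : ℝ) : ℂ) * I‖) := by
      have := one_le_cond (κ := μ f) hqs1 (((t f + v : ℝ) : ℂ) * I)
      linarith
    have e4 : (qs f * ∏ j, (1 + ‖μ f j + ((t f + v : ℝ) : ℂ) * I‖)) ^ (1 / 2 + σ₁) ≤
        C ^ (1 / 2 + σ₁) * (1 + |v|) ^ (N' * (1 / 2 + σ₁)) := by
      refine (Real.rpow_le_rpow h0 e1 (by linarith)).trans (le_of_eq ?_)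
      rw [Real.mul_rpow hC0.le (by positivity), ← Real.rpow_natCast (1 + |v|) N',
        ← Real.rpow_mul (by positivity)]
    have e5 : Real.exp ((∑' x : VX K, ‖u f x‖ ^ 2 * Real.exp (-((1 + σ₁) * LV x))) / 2 +
        (∑' x : VX K, ‖w x‖ ^ 2 * Real.exp (-((1 + σ₁) * LV x))) / 2) ≤ (C4 + C5) * G ^ η := by
      refine half_exp ?_ ?_
      · refine (hC4 (S f) (α f) (u f) (q f f) (κ f f) (h.rep f) (h.self f)).trans ?_
        exact mul_le_mul (by linarith) (hpow f) (by have := hq1 f f; positivity) (by linarith)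
      · refine (hC5 S' α' w q' κ' hT.rep hT.self).trans ?_
        exact mul_le_mul (by linarith) hpow' (by have := hT.self.one_le; positivity) (by linarith)
    rw [hFL]
    calc _ ≤ CM * (C ^ (1 / 2 + σ₁) * (1 + |v|) ^ (N' * (1 / 2 + σ₁))) * ((C4 + C5) * G ^ η) :=
          h1.trans (mul_le_mul (mul_le_mul_of_nonneg_left e4 hCM0.le) e5 (Real.exp_pos _).le (by positivity))
      _ = CM * (C4 + C5) * (C ^ (1 / 2 + σ₁) * (1 + |v|) ^ (N' * (1 / 2 + σ₁)) * G ^ η) := by ring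
      _ ≤ A * (C ^ (1 / 2 + σ₁) * (1 + |v|) ^ (N' * (1 / 2 + σ₁)) * G ^ η) :=
          mul_le_mul_of_nonneg_right (by linarith) (by positivity)
      _ = _ := by ring

end Pool.Agent.N846.ZD
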