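import Pool.Agent.N846.ZD.Stm

/-!
# Detection of zeros (S_DETECT)
-/

set_option autoImplicit false

namespace Pool.Agent.N846.ZD

open Complex MeasureTheory
open Pool.Agent.TH949.LT (TT Lam VV)
open Pool.Agent.N846.DT (PairF co Uc)

namespace Detect

open Pool.Agent.TH949.LT (VV_nonneg VV_le real_exp_sum)
open Pool.Agent.N846.DT (VV_half term_norm' Uc_empty Lam_empty Lam_nonneg summ_mono')

variable {X : Type}

/-- the sum of the majorants -/
lemma two_sum {u w : X → ℂ} {L : X → ℝ} {a : ℝ}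
    (hs : Summable fun z => ‖u z‖ * ‖w z‖ * Real.exp (-(a * L z))) :
    HasSum (fun l : TT X => (2 : ℝ) ^ l.1 * ‖Uc u l‖ * ‖Uc w l‖ / (l.1.factorial : ℝ) *
      Real.exp (-(a * Lam L l)))
      (Real.exp (∑' z, ‖u z‖ * ‖w z‖ * Real.exp (-(a * L z))) ^ 2) := by
  have h1 := real_exp_sum (f := fun z => 2 * (‖u z‖ * ‖w z‖ * Real.exp (-(a * L z))))
    (hs.mul_left 2) (fun x => by positivity)
  have e : Real.exp (∑' z, 2 * (‖u z‖ * ‖w z‖ * Real.exp (-(a * L z)))) =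
      Real.exp (∑' z, ‖u z‖ * ‖w z‖ * Real.exp (-(a * L z))) ^ 2 := by
    rw [tsum_mul_left, sq, ← Real.exp_add]
    congr 1
    ring
  rw [e] at h1
  refine h1.congr_fun fun l => ?_
  unfold Lam Uc
  rw [Finset.prod_mul_distrib, Finset.prod_mul_distrib, Finset.prod_mul_distrib, ← Real.exp_sum,
    Finset.sum_neg_distrib, ← Finset.mul_sum, norm_prod, norm_prod, Finset.prod_const,
    Finset.card_univ, Fintype.card_fin]
  ring

/-- the bound for one term of the tail -/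
lemma tail_term {L : X → ℝ} (hL : ∀ z, 0 ≤ L z) {u w : X → ℂ} {co' : TT X → ℂ} (hM : Maj w 2 co')
    {s0 : ℂ} {σ y Y a c : ℝ} (hc4 : c ≤ 1 / 4) (hσ : 1 / 2 ≤ σ) (hσs : σ ≤ s0.re) (ha : 2 ≤ a)
    {l : TT X} (hl : Y < Lam L l) :
    ‖Uc u l * co' l * cexp (-(s0 * Lam L l)) * VV (y - Lam L l)‖ ≤
      Real.exp (a ^ 2 + a * y - (a - 1) * Y) / a *
      ((2 : ℝ) ^ l.1 * ‖Uc u l‖ * ‖Uc w l‖ / (l.1.factorial : ℝ) *
        Real.exp (-((1 + c) * Lam L l))) := by
  have hΛ := Lam_nonneg hL l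
  have ha0 : 0 < a := by linarith
  rw [norm_mul, term_norm', Complex.norm_real, Real.norm_of_nonneg (VV_nonneg _), norm_mul]
  have h1 : ‖co' l‖ ≤ (2 : ℝ) ^ l.1 * ‖Uc w l‖ / (l.1.factorial : ℝ) := by
    have := hM l
    push_cast at this
    exact this
  have h2 := VV_le ha0 (y - Lam L l)
  have h3 : Real.exp (-(s0.re * Lam L l)) * (Real.exp (a ^ 2 + a * (y - Lam L l)) / a) ≤
      Real.exp (a ^ 2 + a * y - (a - 1) * Y) / a * Real.exp (-((1 + c) * Lam L l)) := by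
    rw [mul_div_assoc', div_mul_eq_mul_div, ← Real.exp_add, ← Real.exp_add]
    refine div_le_div_of_nonneg_right (Real.exp_le_exp.2 ?_) ha0.le
    have h4 : (1 + c - s0.re) * Lam L l ≤ 1 * Lam L l :=
      mul_le_mul_of_nonneg_right (by linarith) hΛ
    have h5 : (a - 1) * Y ≤ (a - 1) * Lam L l := mul_le_mul_of_nonneg_left hl.le (by linarith)
    nlinarith
  calc ‖Uc u l‖ * ‖co' l‖ * Real.exp (-(s0.re * Lam L l)) * VV (y - Lam L l)
      ≤ ‖Uc u l‖ * ((2 : ℝ) ^ l.1 * ‖Uc w l‖ / (l.1.factorial : ℝ)) *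
          Real.exp (-(s0.re * Lam L l)) * (Real.exp (a ^ 2 + a * (y - Lam L l)) / a) := by
        refine mul_le_mul ?_ h2 (VV_nonneg _) (by positivity)
        refine mul_le_mul_of_nonneg_right ?_ (Real.exp_pos _).le
        exact mul_le_mul_of_nonneg_left h1 (norm_nonneg _)
    _ = (‖Uc u l‖ * ((2 : ℝ) ^ l.1 * ‖Uc w l‖ / (l.1.factorial : ℝ))) *
          (Real.exp (-(s0.re * Lam L l)) * (Real.exp (a ^ 2 + a * (y - Lam L l)) / a)) := by ring
    _ ≤ (‖Uc u l‖ * ((2 : ℝ) ^ l.1 * ‖Uc w l‖ / (l.1.factorial : ℝ))) *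
          (Real.exp (a ^ 2 + a * y - (a - 1) * Y) / a * Real.exp (-((1 + c) * Lam L l))) :=
        mul_le_mul_of_nonneg_left h3 (by positivity)
    _ = _ := by ring

end Detect

open Detect
open Pool.Agent.TH949.LT (VV_nonneg VV_le real_exp_sum)
open Pool.Agent.N846.DT (VV_half term_norm' Uc_empty Lam_empty Lam_nonneg summ_mono')

/-- **DETECT** -/
theorem detect (h1 : S_OFF) (h2 : S_MB) : S_DETECT := by
  classical
  intro σ₁ c A hσ₁ hc hc4 hA
  obtain ⟨C, hC, hoff⟩ := h1 σ₁ A hσ₁ hA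
  refine ⟨C, hC, ?_⟩
  intro X _ u w L F co' s0 σ B x y Y D a hL hF hF0 hσ hσs hs1 hs hD hx hy ha hB0 hB hM hco0 hcox hMoll
    hcond1 hcond2
  obtain ⟨D₀, hD₀⟩ : ∃ D₀ : ℝ, D₀ = Real.exp (∑' z, ‖u z‖ * ‖w z‖ * Real.exp (-((1 + c) * L z))) :=
    ⟨_, rfl⟩
  rw [← hD₀] at hD
  have hD₀0 : 0 < D₀ := by rw [hD₀]; exact Real.exp_pos _
  obtain ⟨hMd, hMb⟩ := h2 X u w L x (1 + c) hL hx hs
  rw [← hD₀] at hMb
  have hw0 : ∀ z, 0 ≤ ‖u z‖ * ‖w z‖ := fun z => by positivity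
  -- the function
  obtain ⟨G, hG⟩ : ∃ G : ℂ → ℂ, G = fun s => F s * MM L x u w s := ⟨_, rfl⟩
  have hGd : Differentiable ℂ G := by rw [hG]; exact hF.diff.mul hMd
  have hGg : ∀ a b : ℝ, ∃ C' A' : ℝ, ∀ s : ℂ, a ≤ s.re → s.re ≤ b →
      ‖G s‖ ≤ C' * (1 + |s.im|) ^ A' := by
    intro a b
    obtain ⟨C', A', h⟩ := hF.growth a b
    refine ⟨C' * (Real.exp (max (1 + c - a) 0 * x) * D₀), A', fun s ha hb => ?_⟩
    rw [hG]
    simp only
    rw [norm_mul]
    have h3 := h s ha hb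
    have h4 : ‖MM L x u w s‖ ≤ Real.exp (max (1 + c - a) 0 * x) * D₀ := by
      refine (hMb s).trans (mul_le_mul_of_nonneg_right (Real.exp_le_exp.2 ?_) hD₀0.le)
      exact mul_le_mul_of_nonneg_right (max_le_max (by linarith) le_rfl) hx
    calc ‖F s‖ * ‖MM L x u w s‖ ≤ (C' * (1 + |s.im|) ^ A') *
          (Real.exp (max (1 + c - a) 0 * x) * D₀) :=
          mul_le_mul h3 h4 (norm_nonneg _) ((norm_nonneg _).trans h3)
      _ = _ := by ring
  have hsre : ∀ s : ℂ, 3 ≤ s.re → Summable fun z => ‖u z‖ * ‖w z‖ * Real.exp (-(s.re * L z)) :=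
    fun s h => summ_mono' hL hw0 (by linarith) hs
  have hGs : ∀ s : ℂ, 3 ≤ s.re → HasSum (fun l : TT X => Uc u l * co' l * cexp (-(s * Lam L l)))
      (G s) := by
    intro s h
    have h3 := hMoll s (hsre s h)
    rw [← hF.eq s h] at h3
    rw [hG]
    exact h3
  have hsum3 : Summable fun l : TT X => ‖Uc u l * co' l‖ * Real.exp (-(3 * Lam L l)) := by
    have h3 := (hGs 3 (by norm_num)).summable.norm
    refine h3.congr fun l => ?_
    rw [term_norm']
    norm_num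
  have hline : ∀ v : ℝ, ‖G (((-σ₁ : ℝ) : ℂ) + (s0.im + v : ℝ) * I)‖ ≤
      (B * Real.exp ((1 + c + σ₁) * x) * D₀) * (1 + |v|) ^ A := by
    intro v
    rw [hG]
    simp only
    rw [norm_mul]
    have h3 := hB v
    have h4 := hMb (((-σ₁ : ℝ) : ℂ) + (s0.im + v : ℝ) * I)
    have e : (((-σ₁ : ℝ) : ℂ) + (s0.im + v : ℝ) * I).re = -σ₁ := by simp
    rw [e, sub_neg_eq_add, max_eq_left (by linarith)] at h4
    calc _ ≤ (B * (1 + |v|) ^ A) * (Real.exp ((1 + c + σ₁) * x) * D₀) :=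
          mul_le_mul h3 h4 (norm_nonneg _) ((norm_nonneg _).trans h3)
      _ = _ := by ring
  obtain ⟨T, hT, hTn⟩ := hoff (TT X) (fun l => Uc u l * co' l) (Lam L) G s0
    (B * Real.exp ((1 + c + σ₁) * x) * D₀) y (Lam_nonneg hL) hGd hGg hsum3 hGs (by linarith) hs1
    (by rw [hG]; simp only; rw [hF0, zero_mul]) (by positivity) hline
  have hT8 : ‖T‖ ≤ 1 / 8 := by
    refine hTn.trans (le_trans ?_ hcond1)
    have h3 : Real.exp (-(σ₁ + s0.re) * y) ≤ Real.exp (-((σ₁ + σ) * y)) := by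
      refine Real.exp_le_exp.2 ?_
      nlinarith
    have h4 : C * (B * Real.exp ((1 + c + σ₁) * x) * D₀) ≤
        C * B * D * Real.exp ((1 + c + σ₁) * x) := by
      have h5 : C * B * Real.exp ((1 + c + σ₁) * x) * D₀ ≤
          C * B * Real.exp ((1 + c + σ₁) * x) * D := mul_le_mul_of_nonneg_left hD (by positivity)
      linarith
    exact mul_le_mul h4 h3 (Real.exp_pos _).le (by
      have : 0 ≤ D := hD₀0.le.trans hD
      positivity)
  -- the pieces
  obtain ⟨t, ht⟩ : ∃ t : TT X → ℂ, t = fun l => Uc u l * co' l * cexp (-(s0 * Lam L l)) *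
    VV (y - Lam L l) := ⟨_, rfl⟩
  rw [← ht] at hT
  obtain ⟨m, hm⟩ : ∃ m : TT X → ℂ, m = fun l => if x < Lam L l ∧ Lam L l ≤ Y then
      Uc u l * (co' l * VV (y - Lam L l)) * Complex.exp (-(s0 * Lam L l)) else 0 := ⟨_, rfl⟩
  rw [← hm]
  have hx0 : Fin 0 → X := fun i => i.elim0
  obtain ⟨l0, hl0⟩ : ∃ l0 : TT X, l0 = ⟨0, hx0⟩ := ⟨_, rfl⟩
  have hl0u : ∀ l : TT X, l.1 = 0 → l = l0 := by
    rintro ⟨k, f⟩ hk
    simp only at hk
    subst hk
    rw [hl0]
    congr 1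
    exact Subsingleton.elim _ _
  have hLam0 : Lam L l0 = 0 := by rw [hl0]; exact Lam_empty L hx0
  have ht0 : t l0 = VV y := by
    rw [ht]
    simp only
    rw [hLam0, hco0 l0 (by rw [hl0]), hl0, Uc_empty]
    simp
  have hm0 : m l0 = 0 := by
    rw [hm]
    simp only
    rw [if_neg]
    rw [hLam0]
    intro h
    linarith [h.1]
  obtain ⟨r, hr⟩ : ∃ r : TT X → ℂ, r = fun l => t l - m l - (if l = l0 then (VV y : ℂ) else 0) :=
    ⟨_, rfl⟩
  have hrb : ∀ l, ‖r l‖ ≤ Real.exp (a ^ 2 + a * y - (a - 1) * Y) / a *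
      ((2 : ℝ) ^ l.1 * ‖Uc u l‖ * ‖Uc w l‖ / (l.1.factorial : ℝ) *
        Real.exp (-((1 + c) * Lam L l))) := by
    intro l
    have hpos : 0 ≤ Real.exp (a ^ 2 + a * y - (a - 1) * Y) / a *
      ((2 : ℝ) ^ l.1 * ‖Uc u l‖ * ‖Uc w l‖ / (l.1.factorial : ℝ) *
        Real.exp (-((1 + c) * Lam L l))) := by
      have : 0 < a := by linarith
      positivity
    rw [hr]
    simp only
    by_cases hl : l = l0
    · rw [if_pos hl, hl, ht0, hm0, sub_zero, sub_self, norm_zero, ← hl]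
      exact hpos
    · have hl1 : l.1 ≠ 0 := fun h => hl (hl0u l h)
      rw [if_neg hl, sub_zero]
      rcases le_or_gt (Lam L l) x with h3 | h3
      · have e1 : t l = 0 := by
          rw [ht]
          simp only
          rw [hcox l hl1 h3]
          simp
        have e2 : m l = 0 := by
          rw [hm]
          simp only
          rw [if_neg]
          intro h4
          linarith [h4.1]
        rw [e1, e2, sub_zero, norm_zero]
        exact hpos
      · rcases le_or_gt (Lam L l) Y with h4 | h4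
        · have e2 : m l = t l := by
            rw [hm, ht]
            simp only
            rw [if_pos ⟨h3, h4⟩]
            ring
          rw [e2, sub_self, norm_zero]
          exact hpos
        · have e2 : m l = 0 := by
            rw [hm]
            simp only
            rw [if_neg]
            intro h5
            linarith [h5.2]
          rw [e2, sub_zero, ht]
          exact tail_term hL hM hc4 hσ hσs ha h4
  have hg := two_sum hs
  rw [← hD₀] at hg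
  have hgK := hg.mul_left (Real.exp (a ^ 2 + a * y - (a - 1) * Y) / a)
  have hrs : Summable fun l => ‖r l‖ :=
    Summable.of_nonneg_of_le (fun l => norm_nonneg _) hrb hgK.summable
  have hR : ‖∑' l, r l‖ ≤ 1 / 16 := by
    refine (norm_tsum_le_tsum_norm hrs).trans ((hrs.tsum_le_tsum hrb hgK.summable).trans ?_)
    rw [hgK.tsum_eq]
    have ha0 : 0 < a := by linarith
    have h3 : D₀ ^ 2 ≤ D ^ 2 := pow_le_pow_left₀ hD₀0.le hD 2
    have h4 : Real.exp (a ^ 2 + a * y - (a - 1) * Y) / a * D₀ ^ 2 ≤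
        (D ^ 2 * Real.exp (a ^ 2 + a * y - (a - 1) * Y)) / a := by
      rw [div_mul_eq_mul_div]
      refine div_le_div_of_nonneg_right ?_ ha0.le
      rw [mul_comm]
      exact mul_le_mul_of_nonneg_right h3 (Real.exp_pos _).le
    refine h4.trans ?_
    rw [div_le_iff₀ ha0]
    linarith
  have hone : HasSum (fun l : TT X => if l = l0 then (VV y : ℂ) else 0) (VV y : ℂ) :=
    hasSum_ite_eq l0 (VV y : ℂ)
  have hmS : HasSum m (T - ∑' l, r l - (VV y : ℂ)) := by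
    have h3 := (hT.sub hrs.of_norm.hasSum).sub hone
    refine h3.congr_fun fun l => ?_
    rw [hr]
    ring
  rw [hmS.tsum_eq]
  have hV := VV_half hy
  have h5 : ‖(VV y : ℂ)‖ = VV y := by
    rw [Complex.norm_real, Real.norm_of_nonneg (VV_nonneg _)]
  have h6 : ‖(VV y : ℂ)‖ ≤ ‖T - ∑' l, r l - (VV y : ℂ)‖ + ‖T‖ + ‖∑' l, r l‖ := by
    have e : (VV y : ℂ) = -(T - ∑' l, r l - (VV y : ℂ)) + T - ∑' l, r l := by ring
    calc ‖(VV y : ℂ)‖ = ‖-(T - ∑' l, r l - (VV y : ℂ)) + T - ∑' l, r l‖ := by rw [← e]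
      _ ≤ ‖-(T - ∑' l, r l - (VV y : ℂ)) + T‖ + ‖∑' l, r l‖ := norm_sub_le _ _
      _ ≤ ‖-(T - ∑' l, r l - (VV y : ℂ))‖ + ‖T‖ + ‖∑' l, r l‖ := by
          gcongr
          exact norm_add_le _ _
      _ = _ := by rw [norm_neg]
  rw [h5] at h6
  linarith

end Pool.Agent.N846.ZD
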