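import Pool.Agent.N846.ZD.Core

/-! Zero density: the final form. -/

set_option autoImplicit false

namespace Pool.Agent.N846.ZD

open Filter Topology Complex MeasureTheory Set NumberField IsDedekindDomain
open Pool.Agent.N846.DT (finite_of_bound dens dens_le_one)
open Pool.Agent.N846.DU (VX LV logRS RS GLFamily Rep LV_nonneg one_le_cond shift_cond S_LEFT S_DIAG)
open Pool.Agent.N846.LM (Twists cond_shift)

/-- without a lower bound for the conductors -/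
theorem core1 (hPow : S_POW) (hMo : S_MOLL) (hBl : S_BLOCK) (hDe : S_DETECT) (hL : S_LEFT) (hDi : S_DIAG)
    (K : Type) [Field K] [NumberField K] (n N n' N' N'' : ℕ) {σ₀ σ₁ τ : ℝ} (h0 : 0 < σ₀) (h1 : 0 < σ₁)
    (hτ : 0 < τ) : ∃ A : ℝ, 0 < A ∧
    ∀ (ι : Type) [Fintype ι] (S : ι → Finset (HeightOneSpectrum (𝓞 K)))
      (α : ι → HeightOneSpectrum (𝓞 K) → Fin n → ℂ) (u : ι → VX K → ℂ) (q : ι → ι → ℝ) (κ : ι → ι → Fin N → ℂ)
      (S' : Finset (HeightOneSpectrum (𝓞 K))) (α' : HeightOneSpectrum (𝓞 K) → Fin n' → ℂ) (w : VX K → ℂ) (q' : ℝ)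
      (κ' : Fin N'' → ℂ) (qs : ι → ℝ) (μ : ι → Fin N' → ℂ) (L : ι → ℂ → ℂ),
      GLFamily n N S α u q κ → Twists n' N' N'' u S' α' w q' κ' qs μ L →
      ∀ (ρ : ι → ℂ) (σ C Q Q' : ℝ), 1 / 2 ≤ σ → σ ≤ 1 → 1 ≤ C → 1 ≤ Q → q' * ∏ j, (1 + ‖κ' j‖) ≤ Q' →
        (∀ f, L f (ρ f) = 0) → (∀ f, σ ≤ (ρ f).re) →
        (∀ f, qs f * ∏ j, (1 + ‖μ f j + (ρ f).im * I‖) ≤ C) →
        (∀ f g, q f g * ∏ j, (1 + ‖κ f g j + ((ρ f).im - (ρ g).im) * I‖) ≤ Q) →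
        (Fintype.card ι : ℝ) ≤ A * ((C * Q * Q') ^ τ *
          (Q ^ ((1 / 2 + σ₀) / (σ₀ + 2 * σ - 1)) * C ^ ((1 / 2 + σ₁) / (σ + σ₁))) ^ (2 - 2 * σ)) := by
  obtain ⟨E₀, hE1, hE⟩ := core0 hPow hMo hBl hDe hL hDi K n N n' N' N'' h0 h1 hτ
  have hE0 : 0 < E₀ := by linarith
  refine ⟨E₀ ^ (τ + (1 / 2 + σ₀) / σ₀), by positivity, ?_⟩
  intro ι _ S α u q κ S' α' w q' κ' qs μ L h hT ρ σ C Q Q' hσ hσ1 hC hQ hcQ' hzero hre hcC hcQ
  have hC0 : 0 < C := by linarith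
  have hQ0 : 0 < Q := by linarith
  have hQ'1 : 1 ≤ Q' := by
    have h2 := one_le_cond (κ := κ') hT.self.one_le 0
    simp only [add_zero] at h2
    linarith
  have hQ'0 : 0 < Q' := by linarith
  have hQE : Q ≤ Q * E₀ := le_mul_of_one_le_right hQ0.le hE1
  have hbig : E₀ ≤ C * (Q * E₀) * Q' := by
    have h2 : 1 ≤ C * Q := by nlinarith
    have h3 : 1 ≤ C * Q * Q' := by nlinarith
    calc E₀ = 1 * E₀ := (one_mul _).symm
      _ ≤ C * Q * Q' * E₀ := mul_le_mul_of_nonneg_right h3 hE0.le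
      _ = _ := by ring
  have hmain := hE ι S α u q κ S' α' w q' κ' qs μ L h hT ρ σ C (Q * E₀) Q' hσ hσ1 hC (hQ.trans hQE) hcQ' hbig
    hzero hre hcC (fun f g => (hcQ f g).trans hQE)
  refine hmain.trans ?_
  set e : ℝ := (1 / 2 + σ₀) / (σ₀ + 2 * σ - 1) with he
  have hd0 : σ₀ ≤ σ₀ + 2 * σ - 1 := by linarith
  have he0 : 0 ≤ e := div_nonneg (by linarith) (by linarith)
  have hem : e ≤ (1 / 2 + σ₀) / σ₀ := div_le_div_of_nonneg_left (by linarith) h0 hd0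
  have hs1 : 0 ≤ 2 - 2 * σ := by linarith
  have hs2 : 2 - 2 * σ ≤ 1 := by linarith
  have e1 : (C * (Q * E₀) * Q') ^ τ = E₀ ^ τ * (C * Q * Q') ^ τ := by
    rw [← Real.mul_rpow hE0.le (by positivity)]
    congr 1
    ring
  have e2 : ((Q * E₀) ^ e * C ^ ((1 / 2 + σ₁) / (σ + σ₁))) ^ (2 - 2 * σ) =
      E₀ ^ (e * (2 - 2 * σ)) * (Q ^ e * C ^ ((1 / 2 + σ₁) / (σ + σ₁))) ^ (2 - 2 * σ) := by
    have e0 : (Q * E₀) ^ e * C ^ ((1 / 2 + σ₁) / (σ + σ₁)) = E₀ ^ e * (Q ^ e * C ^ ((1 / 2 + σ₁) / (σ + σ₁))) := by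
      rw [Real.mul_rpow hQ0.le hE0.le]
      ring
    rw [e0, Real.mul_rpow (by positivity) (by positivity), Real.rpow_mul hE0.le]
  have e3 : E₀ ^ (e * (2 - 2 * σ)) ≤ E₀ ^ ((1 / 2 + σ₀) / σ₀) := by
    refine Real.rpow_le_rpow_of_exponent_le hE1 ?_
    calc e * (2 - 2 * σ) ≤ e * 1 := mul_le_mul_of_nonneg_left hs2 he0
      _ ≤ _ := by rw [mul_one]; exact hem
  rw [e1, e2, Real.rpow_add hE0]
  calc _ = E₀ ^ (e * (2 - 2 * σ)) * (E₀ ^ τ * ((C * Q * Q') ^ τ *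
        (Q ^ e * C ^ ((1 / 2 + σ₁) / (σ + σ₁))) ^ (2 - 2 * σ))) := by ring
    _ ≤ E₀ ^ ((1 / 2 + σ₀) / σ₀) * (E₀ ^ τ * ((C * Q * Q') ^ τ *
        (Q ^ e * C ^ ((1 / 2 + σ₁) / (σ + σ₁))) ^ (2 - 2 * σ))) :=
        mul_le_mul_of_nonneg_right e3 (by positivity)
    _ = _ := by ring

/-- the zero density theorem -/
theorem zd_all (hPow : S_POW) (hMo : S_MOLL) (hBl : S_BLOCK) (hDe : S_DETECT) (hL : S_LEFT) (hDi : S_DIAG)
    (K : Type) [Field K] [NumberField K] (n N n' N' N'' : ℕ) {ε : ℝ} (hε : 0 < ε) : ∃ A : ℝ, 0 < A ∧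
    ∀ (ι : Type) (S : ι → Finset (HeightOneSpectrum (𝓞 K)))
      (α : ι → HeightOneSpectrum (𝓞 K) → Fin n → ℂ) (u : ι → VX K → ℂ) (q : ι → ι → ℝ) (κ : ι → ι → Fin N → ℂ)
      (S' : Finset (HeightOneSpectrum (𝓞 K))) (α' : HeightOneSpectrum (𝓞 K) → Fin n' → ℂ) (w : VX K → ℂ) (q' : ℝ)
      (κ' : Fin N'' → ℂ) (qs : ι → ℝ) (μ : ι → Fin N' → ℂ) (L : ι → ℂ → ℂ),
      GLFamily n N S α u q κ → Twists n' N' N'' u S' α' w q' κ' qs μ L →
      ∀ (T : Set ι) (ρ : ι → ℂ) (σ C Q Q' : ℝ), 1 / 2 ≤ σ → 1 ≤ C → 1 ≤ Q → q' * ∏ j, (1 + ‖κ' j‖) ≤ Q' →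
        (∀ f ∈ T, L f (ρ f) = 0 ∧ σ ≤ (ρ f).re) →
        (∀ f ∈ T, qs f * ∏ j, (1 + ‖μ f j + (ρ f).im * I‖) ≤ C) →
        (∀ f ∈ T, ∀ g ∈ T, q f g * ∏ j, (1 + ‖κ f g j + ((ρ f).im - (ρ g).im) * I‖) ≤ Q) →
        T.Finite ∧ (T.ncard : ℝ) ≤ A * (C * Q * Q') ^ ε * Q ^ dens (σ - 1 / 2) * C ^ ((1 - σ) / σ) := by
  obtain ⟨A₁, hA₁0, hA₁⟩ := core1 hPow hMo hBl hDe hL hDi K n N n' N' N'' (σ₀ := ε / 4) (σ₁ := ε / 8) (τ := ε / 2)
    (by positivity) (by positivity) (by positivity)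
  obtain ⟨A₂, hA₂0, hA₂⟩ := core1 hPow hMo hBl hDe hL hDi K n N n' N' N'' (σ₀ := 2 / ε) (σ₁ := ε / 8) (τ := ε / 2)
    (by positivity) (by positivity) (by positivity)
  refine ⟨A₁ + A₂, by positivity, ?_⟩
  intro ι S α u q κ S' α' w q' κ' qs μ L h hT T ρ σ C Q Q' hσ hC hQ hcQ' hz hcC hcQ
  have hC0 : 0 < C := by linarith
  have hQ0 : 0 < Q := by linarith
  have hQ'1 : 1 ≤ Q' := by
    have h2 := one_le_cond (κ := κ') hT.self.one_le 0
    simp only [add_zero] at h2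
    linarith
  have hQ'0 : 0 < Q' := by linarith
  refine finite_of_bound fun T' hT' => ?_
  rcases T'.eq_empty_or_nonempty with he | ⟨f0, hf0⟩
  · rw [he]
    simp only [Finset.card_empty, Nat.cast_zero]
    positivity
  have hσ1 : σ ≤ 1 := by
    obtain ⟨h2, h3⟩ := hz f0 (hT' f0 hf0)
    by_contra hlt
    push Not at hlt
    have h4 := hT.eq f0 (ρ f0) (by linarith)
    rw [h2] at h4
    exact Complex.exp_ne_zero _ h4.symm
  have hTw : Twists n' N' N'' (fun f : {f // f ∈ T'} => u f.1) S' α' w q' κ' (fun f => qs f.1) (fun f => μ f.1)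
      (fun f => L f.1) :=
    ⟨hT.rep, hT.self, fun f => hT.rs f.1, fun f => hT.re_gt f.1, fun f => hT.diff f.1, fun f => hT.eq f.1⟩
  have hsub := h.sub (fun f : {f // f ∈ T'} => f.1) Subtype.val_injective
  have hs1 : 0 ≤ 2 - 2 * σ := by linarith
  have hs2 : 2 - 2 * σ ≤ 1 := by linarith
  have hσ0 : 0 < σ := by linarith
  -- the exponent of C
  have hCe : (1 / 2 + ε / 8) / (σ + ε / 8) * (2 - 2 * σ) ≤ (1 - σ) / σ + ε / 4 := by
    have h2 : (1 / 2 + ε / 8) / (σ + ε / 8) ≤ (1 / 2 + ε / 8) / σ :=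
      div_le_div_of_nonneg_left (by positivity) hσ0 (by linarith)
    have h3 : (1 / 2 + ε / 8) / σ * (2 - 2 * σ) = (1 - σ) / σ + ε / 4 * ((1 - σ) / σ) := by
      field_simp
      ring
    have h4 : (1 - σ) / σ ≤ 1 := by
      rw [div_le_one hσ0]
      linarith
    have h5 := mul_le_mul_of_nonneg_right h2 hs1
    rw [h3] at h5
    have h6 : ε / 4 * ((1 - σ) / σ) ≤ ε / 4 * 1 := mul_le_mul_of_nonneg_left h4 (by positivity)
    linarith
  have hfin : ∀ e : ℝ, e * (2 - 2 * σ) ≤ dens (σ - 1 / 2) + ε / 4 →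
      (C * Q * Q') ^ (ε / 2) * (Q ^ e * C ^ ((1 / 2 + ε / 8) / (σ + ε / 8))) ^ (2 - 2 * σ) ≤
      (C * Q * Q') ^ ε * Q ^ dens (σ - 1 / 2) * C ^ ((1 - σ) / σ) := by
    intro e he
    have e1 : (Q ^ e * C ^ ((1 / 2 + ε / 8) / (σ + ε / 8))) ^ (2 - 2 * σ) =
        Q ^ (e * (2 - 2 * σ)) * C ^ ((1 / 2 + ε / 8) / (σ + ε / 8) * (2 - 2 * σ)) := by
      rw [Real.mul_rpow (by positivity) (by positivity), ← Real.rpow_mul hQ0.le, ← Real.rpow_mul hC0.le]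
    have e2 : Q ^ (e * (2 - 2 * σ)) ≤ Q ^ dens (σ - 1 / 2) * Q ^ (ε / 4) := by
      rw [← Real.rpow_add hQ0]
      exact Real.rpow_le_rpow_of_exponent_le hQ he
    have e3 : C ^ ((1 / 2 + ε / 8) / (σ + ε / 8) * (2 - 2 * σ)) ≤ C ^ ((1 - σ) / σ) * C ^ (ε / 4) := by
      rw [← Real.rpow_add hC0]
      exact Real.rpow_le_rpow_of_exponent_le hC hCe
    have e4 : Q ^ (ε / 4) * C ^ (ε / 4) ≤ (C * Q * Q') ^ (ε / 2) := by
      rw [← Real.mul_rpow hQ0.le hC0.le]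
      have h2 : Q * C ≤ C * Q * Q' := by
        rw [mul_comm Q C]
        exact le_mul_of_one_le_right (by positivity) hQ'1
      refine (Real.rpow_le_rpow (by positivity) h2 (by positivity)).trans ?_
      have h3 : 1 ≤ C * Q := by nlinarith
      have h4 : 1 ≤ C * Q * Q' := by nlinarith
      exact Real.rpow_le_rpow_of_exponent_le h4 (by linarith)
    have e5 : (C * Q * Q') ^ ε = (C * Q * Q') ^ (ε / 2) * (C * Q * Q') ^ (ε / 2) := by
      rw [← Real.rpow_add (by positivity)]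
      congr 1
      ring
    rw [e1, e5]
    calc _ ≤ (C * Q * Q') ^ (ε / 2) * ((Q ^ dens (σ - 1 / 2) * Q ^ (ε / 4)) * (C ^ ((1 - σ) / σ) * C ^ (ε / 4))) :=
          mul_le_mul_of_nonneg_left (mul_le_mul e2 e3 (by positivity) (by positivity)) (by positivity)
      _ = (C * Q * Q') ^ (ε / 2) * (Q ^ (ε / 4) * C ^ (ε / 4)) * Q ^ dens (σ - 1 / 2) * C ^ ((1 - σ) / σ) := by ring
      _ ≤ _ := by
          refine mul_le_mul_of_nonneg_right (mul_le_mul_of_nonneg_right ?_ (by positivity)) (by positivity)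
          exact mul_le_mul_of_nonneg_left e4 (by positivity)
  have hX0 : 0 ≤ (C * Q * Q') ^ ε * Q ^ dens (σ - 1 / 2) * C ^ ((1 - σ) / σ) := by positivity
  rcases le_total σ (3 / 4) with h34 | h34
  · have h2 := hA₂ {f // f ∈ T'} (fun f => S f.1) (fun f => α f.1) (fun f => u f.1) (fun f g => q f.1 g.1)
      (fun f g => κ f.1 g.1) S' α' w q' κ' (fun f => qs f.1) (fun f => μ f.1) (fun f => L f.1) hsub hTw
      (fun f => ρ f.1) σ C Q Q' hσ hσ1 hC hQ hcQ' (fun f => (hz f.1 (hT' _ f.2)).1)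
      (fun f => (hz f.1 (hT' _ f.2)).2) (fun f => hcC f.1 (hT' _ f.2))
      (fun f g => hcQ f.1 (hT' _ f.2) g.1 (hT' _ g.2))
    rw [Fintype.card_coe] at h2
    have hexp : (1 / 2 + 2 / ε) / (2 / ε + 2 * σ - 1) * (2 - 2 * σ) ≤ dens (σ - 1 / 2) + ε / 4 := by
      have h3 : dens (σ - 1 / 2) = 2 - 2 * σ := by
        unfold dens
        rw [max_eq_left (by linarith)]
        ring
      have hd : 0 < 2 / ε := by positivity
      have h4 : (1 / 2 + 2 / ε) / (2 / ε + 2 * σ - 1) ≤ (1 / 2 + 2 / ε) / (2 / ε) :=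
        div_le_div_of_nonneg_left (by positivity) hd (by linarith)
      have h5 : (1 / 2 + 2 / ε) / (2 / ε) = 1 + ε / 4 := by
        field_simp
        ring
      rw [h5] at h4
      rw [h3]
      have h6 := mul_le_mul_of_nonneg_right h4 hs1
      nlinarith
    calc (T'.card : ℝ) ≤ _ := h2
      _ ≤ A₂ * ((C * Q * Q') ^ ε * Q ^ dens (σ - 1 / 2) * C ^ ((1 - σ) / σ)) :=
          mul_le_mul_of_nonneg_left (hfin _ hexp) hA₂0.le
      _ ≤ (A₁ + A₂) * ((C * Q * Q') ^ ε * Q ^ dens (σ - 1 / 2) * C ^ ((1 - σ) / σ)) :=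
          mul_le_mul_of_nonneg_right (by linarith) hX0
      _ = _ := by ring
  · have h2 := hA₁ {f // f ∈ T'} (fun f => S f.1) (fun f => α f.1) (fun f => u f.1) (fun f g => q f.1 g.1)
      (fun f g => κ f.1 g.1) S' α' w q' κ' (fun f => qs f.1) (fun f => μ f.1) (fun f => L f.1) hsub hTw
      (fun f => ρ f.1) σ C Q Q' hσ hσ1 hC hQ hcQ' (fun f => (hz f.1 (hT' _ f.2)).1)
      (fun f => (hz f.1 (hT' _ f.2)).2) (fun f => hcC f.1 (hT' _ f.2))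
      (fun f g => hcQ f.1 (hT' _ f.2) g.1 (hT' _ g.2))
    rw [Fintype.card_coe] at h2
    have hexp : (1 / 2 + ε / 4) / (ε / 4 + 2 * σ - 1) * (2 - 2 * σ) ≤ dens (σ - 1 / 2) + ε / 4 := by
      have hpos : 0 < 2 * σ - 1 := by linarith
      have h3 : dens (σ - 1 / 2) = (2 - 2 * σ) / (4 * σ - 2) := by
        unfold dens
        rw [max_eq_right (by linarith)]
        congr 1 <;> ring
      have h4 : (1 / 2 + ε / 4) / (ε / 4 + 2 * σ - 1) ≤ (1 / 2 + ε / 4) / (2 * σ - 1) :=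
        div_le_div_of_nonneg_left (by positivity) hpos (by linarith)
      have h5 : (1 / 2 + ε / 4) / (2 * σ - 1) * (2 - 2 * σ) =
          (2 - 2 * σ) / (4 * σ - 2) + ε / 4 * ((2 - 2 * σ) / (2 * σ - 1)) := by
        have : 4 * σ - 2 = 2 * (2 * σ - 1) := by ring
        rw [this]
        field_simp
      have h6 : (2 - 2 * σ) / (2 * σ - 1) ≤ 1 := by
        rw [div_le_one hpos]
        linarith
      have h7 := mul_le_mul_of_nonneg_right h4 hs1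
      rw [h5] at h7
      rw [h3]
      have h8 : ε / 4 * ((2 - 2 * σ) / (2 * σ - 1)) ≤ ε / 4 * 1 := mul_le_mul_of_nonneg_left h6 (by positivity)
      linarith
    calc (T'.card : ℝ) ≤ _ := h2
      _ ≤ A₁ * ((C * Q * Q') ^ ε * Q ^ dens (σ - 1 / 2) * C ^ ((1 - σ) / σ)) :=
          mul_le_mul_of_nonneg_left (hfin _ hexp) hA₁0.le
      _ ≤ (A₁ + A₂) * ((C * Q * Q') ^ ε * Q ^ dens (σ - 1 / 2) * C ^ ((1 - σ) / σ)) :=
          mul_le_mul_of_nonneg_right (by linarith) hX0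
      _ = _ := by ring

/-- universal families -/
theorem zd_univ (hPow : S_POW) (hMo : S_MOLL) (hBl : S_BLOCK) (hDe : S_DETECT) (hL : S_LEFT) (hDi : S_DIAG)
    (K : Type) [Field K] [NumberField K] (n N n' N' N'' : ℕ) {ε σ : ℝ} (hε : 0 < ε) (hσ : 1 / 2 ≤ σ) (hσ1 : σ ≤ 1)
    (B Q' : ℝ) (hB : 1 ≤ B) (hQ' : 1 ≤ Q') : ∃ A c : ℝ, 1 ≤ A ∧ 0 < c ∧
    ∀ (ι : Type) (S : ι → Finset (HeightOneSpectrum (𝓞 K)))
      (α : ι → HeightOneSpectrum (𝓞 K) → Fin n → ℂ) (u : ι → VX K → ℂ) (q : ι → ι → ℝ) (κ : ι → ι → Fin N → ℂ)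
      (S' : Finset (HeightOneSpectrum (𝓞 K))) (α' : HeightOneSpectrum (𝓞 K) → Fin n' → ℂ) (w : VX K → ℂ) (q' : ℝ)
      (κ' : Fin N'' → ℂ) (qs : ι → ℝ) (μ : ι → Fin N' → ℂ) (L : ι → ℂ → ℂ) (C : ι → ℝ),
      GLFamily n N S α u q κ → Twists n' N' N'' u S' α' w q' κ' qs μ L → q' * ∏ j, (1 + ‖κ' j‖) ≤ Q' →
      (∀ f, qs f * ∏ j, (1 + ‖μ f j‖) ≤ C f) →
      (∀ f g, q f g * ∏ j, (1 + ‖κ f g j‖) ≤ B * (C f * C g) ^ n) →
      ∀ X : ℝ, A ≤ X →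
        {f | C f ≤ X ∧ ∃ ρ : ℂ, L f ρ = 0 ∧ σ ≤ ρ.re ∧ |ρ.im| ≤ X ^ c}.Finite ∧
        ({f | C f ≤ X ∧ ∃ ρ : ℂ, L f ρ = 0 ∧ σ ≤ ρ.re ∧ |ρ.im| ≤ X ^ c}.ncard : ℝ) ≤
          X ^ (2 * n * dens (σ - 1 / 2) + (1 - σ) / σ + ε) := by
  have hn0 : (0 : ℝ) ≤ n := Nat.cast_nonneg n
  have hN0 : (0 : ℝ) ≤ N := Nat.cast_nonneg N
  have hN'0 : (0 : ℝ) ≤ N' := Nat.cast_nonneg N'
  have hσ0 : 0 < σ := by linarith
  set m : ℝ := ε / 3 with hm
  have hm0 : 0 < m := by positivity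
  set c : ℝ := m / (N + N' + 1) with hc
  have hc0 : 0 < c := by positivity
  have hcm : c * (N + N' + 1) = m := by
    rw [hc]
    field_simp
  set ε₁ : ℝ := m / (1 + 2 * n + c * (N + N')) with hε₁
  have hε₁0 : 0 < ε₁ := by positivity
  have hεm : ε₁ * (1 + 2 * n + c * (N + N')) = m := by
    rw [hε₁]
    field_simp
  obtain ⟨A, hA0, hA1⟩ := zd_all hPow hMo hBl hDe hL hDi K n N n' N' N'' hε₁0
  obtain ⟨hd0, hd1⟩ := dens_le_one (δ := σ - 1 / 2) (by linarith) (by linarith)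
  set d : ℝ := dens (σ - 1 / 2) with hd
  set e : ℝ := (1 - σ) / σ with he
  have he0 : 0 ≤ e := div_nonneg (by linarith) hσ0.le
  have he1 : e ≤ 1 := by
    rw [he, div_le_one hσ0]
    linarith
  set A₁ : ℝ := A * (3 ^ N' * (3 ^ N * B) * Q') ^ ε₁ * ((3 ^ N * B) ^ d * ((3 : ℝ) ^ N') ^ e) with hA₁
  have hB0 : 0 < B := by linarith
  have hQ'0 : 0 < Q' := by linarith
  have hA₁0 : 0 < A₁ := by positivity
  obtain ⟨X₀, hX₀⟩ : ∃ X₀ : ℝ, ∀ X, X₀ ≤ X → A₁ ≤ X ^ m := by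
    have h1 : Tendsto (fun X : ℝ => X ^ m) atTop atTop := tendsto_rpow_atTop hm0
    exact (eventually_atTop.1 (h1.eventually_ge_atTop A₁))
  refine ⟨max 1 X₀, c, le_max_left _ _, hc0, ?_⟩
  intro ι S α u q κ S' α' w q' κ' qs μ L C h hT hcQ' hC1 hC2 X hX
  have hX1 : 1 ≤ X := (le_max_left _ _).trans hX
  have hX0 : 0 < X := by linarith
  have hXA : A₁ ≤ X ^ m := hX₀ X ((le_max_right _ _).trans hX)
  have hZ1 : 1 ≤ X ^ c := Real.one_le_rpow hX1 hc0.le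
  set T : Set ι := {f | C f ≤ X ∧ ∃ ρ : ℂ, L f ρ = 0 ∧ σ ≤ ρ.re ∧ |ρ.im| ≤ X ^ c} with hTdef
  have hq1 : ∀ f g, 1 ≤ q f g := by
    intro f g
    by_cases hfg : f = g
    · rw [hfg]
      exact (h.self g).one_le
    · exact (h.pair f g hfg).one_le
  have hch : ∀ f, ∃ ρ : ℂ, f ∈ T → L f ρ = 0 ∧ σ ≤ ρ.re ∧ |ρ.im| ≤ X ^ c := by
    intro f
    by_cases hf : f ∈ T
    · obtain ⟨-, ρ, hρ⟩ := hf
      exact ⟨ρ, fun _ => hρ⟩
    · exact ⟨0, fun h' => absurd h' hf⟩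
  choose ρ hρ using hch
  have hC1' : ∀ f, 1 ≤ C f := fun f => by
    have h1 := one_le_cond (κ := μ f) (hT.rs f).one_le 0
    simp only [add_zero] at h1
    exact h1.trans (hC1 f)
  have hcond1 : ∀ f ∈ T, qs f * ∏ j, (1 + ‖μ f j + (ρ f).im * I‖) ≤ (3 * X ^ c) ^ N' * X := by
    intro f hf
    refine cond_shift (hT.rs f).one_le ?_ ((hC1 f).trans hf.1)
    have h2 : ‖((ρ f).im : ℂ) * I‖ = |(ρ f).im| := by simp
    rw [h2]
    linarith [(hρ f hf).2.2]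
  have hcond2 : ∀ f ∈ T, ∀ g ∈ T, q f g * ∏ j, (1 + ‖κ f g j + ((ρ f).im - (ρ g).im) * I‖) ≤
      (3 * X ^ c) ^ N * (B * (X * X) ^ n) := by
    intro f hf g hg
    refine cond_shift (hq1 f g) ?_ ((hC2 f g).trans ?_)
    · have h2 : ‖(((ρ f).im : ℂ) - (ρ g).im) * I‖ ≤ |(ρ f).im| + |(ρ g).im| := by
        rw [norm_mul, Complex.norm_I, mul_one]
        refine (norm_sub_le _ _).trans ?_
        simp
      linarith [(hρ f hf).2.2, (hρ g hg).2.2]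
    · refine mul_le_mul_of_nonneg_left ?_ hB0.le
      refine pow_le_pow_left₀ ?_ ?_ n
      · nlinarith [hC1' f, hC1' g]
      · exact mul_le_mul hf.1 hg.1 (by linarith [hC1' g]) hX0.le
  obtain ⟨hfin, hmain⟩ := hA1 ι S α u q κ S' α' w q' κ' qs μ L h hT T ρ σ ((3 * X ^ c) ^ N' * X)
    ((3 * X ^ c) ^ N * (B * (X * X) ^ n)) Q' hσ (by
      have h1 : 1 ≤ (3 * X ^ c) ^ N' := one_le_pow₀ (by linarith)
      nlinarith) (by
      have h1 : 1 ≤ (3 * X ^ c) ^ N := one_le_pow₀ (by linarith)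
      have h2 : 1 ≤ (X * X) ^ n := one_le_pow₀ (by nlinarith)
      have h3 : 1 ≤ B * (X * X) ^ n := by nlinarith
      nlinarith) hcQ' (fun f hf => ⟨(hρ f hf).1, (hρ f hf).2.1⟩) hcond1 hcond2
  refine ⟨hfin, hmain.trans ?_⟩
  have eC : (3 * X ^ c) ^ N' * X = 3 ^ N' * X ^ (1 + c * N') := by
    rw [mul_pow, ← Real.rpow_natCast (X ^ c), ← Real.rpow_mul hX0.le, Real.rpow_add hX0, Real.rpow_one]
    ring
  have eQ : (3 * X ^ c) ^ N * (B * (X * X) ^ n) = (3 ^ N * B) * X ^ (2 * n + c * N) := by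
    have e1 : (X * X) ^ n = X ^ (2 * (n : ℝ)) := by
      rw [← sq, ← pow_mul, ← Real.rpow_natCast]
      push_cast
      rfl
    rw [mul_pow, e1, ← Real.rpow_natCast (X ^ c), ← Real.rpow_mul hX0.le, Real.rpow_add hX0]
    ring
  rw [eC, eQ, ← hd, ← he]
  have e1 : (3 ^ N' * X ^ (1 + c * N') * ((3 ^ N * B) * X ^ (2 * n + c * N)) * Q') ^ ε₁ =
      (3 ^ N' * (3 ^ N * B) * Q') ^ ε₁ * X ^ m := by
    have e2 : 3 ^ N' * X ^ (1 + c * N') * ((3 ^ N * B) * X ^ (2 * n + c * N)) * Q' =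
        (3 ^ N' * (3 ^ N * B) * Q') * X ^ (1 + 2 * n + c * (N + N')) := by
      rw [show (1 + 2 * (n : ℝ) + c * (N + N')) = (1 + c * N') + (2 * n + c * N) by ring,
        Real.rpow_add hX0 (1 + c * N') (2 * n + c * N)]
      ring
    rw [e2, Real.mul_rpow (by positivity) (by positivity), ← Real.rpow_mul hX0.le, mul_comm _ ε₁, hεm]
  have e3 : (3 ^ N' * X ^ (1 + c * N')) ^ e = ((3 : ℝ) ^ N') ^ e * X ^ ((1 + c * N') * e) := by
    rw [Real.mul_rpow (by positivity) (by positivity), ← Real.rpow_mul hX0.le]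
  have e4 : ((3 ^ N * B) * X ^ (2 * n + c * N)) ^ d = (3 ^ N * B) ^ d * X ^ ((2 * n + c * N) * d) := by
    rw [Real.mul_rpow (by positivity) (by positivity), ← Real.rpow_mul hX0.le]
  rw [e1, e3, e4]
  calc _ = A₁ * X ^ m * X ^ ((2 * n + c * N) * d) * X ^ ((1 + c * N') * e) := by
        rw [hA₁]
        ring
    _ ≤ X ^ m * X ^ m * X ^ ((2 * n + c * N) * d) * X ^ ((1 + c * N') * e) := by
        refine mul_le_mul_of_nonneg_right ?_ (by positivity)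
        refine mul_le_mul_of_nonneg_right ?_ (by positivity)
        exact mul_le_mul_of_nonneg_right hXA (by positivity)
    _ ≤ _ := by
        rw [← Real.rpow_add hX0, ← Real.rpow_add hX0, ← Real.rpow_add hX0]
        refine Real.rpow_le_rpow_of_exponent_le hX1 ?_
        have h1 : c * N * d ≤ c * N := mul_le_of_le_one_right (by positivity) hd1
        have h2 : c * N' * e ≤ c * N' := mul_le_of_le_one_right (by positivity) he1
        have h3 : c * (N + N' + 1) = c * N + c * N' + c := by ring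
        have h4 : (2 * n + c * N) * d = 2 * n * d + c * N * d := by ring
        have h5 : (1 + c * N') * e = e + c * N' * e := by ring
        rw [h4, h5]
        have h6 : 3 * m = ε := by rw [hm]; ring
        linarith

end Pool.Agent.N846.ZD
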