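import Pool.Agent.N846.ZD.Stm2

/-!
# Lindelof bounds from the absence of zeros: the critical strip, statement of the part TL

`N846/ZD`: project of helper846, problem `MP_52e316_nt`.
-/

set_option autoImplicit false

namespace Pool.Agent.N846.ZD

open Complex

/-- TL: three lines with the functional equation -/
def S_TL : Prop := ∀ c A : ℝ, 0 < c → c ≤ 1 / 4 → 0 ≤ A → ∃ C : ℝ, 1 ≤ C ∧
  ∀ (F : ℂ → ℂ) (t B H P R : ℝ), Differentiable ℂ F →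
    (∀ a b : ℝ, ∃ C' A' : ℝ, ∀ s : ℂ, a ≤ s.re → s.re ≤ b → ‖F s‖ ≤ C' * (1 + |s.im|) ^ A') →
    1 ≤ B → 1 ≤ H → 0 ≤ P → 0 ≤ R → P * Real.exp (-(R ^ 2 / 2)) ≤ 1 →
    (∀ v : ℝ, |v| ≤ R → ‖F (((1 / 2 + c : ℝ) : ℂ) + (t + v : ℝ) * I)‖ ≤ H) →
    (∀ v : ℝ, ‖F (((1 / 2 + c : ℝ) : ℂ) + (t + v : ℝ) * I)‖ ≤ P * (1 + |v|) ^ A) →
    (∀ v : ℝ, ‖F (((1 / 2 - c : ℝ) : ℂ) + (t + v : ℝ) * I)‖ ≤
      B * (1 + |v|) ^ A * ‖F (((1 / 2 + c : ℝ) : ℂ) + (t + v : ℝ) * I)‖) →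
    ∀ s : ℂ, 1 / 2 - c ≤ s.re → s.re ≤ 1 / 2 + c → s.im = t →
      ‖F s‖ ≤ C * H * B ^ ((1 / 2 + c - s.re) / (2 * c))

end Pool.Agent.N846.ZD
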