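import Pool.Agent.N846.ZD.Data
import Pool.Agent.N846.ZD.Stm3
import Pool.Agent.N846.DU.Left

/-! Lindelof bounds from the absence of zeros: one `L`-function. -/

set_option autoImplicit false

namespace Pool.Agent.N846.ZD

open Filter Topology Complex MeasureTheory Set NumberField IsDedekindDomain
open Pool.Agent.N846.DT (PairF summ_mono' half_exp)
open Pool.Agent.N846.DU (VX LV logRS RS GLFamily Rep LV_nonneg one_le_cond shift_cond S_LEFT S_DIAG)
open Pool.Agent.N846.LM (Twists cond_shift S_CHI)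

theorem term_le {K : Type} [Field K] [NumberField K] (u w : VX K → ℂ) {s : ℂ} (hs : 1 + 1 / 4 ≤ s.re) (x : VX K) :
    ‖u x * (starRingEnd ℂ) (w x) * Complex.exp (-(s * (LV x : ℂ)))‖ ≤
    ‖u x‖ ^ 2 * Real.exp (-((1 + 1 / 4) * LV x)) / 2 + ‖w x‖ ^ 2 * Real.exp (-((1 + 1 / 4) * LV x)) / 2 := by
  refine (Pool.Agent.N846.DU.LeftAux.norm_term_le u w s x).trans ?_
  have h1 : Real.exp (-(s.re * LV x)) ≤ Real.exp (-((1 + 1 / 4) * LV x)) := by
    refine Real.exp_le_exp.2 ?_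
    have := LV_nonneg x
    nlinarith
  have h2 := mul_le_mul_of_nonneg_left h1 (sq_nonneg ‖u x‖)
  have h3 := mul_le_mul_of_nonneg_left h1 (sq_nonneg ‖w x‖)
  linarith

/-- the crude convexity bound, and the region of absolute convergence -/
theorem strip (hL : S_LEFT) (hDi : S_DIAG) (hCv : S_CVX) (K : Type) [Field K] [NumberField K]
    (n N n' N' N'' : ℕ) {η : ℝ} (hη : 0 < η) : ∃ A : ℝ, 1 ≤ A ∧
    ∀ (ι : Type) (S : ι → Finset (HeightOneSpectrum (𝓞 K)))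
      (α : ι → HeightOneSpectrum (𝓞 K) → Fin n → ℂ) (u : ι → VX K → ℂ) (q : ι → ι → ℝ) (κ : ι → ι → Fin N → ℂ)
      (S' : Finset (HeightOneSpectrum (𝓞 K))) (α' : HeightOneSpectrum (𝓞 K) → Fin n' → ℂ) (w : VX K → ℂ) (q' : ℝ)
      (κ' : Fin N'' → ℂ) (qs : ι → ℝ) (μ : ι → Fin N' → ℂ) (L : ι → ℂ → ℂ),
      GLFamily n N S α u q κ → Twists n' N' N'' u S' α' w q' κ' qs μ L →
      ∀ (f : ι) (t C Q Q' : ℝ), 1 ≤ C → 1 ≤ Q → q' * ∏ j, (1 + ‖κ' j‖) ≤ Q' →
        qs f * ∏ j, (1 + ‖μ f j + t * I‖) ≤ C → q f f * ∏ j, (1 + ‖κ f f j‖) ≤ Q → A ≤ C * Q * Q' →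
        (∀ s : ℂ, -1 ≤ s.re → s.re ≤ 5 / 4 → |s.im - t| ≤ 2 → ‖L f s‖ ≤ (C * Q * Q') ^ (4 : ℝ)) ∧
        (∀ s : ℂ, 5 / 4 ≤ s.re → ‖logRS (u f) w s‖ ≤ η * Real.log (C * Q * Q')) ∧
        ContinuousOn (logRS (u f) w) {s : ℂ | 5 / 4 ≤ s.re} := by
  obtain ⟨C₀, hC₀1, hC₀⟩ := hCv 1 (1 / 4) (N' * (1 / 2 + 1)) one_pos (by norm_num) (by positivity)
  have hη'0 : 0 < min (η / 2) (1 / 2) := lt_min (by positivity) (by norm_num)
  obtain ⟨A₁, hA₁1, hA₁⟩ := data hL hDi K n N n' N' N'' (σ₀ := 1) (σ₁ := 1) (c := 1 / 4) (η := min (η / 2) (1 / 2))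
    one_pos one_pos (by norm_num) hη'0
  set η' : ℝ := min (η / 2) (1 / 2) with hη'
  have hη'1 : η' ≤ η / 2 := min_le_left _ _
  have hη'2 : η' ≤ 1 / 2 := min_le_right _ _
  have hA₁0 : 0 < A₁ := by linarith
  refine ⟨max (C₀ * A₁ ^ 2) (A₁ ^ (2 / η)), ?_, ?_⟩
  · refine le_trans ?_ (le_max_left _ _)
    nlinarith [one_le_pow₀ (n := 2) hA₁1]
  intro ι S α u q κ S' α' w q' κ' qs μ L h hT f t C Q Q' hC hQ hcQ' hcC hcQ hAG
  have hC0 : 0 < C := by linarith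
  have hQ0 : 0 < Q := by linarith
  have hQ'1 : 1 ≤ Q' := by
    have h1 := one_le_cond (κ := κ') hT.self.one_le 0
    simp only [add_zero] at h1
    linarith
  have hQ'0 : 0 < Q' := by linarith
  set G : ℝ := C * Q * Q' with hG
  have hCQ1 : 1 ≤ C * Q := by nlinarith
  have hG1 : 1 ≤ G := by
    rw [hG]
    nlinarith
  have hCG : C ≤ G := by
    rw [hG]
    have : C ≤ C * Q := by nlinarith
    nlinarith
  have hG0 : 0 < G := by linarith
  have hTw : Twists n' N' N'' (fun _ : Unit => u f) S' α' w q' κ' (fun _ => qs f) (fun _ => μ f)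
      (fun _ => L f) :=
    ⟨hT.rep, hT.self, fun _ => hT.rs f, fun _ => hT.re_gt f, fun _ => hT.diff f, fun _ => hT.eq f⟩
  have hsub := h.sub (fun _ : Unit => f) (fun a b _ => Subsingleton.elim a b)
  obtain ⟨hd1, hd2, -, hd4⟩ := hA₁ Unit (fun _ => S f) (fun _ => α f) (fun _ => u f) (fun _ _ => q f f)
    (fun _ _ => κ f f) S' α' w q' κ' (fun _ => qs f) (fun _ => μ f) (fun _ => L f) hsub hTw (fun _ => t) C Q Q'
    hC hQ hcQ' (fun _ => hcC) (fun _ _ => by simpa using hcQ)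
  obtain ⟨hPF, hleft⟩ := hd4 ()
  have hu := (h.rep f).summable (1 + 1 / 4) (by norm_num)
  have hw := hT.rep.summable (1 + 1 / 4) (by norm_num)
  set a : ℝ := (∑' x : VX K, ‖u f x‖ ^ 2 * Real.exp (-((1 + 1 / 4) * LV x))) / 2 +
    (∑' x : VX K, ‖w x‖ ^ 2 * Real.exp (-((1 + 1 / 4) * LV x))) / 2 with ha
  have hexpa : Real.exp a ≤ A₁ * G ^ η' := half_exp (hd1 ()) hd2
  have hsum : Summable fun x : VX K => ‖u f x‖ ^ 2 * Real.exp (-((1 + 1 / 4) * LV x)) / 2 +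
      ‖w x‖ ^ 2 * Real.exp (-((1 + 1 / 4) * LV x)) / 2 := (hu.div_const 2).add (hw.div_const 2)
  have hlog : ∀ s : ℂ, 5 / 4 ≤ s.re → ‖logRS (u f) w s‖ ≤ a := by
    intro s hs
    have hs' : 1 + 1 / 4 ≤ s.re := by linarith
    have h3 : Summable fun x : VX K =>
        ‖u f x * (starRingEnd ℂ) (w x) * Complex.exp (-(s * (LV x : ℂ)))‖ :=
      Summable.of_nonneg_of_le (fun _ => norm_nonneg _) (term_le (u f) w hs') hsum
    unfold logRS
    refine (norm_tsum_le_tsum_norm h3).trans ?_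
    rw [ha, ← tsum_div_const, ← tsum_div_const, ← (hu.div_const 2).tsum_add (hw.div_const 2)]
    exact h3.tsum_le_tsum (term_le (u f) w hs') hsum
  have hGη : 1 ≤ G ^ η' := Real.one_le_rpow hG1 hη'0.le
  have hD1 : 1 ≤ A₁ * G ^ η' := by nlinarith
  refine ⟨?_, ?_, ?_⟩
  · intro s hs1 hs2 hs3
    have h1 := hC₀ (L f) t (A₁ * C ^ (1 / 2 + 1 : ℝ) * G ^ η') (A₁ * G ^ η') (hT.diff f) hPF.growth ?_ hD1
      (fun v => hleft v) ?_ s hs1 (by linarith) hs3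
    · refine h1.trans ?_
      have e1 : C ^ (1 / 2 + 1 : ℝ) ≤ G ^ (3 / 2 : ℝ) := by
        rw [show (1 / 2 + 1 : ℝ) = 3 / 2 by norm_num]
        exact Real.rpow_le_rpow hC0.le hCG (by norm_num)
      have e2 : G ^ η' ≤ G ^ (1 / 2 : ℝ) := Real.rpow_le_rpow_of_exponent_le hG1 hη'2
      have e3 : C₀ * A₁ ^ 2 ≤ G := (le_max_left _ _).trans hAG
      have hC₀0 : 0 < C₀ := by linarith
      calc C₀ * (A₁ * C ^ (1 / 2 + 1 : ℝ) * G ^ η' * (A₁ * G ^ η'))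
          = (C₀ * A₁ ^ 2) * (C ^ (1 / 2 + 1 : ℝ) * (G ^ η' * G ^ η')) := by ring
        _ ≤ G * (G ^ (3 / 2 : ℝ) * (G ^ (1 / 2 : ℝ) * G ^ (1 / 2 : ℝ))) := by
            refine mul_le_mul e3 ?_ (by positivity) hG0.le
            refine mul_le_mul e1 ?_ (by positivity) (by positivity)
            exact mul_le_mul e2 e2 (by positivity) (by positivity)
        _ = G ^ (7 / 2 : ℝ) := by
            nth_rewrite 1 [← Real.rpow_one G]
            rw [← Real.rpow_add hG0, ← Real.rpow_add hG0, ← Real.rpow_add hG0]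
            norm_num
        _ ≤ G ^ (4 : ℝ) := Real.rpow_le_rpow_of_exponent_le hG1 (by norm_num)
    · have e1 : 1 ≤ C ^ (1 / 2 + 1 : ℝ) := Real.one_le_rpow hC (by norm_num)
      have e2 : 1 ≤ A₁ * C ^ (1 / 2 + 1 : ℝ) := by nlinarith
      nlinarith
    · intro v
      have hre : (((1 + 1 / 4 : ℝ) : ℂ) + (t + v : ℝ) * I).re = 5 / 4 := by
        simp only [add_re, ofReal_re, mul_re, I_re, mul_zero, ofReal_im, I_im, mul_one, sub_self, add_zero]
        norm_num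
      rw [hT.eq f _ (by rw [hre]; norm_num), Complex.norm_exp]
      refine le_trans (Real.exp_le_exp.2 ?_) hexpa
      exact (Complex.re_le_norm _).trans (hlog _ hre.ge)
  · intro s hs
    refine (hlog s hs).trans ?_
    have h1 : a ≤ Real.log (A₁ * G ^ η') := (Real.le_log_iff_exp_le (by positivity)).2 hexpa
    rw [Real.log_mul hA₁0.ne' (by positivity), Real.log_rpow hG0] at h1
    have h2 : Real.log A₁ ≤ η / 2 * Real.log G := by
      rw [← Real.log_rpow hG0]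
      refine Real.log_le_log hA₁0 ?_
      have h3 : (A₁ ^ (2 / η)) ^ (η / 2) ≤ G ^ (η / 2) :=
        Real.rpow_le_rpow (by positivity) ((le_max_right _ _).trans hAG) (by positivity)
      rw [← Real.rpow_mul hA₁0.le, show 2 / η * (η / 2) = 1 by field_simp, Real.rpow_one] at h3
      exact h3
    have h4 : η' * Real.log G ≤ η / 2 * Real.log G := mul_le_mul_of_nonneg_right hη'1 (Real.log_nonneg hG1)
    linarith
  · refine continuousOn_tsum (fun x => ?_) hsum fun x s hs => ?_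
    · fun_prop
    · have hs0 : 5 / 4 ≤ s.re := hs
      exact term_le (u f) w (by linarith) x

/-- no zeros: Lindelof bounds -/
theorem one (hL : S_LEFT) (hDi : S_DIAG) (hCv : S_CVX) (hTc : S_TC) (K : Type) [Field K] [NumberField K]
    (n N n' N' N'' : ℕ) {σ σ' δ : ℝ} (h0 : 0 ≤ σ) (h1 : σ < σ') (h2 : σ' ≤ 1) (hδ : 0 < δ) : ∃ A : ℝ, 1 ≤ A ∧
    ∀ (ι : Type) (S : ι → Finset (HeightOneSpectrum (𝓞 K)))
      (α : ι → HeightOneSpectrum (𝓞 K) → Fin n → ℂ) (u : ι → VX K → ℂ) (q : ι → ι → ℝ) (κ : ι → ι → Fin N → ℂ)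
      (S' : Finset (HeightOneSpectrum (𝓞 K))) (α' : HeightOneSpectrum (𝓞 K) → Fin n' → ℂ) (w : VX K → ℂ) (q' : ℝ)
      (κ' : Fin N'' → ℂ) (qs : ι → ℝ) (μ : ι → Fin N' → ℂ) (L : ι → ℂ → ℂ),
      GLFamily n N S α u q κ → Twists n' N' N'' u S' α' w q' κ' qs μ L →
      ∀ (f : ι) (t C Q Q' : ℝ), 1 ≤ C → 1 ≤ Q → q' * ∏ j, (1 + ‖κ' j‖) ≤ Q' →
        qs f * ∏ j, (1 + ‖μ f j + t * I‖) ≤ C → q f f * ∏ j, (1 + ‖κ f f j‖) ≤ Q → A ≤ C * Q * Q' →
        (∀ s : ℂ, σ < s.re → |s.im - t| < 2 → L f s ≠ 0) →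
        ∀ s : ℂ, σ' ≤ s.re → s.im = t →
          (C * Q * Q') ^ (-δ) ≤ ‖L f s‖ ∧ ‖L f s‖ ≤ (C * Q * Q') ^ δ := by
  obtain ⟨η₀, hη₀, hTC⟩ := hTc σ (σ' - σ) (δ / 4) h0 (by linarith) (by linarith) (by positivity)
  have hη : 0 < min (4 * η₀) 1 := lt_min (by positivity) one_pos
  obtain ⟨A, hA1, hA⟩ := strip hL hDi hCv K n N n' N' N'' hη
  refine ⟨A, hA1, ?_⟩
  intro ι S α u q κ S' α' w q' κ' qs μ L h hT f t C Q Q' hC hQ hcQ' hcC hcQ hAG hnz s hs1 hs2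
  obtain ⟨hst, hlg, hcont⟩ := hA ι S α u q κ S' α' w q' κ' qs μ L h hT f t C Q Q' hC hQ hcQ' hcC hcQ hAG
  set G : ℝ := C * Q * Q' with hG
  have hG1 : 1 ≤ G := hA1.trans hAG
  have hG0 : 0 < G := by linarith
  have hlG : 0 ≤ Real.log G := Real.log_nonneg hG1
  have hG4 : G ^ (4 : ℝ) = Real.exp (4 * Real.log G) := by
    rw [Real.rpow_def_of_pos hG0, mul_comm]
  have hexp : ∀ s : ℂ, 5 / 4 ≤ s.re → L f s = Complex.exp (logRS (u f) w s) := fun s hs =>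
    hT.eq f s (by linarith)
  have h3 := hTC (L f) (logRS (u f) w) t (4 * Real.log G) (by positivity) (hT.diff f) hnz ?_ hexp hcont ?_ s
    (by linarith) hs2
  · have e1 : δ / 4 * (4 * Real.log G) = δ * Real.log G := by ring
    rw [e1] at h3
    rw [Real.rpow_def_of_pos hG0, Real.rpow_def_of_pos hG0]
    rw [show Real.log G * -δ = -(δ * Real.log G) by ring, show Real.log G * δ = δ * Real.log G by ring]
    exact h3
  · intro s hs3 hs4 hs5
    rw [← hG4]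
    rcases le_total s.re (5 / 4) with h6 | h6
    · exact hst s (by linarith) h6 hs5.le
    · rw [hexp s h6, Complex.norm_exp, hG4]
      refine Real.exp_le_exp.2 ((Complex.re_le_norm _).trans ((hlg s h6).trans ?_))
      have : min (4 * η₀) 1 * Real.log G ≤ 1 * Real.log G := mul_le_mul_of_nonneg_right (min_le_right _ _) hlG
      linarith
  · intro s hs3
    refine (hlg s hs3).trans ?_
    have : min (4 * η₀) 1 * Real.log G ≤ (4 * η₀) * Real.log G := mul_le_mul_of_nonneg_right (min_le_left _ _) hlG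
    linarith

/-- the critical strip -/
theorem crit (hL : S_LEFT) (hDi : S_DIAG) (hCv : S_CVX) (hTl : S_TL) (hCh : S_CHI) (K : Type) [Field K]
    [NumberField K] (n N n' N' N'' : ℕ) {c : ℝ} (hc : 0 < c) (hc4 : c ≤ 1 / 4) : ∃ A : ℝ, 1 ≤ A ∧
    ∀ (ι : Type) (S : ι → Finset (HeightOneSpectrum (𝓞 K)))
      (α : ι → HeightOneSpectrum (𝓞 K) → Fin n → ℂ) (u : ι → VX K → ℂ) (q : ι → ι → ℝ) (κ : ι → ι → Fin N → ℂ)
      (S' : Finset (HeightOneSpectrum (𝓞 K))) (α' : HeightOneSpectrum (𝓞 K) → Fin n' → ℂ) (w : VX K → ℂ) (q' : ℝ)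
      (κ' : Fin N'' → ℂ) (qs : ι → ℝ) (μ : ι → Fin N' → ℂ) (L : ι → ℂ → ℂ),
      GLFamily n N S α u q κ → Twists n' N' N'' u S' α' w q' κ' qs μ L →
      ∀ (f : ι) (t C Q Q' H : ℝ), 1 ≤ C → 1 ≤ Q → q' * ∏ j, (1 + ‖κ' j‖) ≤ Q' →
        qs f * ∏ j, (1 + ‖μ f j + t * I‖) ≤ C → q f f * ∏ j, (1 + ‖κ f f j‖) ≤ Q → A ≤ C * Q * Q' → 1 ≤ H →
        (∀ v : ℝ, |v| ≤ Real.log (C * Q * Q') → ‖L f (((1 / 2 + c : ℝ) : ℂ) + (t + v : ℝ) * I)‖ ≤ H) →
        ∀ s : ℂ, 1 / 2 - c ≤ s.re → s.re ≤ 1 / 2 + c → s.im = t →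
          ‖L f s‖ ≤ A * H * C ^ ((1 / 2 + c - s.re) / 2) := by
  obtain ⟨A₀, hA₀1, hA₀⟩ := strip hL hDi hCv K n N n' N' N'' one_pos
  obtain ⟨C₁, hC₁0, hC₁⟩ := hCh N' c hc hc4
  obtain ⟨C₂, hC₂1, hC₂⟩ := hTl c (4 * N') hc hc4 (by positivity)
  set E : ℝ := 1 + C₁ * ((3 / 2 : ℝ) ^ N') ^ c with hE
  have hE1 : 1 ≤ E := by
    have : 0 < C₁ * ((3 / 2 : ℝ) ^ N') ^ c := by positivity
    linarith
  refine ⟨max (max A₀ (Real.exp 8)) (C₂ * E), hA₀1.trans ((le_max_left _ _).trans (le_max_left _ _)), ?_⟩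
  intro ι S α u q κ S' α' w q' κ' qs μ L h hT f t C Q Q' H hC hQ hcQ' hcC hcQ hAG hH hbd s hs1 hs2 hs3
  have hAG0 : A₀ ≤ C * Q * Q' := ((le_max_left _ _).trans (le_max_left _ _)).trans hAG
  have hAG1 : Real.exp 8 ≤ C * Q * Q' := ((le_max_right _ _).trans (le_max_left _ _)).trans hAG
  have hC0 : 0 < C := by linarith
  have hQ0 : 0 < Q := by linarith
  have hQ'1 : 1 ≤ Q' := by
    have h1 := one_le_cond (κ := κ') hT.self.one_le 0
    simp only [add_zero] at h1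
    linarith
  have hQ'0 : 0 < Q' := by linarith
  have hqs1 := (hT.rs f).one_le
  have hG1 : 1 ≤ C * Q * Q' := hA₀1.trans hAG0
  have hG0 : 0 < C * Q * Q' := by linarith
  obtain ⟨χ, -, hfe, hχ, -, -⟩ := hC₁ K (u f) w (qs f) (μ f) (L f) (hT.rs f) (hT.re_gt f) (hT.diff f) (hT.eq f)
  have hPF : ∀ a b : ℝ, ∃ C' A' : ℝ, ∀ s : ℂ, a ≤ s.re → s.re ≤ b → ‖L f s‖ ≤ C' * (1 + |s.im|) ^ A' := by
    obtain ⟨CM, hCM0, hCM⟩ := hL N' 1 one_pos
    obtain ⟨F, hF1, hF2, hF3, -, -⟩ := hCM K (u f) w (qs f) (μ f) 0 (by norm_num) (hT.rs f)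
      (h.rep f).summable hT.rep.summable
    have hFL : L f = F := by
      refine entire_eq (hT.diff f) hF1 fun s hs => ?_
      rw [hT.eq f s hs, hF2 s hs, pow_zero, one_mul]
    rw [hFL]
    exact hF3
  have hlog8 : 8 ≤ Real.log (C * Q * Q') := (Real.le_log_iff_exp_le hG0).2 hAG1
  have hcond : ∀ v : ℝ, qs f * ∏ j, (1 + ‖μ f j + ((t + v : ℝ) : ℂ) * I‖) ≤ C * (1 + |v|) ^ N' := by
    intro v
    have h3 := shift_cond (κ := μ f) hqs1 (z := (t : ℂ) * I) (w := 0) (c := 0) (by simp) v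
    rw [add_zero, one_pow, one_mul] at h3
    refine le_trans (le_of_eq ?_) (h3.trans (mul_le_mul_of_nonneg_right hcC (by positivity)))
    congr 1
    refine Finset.prod_congr rfl fun j _ => ?_
    congr 2
    push_cast
    ring
  have hv1 : ∀ v : ℝ, (1 : ℝ) ≤ (1 + |v|) ^ N' := fun v => one_le_pow₀ (by linarith [abs_nonneg v])
  have hcondh : qs f * ∏ j, (1 + ‖μ f j + (1 / 2 + t * I)‖) ≤ (3 / 2 : ℝ) ^ N' * C := by
    have h3 := Pool.Agent.N846.DU.shift_cond' (κ := μ f) hqs1 (z := (t : ℂ) * I) (w := 1 / 2) (c := 1 / 2)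
      (by norm_num)
    rw [show (1 + 1 / 2 : ℝ) = 3 / 2 by norm_num] at h3
    refine le_trans (le_of_eq ?_) (h3.trans (mul_le_mul_of_nonneg_left hcC (by positivity)))
    congr 1
    refine Finset.prod_congr rfl fun j _ => ?_
    congr 2
    ring
  have hcondh0 : 0 ≤ qs f * ∏ j, (1 + ‖μ f j + (1 / 2 + t * I)‖) := by
    have := one_le_cond (κ := μ f) hqs1 (1 / 2 + t * I)
    linarith
  have hB1 : 1 ≤ E * C ^ c := by
    have := Real.one_le_rpow hC hc.le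
    nlinarith
  have h5 := hC₂ (L f) t (E * C ^ c) H ((C * Q * Q') ^ (4 : ℝ)) (Real.log (C * Q * Q')) (hT.diff f) hPF hB1 hH
    (by positivity) (by linarith) ?_ hbd ?_ ?_ s hs1 hs2 hs3
  · refine h5.trans ?_
    set θ : ℝ := (1 / 2 + c - s.re) / (2 * c) with hθ
    have hθ0 : 0 ≤ θ := div_nonneg (by linarith) (by linarith)
    have hθ1 : θ ≤ 1 := by
      rw [hθ, div_le_one (by positivity)]
      linarith
    have e1 : (E * C ^ c) ^ θ = E ^ θ * C ^ ((1 / 2 + c - s.re) / 2) := by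
      rw [Real.mul_rpow (by positivity) (by positivity), ← Real.rpow_mul hC0.le]
      congr 2
      rw [hθ]
      field_simp
    have e2 : E ^ θ ≤ E := by
      calc E ^ θ ≤ E ^ (1 : ℝ) := Real.rpow_le_rpow_of_exponent_le hE1 hθ1
        _ = E := Real.rpow_one E
    rw [e1]
    have hC₂0 : 0 < C₂ := by linarith
    have hH0 : 0 < H := by linarith
    have hp : 0 < C ^ ((1 / 2 + c - s.re) / 2) := by positivity
    calc C₂ * H * (E ^ θ * C ^ ((1 / 2 + c - s.re) / 2))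
        = E ^ θ * (C₂ * H * C ^ ((1 / 2 + c - s.re) / 2)) := by ring
      _ ≤ E * (C₂ * H * C ^ ((1 / 2 + c - s.re) / 2)) := mul_le_mul_of_nonneg_right e2 (by positivity)
      _ = C₂ * E * (H * C ^ ((1 / 2 + c - s.re) / 2)) := by ring
      _ ≤ max (max A₀ (Real.exp 8)) (C₂ * E) * (H * C ^ ((1 / 2 + c - s.re) / 2)) :=
          mul_le_mul_of_nonneg_right (le_max_right _ _) (by positivity)
      _ = _ := by ring
  · rw [Real.rpow_def_of_pos hG0, ← Real.exp_add]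
    refine Real.exp_le_one_iff.2 ?_
    nlinarith
  · intro v
    have hCv1 : 1 ≤ C * (1 + |v|) ^ N' := by nlinarith [hv1 v]
    have hbig : C * Q * Q' ≤ C * (1 + |v|) ^ N' * Q * Q' := by
      have : C * (1 + |v|) ^ N' * Q * Q' = C * Q * Q' * (1 + |v|) ^ N' := by ring
      rw [this]
      exact le_mul_of_one_le_right hG0.le (hv1 v)
    obtain ⟨h6, -, -⟩ := hA₀ ι S α u q κ S' α' w q' κ' qs μ L h hT f (t + v) (C * (1 + |v|) ^ N') Q Q' hCv1 hQ
      hcQ' (hcond v) hcQ (hAG0.trans hbig)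
    refine (h6 _ ?_ ?_ ?_).trans (le_of_eq ?_)
    · simp only [add_re, ofReal_re, mul_re, I_re, mul_zero, ofReal_im, I_im, mul_one, sub_self, add_zero]
      linarith
    · simp only [add_re, ofReal_re, mul_re, I_re, mul_zero, ofReal_im, I_im, mul_one, sub_self, add_zero]
      linarith
    · simp only [add_im, ofReal_im, mul_im, ofReal_re, I_im, mul_one, I_re, mul_zero, add_zero, zero_add, sub_self,
        abs_zero]
      norm_num
    · rw [show C * (1 + |v|) ^ N' * Q * Q' = C * Q * Q' * (1 + |v|) ^ N' by ring,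
        Real.mul_rpow hG0.le (by positivity), ← Real.rpow_natCast (1 + |v|) N', ← Real.rpow_mul (by positivity)]
      ring_nf
  · intro v
    have hre : (((1 / 2 - c : ℝ) : ℂ) + (t + v : ℝ) * I).re < 1 / 2 := by
      simp only [add_re, ofReal_re, mul_re, I_re, mul_zero, ofReal_im, I_im, mul_one, sub_self, add_zero]
      linarith
    have e1 : 1 - (starRingEnd ℂ) (((1 / 2 - c : ℝ) : ℂ) + (t + v : ℝ) * I) =
        ((1 / 2 + c : ℝ) : ℂ) + (t + v : ℝ) * I := by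
      apply Complex.ext
      · simp
        ring
      · simp
    rw [hfe _ hre, e1, norm_mul, RCLike.norm_conj]
    refine mul_le_mul_of_nonneg_right ?_ (norm_nonneg _)
    have h7 := hχ t v
    refine le_trans (le_of_eq ?_) (h7.trans ?_)
    · push_cast
      rfl
    have e2 : (qs f * ∏ j, (1 + ‖μ f j + (1 / 2 + t * I)‖)) ^ c ≤ ((3 / 2 : ℝ) ^ N') ^ c * C ^ c := by
      rw [← Real.mul_rpow (by positivity) hC0.le]
      exact Real.rpow_le_rpow hcondh0 hcondh hc.le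
    have e3 : (1 + |v|) ^ (N' : ℝ) ≤ (1 + |v|) ^ (4 * (N' : ℝ)) := by
      refine Real.rpow_le_rpow_of_exponent_le (by linarith [abs_nonneg v]) ?_
      have : (0 : ℝ) ≤ N' := Nat.cast_nonneg _
      linarith
    have e4 : C₁ * ((qs f * ∏ j, (1 + ‖μ f j + (1 / 2 + t * I)‖)) ^ c) ≤ E * C ^ c := by
      have : 0 ≤ C ^ c := by positivity
      calc _ ≤ C₁ * (((3 / 2 : ℝ) ^ N') ^ c * C ^ c) := mul_le_mul_of_nonneg_left e2 hC₁0.le
        _ = (C₁ * ((3 / 2 : ℝ) ^ N') ^ c) * C ^ c := by ring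
        _ ≤ E * C ^ c := mul_le_mul_of_nonneg_right (by linarith) this
    exact mul_le_mul e4 e3 (by positivity) (by positivity)

end Pool.Agent.N846.ZD
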