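import Pool.Agent.N846.ZD.Lind2

/-! Large values in the critical strip. -/

set_option autoImplicit false

namespace Pool.Agent.N846.ZD

open Filter Topology Complex MeasureTheory Set NumberField IsDedekindDomain
open Pool.Agent.N846.DT (dens dens_le_one)
open Pool.Agent.N846.DU (VX LV logRS RS GLFamily Rep LV_nonneg one_le_cond shift_cond shift_cond' S_LEFT S_DIAG)
open Pool.Agent.N846.LM (Twists cond_shift S_CHI)

theorem logpow (N N' : ℕ) {e : ℝ} (he : 0 < e) : ∃ G₀ : ℝ, 1 ≤ G₀ ∧ ∀ G : ℝ, G₀ ≤ G →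
    (1 + Real.log G) ^ N' * (1 + 2 * Real.log G) ^ N ≤ G ^ e := by
  have h1 : ∀ᶠ G : ℝ in atTop, 1 + 2 * Real.log G ≤ G ^ (e / (N + N' + 1)) := by
    have h2 := (isLittleO_log_rpow_atTop (by positivity : 0 < e / (N + N' + 1))).bound
      (show (0 : ℝ) < 1 / 4 by norm_num)
    filter_upwards [h2, eventually_ge_atTop (1 : ℝ),
      (tendsto_rpow_atTop (by positivity : 0 < e / (N + N' + 1))).eventually_ge_atTop 2] with X hX hX1 hX2
    rw [Real.norm_of_nonneg (Real.log_nonneg hX1), Real.norm_of_nonneg (by positivity)] at hX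
    linarith
  obtain ⟨G₀, hG₀⟩ := eventually_atTop.1 (h1.and (eventually_ge_atTop 1))
  refine ⟨max 1 G₀, le_max_left _ _, fun G hG => ?_⟩
  obtain ⟨h2, h3⟩ := hG₀ G ((le_max_right _ _).trans hG)
  have hG0 : 0 < G := by linarith
  have hl := Real.log_nonneg h3
  have hp : 1 ≤ G ^ (e / (N + N' + 1)) := Real.one_le_rpow h3 (by positivity)
  calc (1 + Real.log G) ^ N' * (1 + 2 * Real.log G) ^ N
      ≤ (G ^ (e / (N + N' + 1))) ^ N' * (G ^ (e / (N + N' + 1))) ^ N := by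
        refine mul_le_mul (pow_le_pow_left₀ (by linarith) (by linarith) _)
          (pow_le_pow_left₀ (by linarith) h2 _) (by positivity) (by positivity)
    _ = (G ^ (e / (N + N' + 1))) ^ (N + N') := by rw [← pow_add, add_comm N' N]
    _ ≤ (G ^ (e / (N + N' + 1))) ^ (N + N' + 1) := pow_le_pow_right₀ hp (by omega)
    _ = G ^ e := by
        rw [← Real.rpow_natCast, ← Real.rpow_mul hG0.le]
        congr 1
        push_cast
        field_simp

/-- arbitrary families: large values in the critical strip -/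
theorem val_crit (hPow : S_POW) (hMo : S_MOLL) (hBl : S_BLOCK) (hDe : S_DETECT) (hL : S_LEFT) (hDi : S_DIAG)
    (hCv : S_CVX) (hTc : S_TC) (hTl : S_TL) (hCh : S_CHI) (K : Type) [Field K] [NumberField K] (n N n' N' N'' : ℕ)
    {ε σ : ℝ} (hε : 0 < ε) (hσ : 1 / 2 < σ) (hσ1 : σ ≤ 3 / 4) : ∃ A : ℝ, 1 ≤ A ∧
    ∀ (ι : Type) (S : ι → Finset (HeightOneSpectrum (𝓞 K)))
      (α : ι → HeightOneSpectrum (𝓞 K) → Fin n → ℂ) (u : ι → VX K → ℂ) (q : ι → ι → ℝ) (κ : ι → ι → Fin N → ℂ)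
      (S' : Finset (HeightOneSpectrum (𝓞 K))) (α' : HeightOneSpectrum (𝓞 K) → Fin n' → ℂ) (w : VX K → ℂ) (q' : ℝ)
      (κ' : Fin N'' → ℂ) (qs : ι → ℝ) (μ : ι → Fin N' → ℂ) (L : ι → ℂ → ℂ),
      GLFamily n N S α u q κ → Twists n' N' N'' u S' α' w q' κ' qs μ L →
      ∀ (T : Set ι) (s : ι → ℂ) (C Q Q' : ℝ), 1 ≤ C → 1 ≤ Q → q' * ∏ j, (1 + ‖κ' j‖) ≤ Q' → A ≤ C * Q * Q' →
        (∀ f ∈ T, 1 - σ ≤ (s f).re ∧ (s f).re ≤ σ ∧
          (C * Q * Q') ^ ε * C ^ ((σ - (s f).re) / 2) < ‖L f (s f)‖) →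
        (∀ f ∈ T, qs f * ∏ j, (1 + ‖μ f j + (s f).im * I‖) ≤ C) →
        (∀ f ∈ T, ∀ g ∈ T, q f g * ∏ j, (1 + ‖κ f g j + ((s f).im - (s g).im) * I‖) ≤ Q) →
        T.Finite ∧ (T.ncard : ℝ) ≤ (C * Q * Q') ^ ε * Q ^ dens (σ - 1 / 2) * C ^ ((1 - σ) / σ) := by
  obtain ⟨A₁, hA₁1, hA₁⟩ := val_all hPow hMo hBl hDe hL hDi hCv hTc K n N n' N' N'' (ε := ε / 8) (σ := σ)
    (by positivity) hσ (by linarith)
  obtain ⟨A₂, hA₂1, hA₂⟩ := crit hL hDi hCv hTl hCh K n N n' N' N'' (c := σ - 1 / 2) (by linarith) (by linarith)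
  obtain ⟨G₀, hG₀1, hG₀⟩ := logpow N N' (e := min (ε / 4) 1) (lt_min (by positivity) one_pos)
  have hA₂0 : 0 < A₂ := by linarith
  refine ⟨max (max A₁ A₂) (max G₀ (A₂ ^ (2 / ε))), hA₁1.trans ((le_max_left _ _).trans (le_max_left _ _)), ?_⟩
  intro ι S α u q κ S' α' w q' κ' qs μ L h hT T s C Q Q' hC hQ hcQ' hAG hbad hcC hcQ
  have hAG1 : A₁ ≤ C * Q * Q' := ((le_max_left _ _).trans (le_max_left _ _)).trans hAG
  have hAG2 : A₂ ≤ C * Q * Q' := ((le_max_right _ _).trans (le_max_left _ _)).trans hAG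
  have hAG3 : G₀ ≤ C * Q * Q' := ((le_max_left _ _).trans (le_max_right _ _)).trans hAG
  have hAG4 : A₂ ^ (2 / ε) ≤ C * Q * Q' := ((le_max_right _ _).trans (le_max_right _ _)).trans hAG
  have hC0 : 0 < C := by linarith
  have hQ0 : 0 < Q := by linarith
  have hQ'1 : 1 ≤ Q' := by
    have h2 := one_le_cond (κ := κ') hT.self.one_le 0
    simp only [add_zero] at h2
    linarith
  have hQ'0 : 0 < Q' := by linarith
  have hq1 : ∀ f g, 1 ≤ q f g := by
    intro f g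
    by_cases hfg : f = g
    · rw [hfg]
      exact (h.self g).one_le
    · exact (h.pair f g hfg).one_le
  have hG1 : 1 ≤ C * Q * Q' := hA₁1.trans hAG1
  have hG0 : 0 < C * Q * Q' := by linarith
  have hlG := Real.log_nonneg hG1
  set G : ℝ := C * Q * Q' with hG
  have hch : ∀ f, ∃ v : ℝ, f ∈ T → |v| ≤ Real.log G ∧ G ^ (ε / 2) < ‖L f ((σ : ℂ) + ((s f).im + v : ℝ) * I)‖ := by
    intro f
    by_cases hf : f ∈ T
    · by_contra hne
      push Not at hne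
      obtain ⟨hr1, hr2, hb⟩ := hbad f hf
      have hcQf : q f f * ∏ j, (1 + ‖κ f f j‖) ≤ Q := by
        have := hcQ f hf f hf
        simpa only [sub_self, zero_mul, add_zero] using this
      have h3 := hA₂ ι S α u q κ S' α' w q' κ' qs μ L h hT f (s f).im C Q Q' (G ^ (ε / 2)) hC hQ hcQ' (hcC f hf)
        hcQf hAG2 (Real.one_le_rpow hG1 (by positivity)) (fun v hv => by
          rw [show (1 / 2 + (σ - 1 / 2) : ℝ) = σ by ring]
          exact (hne v).2 hv) (s f) (by linarith) (by linarith) rfl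
      rw [show (1 / 2 + (σ - 1 / 2) : ℝ) = σ by ring] at h3
      have h4 : A₂ ≤ G ^ (ε / 2) := by
        have h5 : (A₂ ^ (2 / ε)) ^ (ε / 2) ≤ G ^ (ε / 2) := Real.rpow_le_rpow (by positivity) hAG4 (by positivity)
        rw [← Real.rpow_mul hA₂0.le, show 2 / ε * (ε / 2) = 1 by field_simp, Real.rpow_one] at h5
        exact h5
      have h6 : A₂ * G ^ (ε / 2) * C ^ ((σ - (s f).re) / 2) ≤ G ^ ε * C ^ ((σ - (s f).re) / 2) := by
        refine mul_le_mul_of_nonneg_right ?_ (by positivity)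
        calc A₂ * G ^ (ε / 2) ≤ G ^ (ε / 2) * G ^ (ε / 2) := mul_le_mul_of_nonneg_right h4 (by positivity)
          _ = G ^ ε := by
            rw [← Real.rpow_add hG0]
            congr 1
            ring
      linarith
    · exact ⟨0, fun h' => absurd h' hf⟩
  choose v hv using hch
  set s' : ι → ℂ := fun f => (σ : ℂ) + ((s f).im + v f : ℝ) * I with hs'
  have him : ∀ f, (s' f).im = (s f).im + v f := fun f => by simp [hs']
  have hre : ∀ f, (s' f).re = σ := fun f => by simp [hs']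
  set C₁ : ℝ := (1 + Real.log G) ^ N' * C with hC₁
  set Q₁ : ℝ := (1 + 2 * Real.log G) ^ N * Q with hQ₁
  have hl1 : 1 ≤ (1 + Real.log G) ^ N' := one_le_pow₀ (by linarith)
  have hl2 : 1 ≤ (1 + 2 * Real.log G) ^ N := one_le_pow₀ (by linarith)
  have hC₁1 : C ≤ C₁ := le_mul_of_one_le_left hC0.le hl1
  have hQ₁1 : Q ≤ Q₁ := le_mul_of_one_le_left hQ0.le hl2
  have hC₁0 : 0 < C₁ := by linarith
  have hQ₁0 : 0 < Q₁ := by linarith
  have hlp := hG₀ G hAG3
  have hmin1 : G ^ min (ε / 4) 1 ≤ G ^ (ε / 4) := Real.rpow_le_rpow_of_exponent_le hG1 (min_le_left _ _)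
  have hmin2 : G ^ min (ε / 4) 1 ≤ G := by
    calc G ^ min (ε / 4) 1 ≤ G ^ (1 : ℝ) := Real.rpow_le_rpow_of_exponent_le hG1 (min_le_right _ _)
      _ = G := Real.rpow_one G
  have hGG : G ≤ C₁ * Q₁ * Q' := by
    rw [hG]
    exact mul_le_mul_of_nonneg_right (mul_le_mul hC₁1 hQ₁1 hQ0.le hC₁0.le) hQ'0.le
  have hG₁ : C₁ * Q₁ * Q' = ((1 + Real.log G) ^ N' * (1 + 2 * Real.log G) ^ N) * G := by
    rw [hC₁, hQ₁]
    simp only [hG]
    ring
  have hG₁2 : C₁ * Q₁ * Q' ≤ G ^ (2 : ℝ) := by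
    rw [hG₁]
    calc _ ≤ G * G := mul_le_mul_of_nonneg_right (hlp.trans hmin2) hG0.le
      _ = G ^ (2 : ℝ) := by
        rw [Real.rpow_two]
        ring
  have hG₁0 : 0 < C₁ * Q₁ * Q' := by positivity
  have hGe : (C₁ * Q₁ * Q') ^ (ε / 8) ≤ G ^ (ε / 4) := by
    calc _ ≤ (G ^ (2 : ℝ)) ^ (ε / 8) := Real.rpow_le_rpow hG₁0.le hG₁2 (by positivity)
      _ = G ^ (ε / 4) := by
        rw [← Real.rpow_mul hG0.le]
        congr 1
        ring
  have f1 : ∀ f ∈ T, σ ≤ (s' f).re ∧ ¬((C₁ * Q₁ * Q') ^ (-(ε / 8)) ≤ ‖L f (s' f)‖ ∧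
      ‖L f (s' f)‖ ≤ (C₁ * Q₁ * Q') ^ (ε / 8)) := by
    intro f hf
    refine ⟨(hre f).ge, fun hh => ?_⟩
    have h3 := (hv f hf).2
    have h4 := hh.2.trans hGe
    have h5 : G ^ (ε / 4) ≤ G ^ (ε / 2) := Real.rpow_le_rpow_of_exponent_le hG1 (by linarith)
    have h6 : ‖L f ((σ : ℂ) + ((s f).im + v f : ℝ) * I)‖ ≤ G ^ (ε / 4) := h4
    linarith
  have f2 : ∀ f ∈ T, qs f * ∏ j, (1 + ‖μ f j + (s' f).im * I‖) ≤ C₁ := by
    intro f hf
    have h3 := shift_cond' (κ := μ f) (hT.rs f).one_le (z := ((s f).im : ℂ) * I)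
      (w := ((v f : ℝ) : ℂ) * I) (c := Real.log G) (by
        rw [norm_mul, Complex.norm_I, mul_one, Complex.norm_real, Real.norm_eq_abs]
        exact (hv f hf).1)
    refine le_trans (le_of_eq ?_) (h3.trans (mul_le_mul_of_nonneg_left (hcC f hf) (by positivity)))
    congr 1
    refine Finset.prod_congr rfl fun j _ => ?_
    rw [him f]
    congr 2
    push_cast
    ring
  have f3 : ∀ f ∈ T, ∀ g ∈ T, q f g * ∏ j, (1 + ‖κ f g j + ((s' f).im - (s' g).im) * I‖) ≤ Q₁ := by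
    intro f hf g hg
    have h3 := shift_cond' (κ := κ f g) (hq1 f g) (z := (((s f).im : ℂ) - (s g).im) * I)
      (w := ((v f - v g : ℝ) : ℂ) * I) (c := 2 * Real.log G) (by
        rw [norm_mul, Complex.norm_I, mul_one, Complex.norm_real, Real.norm_eq_abs]
        refine (abs_sub _ _).trans ?_
        linarith [(hv f hf).1, (hv g hg).1])
    refine le_trans (le_of_eq ?_) (h3.trans (mul_le_mul_of_nonneg_left (hcQ f hf g hg) (by positivity)))
    congr 1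
    refine Finset.prod_congr rfl fun j _ => ?_
    rw [him f, him g]
    congr 2
    push_cast
    ring
  obtain ⟨hfin, hmain⟩ := hA₁ ι S α u q κ S' α' w q' κ' qs μ L h hT T s' C₁ Q₁ Q' (hC.trans hC₁1) (hQ.trans hQ₁1)
    hcQ' (hAG1.trans hGG) f1 f2 f3
  refine ⟨hfin, hmain.trans ?_⟩
  obtain ⟨hd0, hd1⟩ := dens_le_one (δ := σ - 1 / 2) (by linarith) (by linarith)
  have he0 : 0 ≤ (1 - σ) / σ := div_nonneg (by linarith) (by linarith)
  have he1 : (1 - σ) / σ ≤ 1 := by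
    rw [div_le_one (by linarith)]
    linarith
  have e1 : Q₁ ^ dens (σ - 1 / 2) ≤ (1 + 2 * Real.log G) ^ N * Q ^ dens (σ - 1 / 2) := by
    rw [hQ₁, Real.mul_rpow (by positivity) hQ0.le]
    refine mul_le_mul_of_nonneg_right ?_ (by positivity)
    calc ((1 + 2 * Real.log G) ^ N) ^ dens (σ - 1 / 2) ≤ ((1 + 2 * Real.log G) ^ N) ^ (1 : ℝ) :=
          Real.rpow_le_rpow_of_exponent_le hl2 hd1
      _ = _ := Real.rpow_one _
  have e2 : C₁ ^ ((1 - σ) / σ) ≤ (1 + Real.log G) ^ N' * C ^ ((1 - σ) / σ) := by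
    rw [hC₁, Real.mul_rpow (by positivity) hC0.le]
    refine mul_le_mul_of_nonneg_right ?_ (by positivity)
    calc ((1 + Real.log G) ^ N') ^ ((1 - σ) / σ) ≤ ((1 + Real.log G) ^ N') ^ (1 : ℝ) :=
          Real.rpow_le_rpow_of_exponent_le hl1 he1
      _ = _ := Real.rpow_one _
  calc (C₁ * Q₁ * Q') ^ (ε / 8) * Q₁ ^ dens (σ - 1 / 2) * C₁ ^ ((1 - σ) / σ)
      ≤ G ^ (ε / 4) * ((1 + 2 * Real.log G) ^ N * Q ^ dens (σ - 1 / 2)) *
        ((1 + Real.log G) ^ N' * C ^ ((1 - σ) / σ)) :=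
        mul_le_mul (mul_le_mul hGe e1 (by positivity) (by positivity)) e2 (by positivity) (by positivity)
    _ = G ^ (ε / 4) * ((1 + Real.log G) ^ N' * (1 + 2 * Real.log G) ^ N) *
        (Q ^ dens (σ - 1 / 2) * C ^ ((1 - σ) / σ)) := by ring
    _ ≤ G ^ (ε / 4) * G ^ (ε / 4) * (Q ^ dens (σ - 1 / 2) * C ^ ((1 - σ) / σ)) := by
        refine mul_le_mul_of_nonneg_right ?_ (by positivity)
        exact mul_le_mul_of_nonneg_left (hlp.trans hmin1) (by positivity)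
    _ ≤ G ^ ε * (Q ^ dens (σ - 1 / 2) * C ^ ((1 - σ) / σ)) := by
        refine mul_le_mul_of_nonneg_right ?_ (by positivity)
        rw [← Real.rpow_add hG0]
        exact Real.rpow_le_rpow_of_exponent_le hG1 (by linarith)
    _ = _ := by ring

end Pool.Agent.N846.ZD
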