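import Pool.Agent.N846.ZD.Lind3

/-! Both kinds of exceptional values. -/

set_option autoImplicit false

namespace Pool.Agent.N846.ZD

open Filter Topology Complex MeasureTheory Set NumberField IsDedekindDomain
open Pool.Agent.N846.DT (dens dens_le_one)
open Pool.Agent.N846.DU (VX LV logRS RS GLFamily Rep LV_nonneg one_le_cond shift_cond shift_cond' S_LEFT S_DIAG)
open Pool.Agent.N846.LM (Twists cond_shift S_CHI)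

/-- arbitrary families -/
theorem val_both (hPow : S_POW) (hMo : S_MOLL) (hBl : S_BLOCK) (hDe : S_DETECT) (hL : S_LEFT) (hDi : S_DIAG)
    (hCv : S_CVX) (hTc : S_TC) (hTl : S_TL) (hCh : S_CHI) (K : Type) [Field K] [NumberField K] (n N n' N' N'' : ℕ)
    {ε σ : ℝ} (hε : 0 < ε) (hσ : 1 / 2 < σ) (hσ1 : σ ≤ 1) : ∃ A : ℝ, 1 ≤ A ∧
    ∀ (ι : Type) (S : ι → Finset (HeightOneSpectrum (𝓞 K)))
      (α : ι → HeightOneSpectrum (𝓞 K) → Fin n → ℂ) (u : ι → VX K → ℂ) (q : ι → ι → ℝ) (κ : ι → ι → Fin N → ℂ)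
      (S' : Finset (HeightOneSpectrum (𝓞 K))) (α' : HeightOneSpectrum (𝓞 K) → Fin n' → ℂ) (w : VX K → ℂ) (q' : ℝ)
      (κ' : Fin N'' → ℂ) (qs : ι → ℝ) (μ : ι → Fin N' → ℂ) (L : ι → ℂ → ℂ),
      GLFamily n N S α u q κ → Twists n' N' N'' u S' α' w q' κ' qs μ L →
      ∀ (T : Set ι) (s : ι → ℂ) (C Q Q' : ℝ), 1 ≤ C → 1 ≤ Q → q' * ∏ j, (1 + ‖κ' j‖) ≤ Q' → A ≤ C * Q * Q' →
        (∀ f ∈ T, qs f * ∏ j, (1 + ‖μ f j + (s f).im * I‖) ≤ C) →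
        (∀ f ∈ T, ∀ g ∈ T, q f g * ∏ j, (1 + ‖κ f g j + ((s f).im - (s g).im) * I‖) ≤ Q) →
        (∀ f ∈ T,
          (σ ≤ (s f).re ∧ ¬((C * Q * Q') ^ (-ε) ≤ ‖L f (s f)‖ ∧ ‖L f (s f)‖ ≤ (C * Q * Q') ^ ε)) ∨
          (σ ≤ 3 / 4 ∧ 1 - σ ≤ (s f).re ∧ (s f).re ≤ σ ∧
            (C * Q * Q') ^ ε * C ^ ((σ - (s f).re) / 2) < ‖L f (s f)‖)) →
        T.Finite ∧ (T.ncard : ℝ) ≤ (C * Q * Q') ^ ε * Q ^ dens (σ - 1 / 2) * C ^ ((1 - σ) / σ) := by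
  obtain ⟨A₁, hA₁1, hA₁⟩ := val_all hPow hMo hBl hDe hL hDi hCv hTc K n N n' N' N'' (ε := ε / 2) (σ := σ)
    (by positivity) hσ hσ1
  obtain ⟨A₂, hA₂1, hA₂⟩ : ∃ A₂ : ℝ, 1 ≤ A₂ ∧ (σ ≤ 3 / 4 →
    ∀ (ι : Type) (S : ι → Finset (HeightOneSpectrum (𝓞 K)))
      (α : ι → HeightOneSpectrum (𝓞 K) → Fin n → ℂ) (u : ι → VX K → ℂ) (q : ι → ι → ℝ) (κ : ι → ι → Fin N → ℂ)
      (S' : Finset (HeightOneSpectrum (𝓞 K))) (α' : HeightOneSpectrum (𝓞 K) → Fin n' → ℂ) (w : VX K → ℂ) (q' : ℝ)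
      (κ' : Fin N'' → ℂ) (qs : ι → ℝ) (μ : ι → Fin N' → ℂ) (L : ι → ℂ → ℂ),
      GLFamily n N S α u q κ → Twists n' N' N'' u S' α' w q' κ' qs μ L →
      ∀ (T : Set ι) (s : ι → ℂ) (C Q Q' : ℝ), 1 ≤ C → 1 ≤ Q → q' * ∏ j, (1 + ‖κ' j‖) ≤ Q' → A₂ ≤ C * Q * Q' →
        (∀ f ∈ T, 1 - σ ≤ (s f).re ∧ (s f).re ≤ σ ∧
          (C * Q * Q') ^ (ε / 2) * C ^ ((σ - (s f).re) / 2) < ‖L f (s f)‖) →
        (∀ f ∈ T, qs f * ∏ j, (1 + ‖μ f j + (s f).im * I‖) ≤ C) →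
        (∀ f ∈ T, ∀ g ∈ T, q f g * ∏ j, (1 + ‖κ f g j + ((s f).im - (s g).im) * I‖) ≤ Q) →
        T.Finite ∧ (T.ncard : ℝ) ≤ (C * Q * Q') ^ (ε / 2) * Q ^ dens (σ - 1 / 2) * C ^ ((1 - σ) / σ)) := by
    by_cases h34 : σ ≤ 3 / 4
    · obtain ⟨A₂, h1, h2⟩ := val_crit hPow hMo hBl hDe hL hDi hCv hTc hTl hCh K n N n' N' N'' (ε := ε / 2)
        (by positivity) hσ h34
      exact ⟨A₂, h1, fun _ => h2⟩
    · exact ⟨1, le_refl 1, fun h => absurd h h34⟩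
  refine ⟨max (max A₁ A₂) ((2 : ℝ) ^ (2 / ε)), hA₁1.trans ((le_max_left _ _).trans (le_max_left _ _)), ?_⟩
  intro ι S α u q κ S' α' w q' κ' qs μ L h hT T s C Q Q' hC hQ hcQ' hAG hcC hcQ hbad
  have hAG1 : A₁ ≤ C * Q * Q' := ((le_max_left _ _).trans (le_max_left _ _)).trans hAG
  have hAG2 : A₂ ≤ C * Q * Q' := ((le_max_right _ _).trans (le_max_left _ _)).trans hAG
  have hAG3 : (2 : ℝ) ^ (2 / ε) ≤ C * Q * Q' := (le_max_right _ _).trans hAG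
  have hC0 : 0 < C := by linarith
  have hQ0 : 0 < Q := by linarith
  have hG1 : 1 ≤ C * Q * Q' := hA₁1.trans hAG1
  have hG0 : 0 < C * Q * Q' := by linarith
  have h2 : 2 ≤ (C * Q * Q') ^ (ε / 2) := by
    have h3 : ((2 : ℝ) ^ (2 / ε)) ^ (ε / 2) ≤ (C * Q * Q') ^ (ε / 2) :=
      Real.rpow_le_rpow (by positivity) hAG3 (by positivity)
    rw [← Real.rpow_mul (by norm_num), show 2 / ε * (ε / 2) = 1 by field_simp, Real.rpow_one] at h3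
    exact h3
  have hle : (C * Q * Q') ^ (ε / 2) ≤ (C * Q * Q') ^ ε := Real.rpow_le_rpow_of_exponent_le hG1 (by linarith)
  have hge : (C * Q * Q') ^ (-ε) ≤ (C * Q * Q') ^ (-(ε / 2)) := Real.rpow_le_rpow_of_exponent_le hG1 (by linarith)
  obtain ⟨f1, c1⟩ := hA₁ ι S α u q κ S' α' w q' κ' qs μ L h hT
    {f ∈ T | σ ≤ (s f).re ∧ ¬((C * Q * Q') ^ (-ε) ≤ ‖L f (s f)‖ ∧ ‖L f (s f)‖ ≤ (C * Q * Q') ^ ε)} s C Q Q' hC hQ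
    hcQ' hAG1 (fun f hf => ⟨hf.2.1, fun hh => hf.2.2 ⟨hge.trans hh.1, hh.2.trans hle⟩⟩) (fun f hf => hcC f hf.1)
    (fun f hf g hg => hcQ f hf.1 g hg.1)
  have hsecond : {f ∈ T | σ ≤ 3 / 4 ∧ 1 - σ ≤ (s f).re ∧ (s f).re ≤ σ ∧
      (C * Q * Q') ^ ε * C ^ ((σ - (s f).re) / 2) < ‖L f (s f)‖}.Finite ∧
      ({f ∈ T | σ ≤ 3 / 4 ∧ 1 - σ ≤ (s f).re ∧ (s f).re ≤ σ ∧
      (C * Q * Q') ^ ε * C ^ ((σ - (s f).re) / 2) < ‖L f (s f)‖}.ncard : ℝ) ≤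
      (C * Q * Q') ^ (ε / 2) * Q ^ dens (σ - 1 / 2) * C ^ ((1 - σ) / σ) := by
    by_cases h34 : σ ≤ 3 / 4
    · refine hA₂ h34 ι S α u q κ S' α' w q' κ' qs μ L h hT _ s C Q Q' hC hQ hcQ' hAG2 (fun f hf =>
        ⟨hf.2.2.1, hf.2.2.2.1, lt_of_le_of_lt ?_ hf.2.2.2.2⟩) (fun f hf => hcC f hf.1)
        (fun f hf g hg => hcQ f hf.1 g hg.1)
      exact mul_le_mul_of_nonneg_right hle (by positivity)
    · have he : {f ∈ T | σ ≤ 3 / 4 ∧ 1 - σ ≤ (s f).re ∧ (s f).re ≤ σ ∧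
          (C * Q * Q') ^ ε * C ^ ((σ - (s f).re) / 2) < ‖L f (s f)‖} = ∅ := by
        ext f
        simp only [mem_setOf_eq, mem_empty_iff_false, iff_false, not_and]
        intro _ h3
        exact absurd h3 h34
      rw [he]
      refine ⟨Set.finite_empty, ?_⟩
      rw [Set.ncard_empty]
      push_cast
      positivity
  obtain ⟨f2, c2⟩ := hsecond
  have hsub : T ⊆ {f ∈ T | σ ≤ (s f).re ∧ ¬((C * Q * Q') ^ (-ε) ≤ ‖L f (s f)‖ ∧ ‖L f (s f)‖ ≤ (C * Q * Q') ^ ε)} ∪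
      {f ∈ T | σ ≤ 3 / 4 ∧ 1 - σ ≤ (s f).re ∧ (s f).re ≤ σ ∧
      (C * Q * Q') ^ ε * C ^ ((σ - (s f).re) / 2) < ‖L f (s f)‖} := by
    intro f hf
    rcases hbad f hf with h3 | h3
    · exact Or.inl ⟨hf, h3⟩
    · exact Or.inr ⟨hf, h3⟩
  refine ⟨(f1.union f2).subset hsub, ?_⟩
  have h4 := (Set.ncard_le_ncard hsub (f1.union f2)).trans (Set.ncard_union_le _ _)
  have h5 : (T.ncard : ℝ) ≤ (C * Q * Q') ^ (ε / 2) * Q ^ dens (σ - 1 / 2) * C ^ ((1 - σ) / σ) +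
      (C * Q * Q') ^ (ε / 2) * Q ^ dens (σ - 1 / 2) * C ^ ((1 - σ) / σ) := by
    refine le_trans ?_ (add_le_add c1 c2)
    exact_mod_cast h4
  refine h5.trans ?_
  calc _ = 2 * ((C * Q * Q') ^ (ε / 2) * Q ^ dens (σ - 1 / 2) * C ^ ((1 - σ) / σ)) := by ring
    _ ≤ (C * Q * Q') ^ (ε / 2) * ((C * Q * Q') ^ (ε / 2) * Q ^ dens (σ - 1 / 2) * C ^ ((1 - σ) / σ)) :=
        mul_le_mul_of_nonneg_right h2 (by positivity)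
    _ = ((C * Q * Q') ^ (ε / 2) * (C * Q * Q') ^ (ε / 2)) * Q ^ dens (σ - 1 / 2) * C ^ ((1 - σ) / σ) := by ring
    _ = _ := by
        rw [← Real.rpow_add hG0, add_halves]

end Pool.Agent.N846.ZD
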