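import Pool.Agent.N846.ZD.Stm
import Pool.Agent.N846.DT.Expand

/-! MB: the mollifier is entire and bounded. -/

set_option autoImplicit false

namespace Pool.Agent.N846.ZD

open Complex MeasureTheory
open Pool.Agent.TH949.LT (TT Lam VV)
open Pool.Agent.N846.DT (PairF co Uc)

namespace MbAux

variable {X : Type}

/-- the terms of the mollifier -/
noncomputable def tm (L : X → ℝ) (x : ℝ) (u w : X → ℂ) (l : TT X) (s : ℂ) : ℂ :=
  if Lam L l ≤ x then co u (fun z => -w z) l * Complex.exp (-(s * Lam L l)) else 0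

theorem tm_le {L : X → ℝ} (hL : ∀ z, 0 ≤ L z) {x : ℝ} (hx : 0 ≤ x) (u w : X → ℂ) (a b : ℝ) {s : ℂ}
    (hb : b ≤ s.re) (l : TT X) : ‖tm L x u w l s‖ ≤ Real.exp (max (a - b) 0 * x) *
      (‖co u (fun z => -w z) l‖ * Real.exp (-(a * Lam L l))) := by
  have h0 := Pool.Agent.N846.DT.Lam_nonneg hL l
  unfold tm
  split_ifs with h
  · rw [Pool.Agent.N846.DT.term_norm']
    have h1 : -(s.re * Lam L l) ≤ max (a - b) 0 * x + -(a * Lam L l) := by
      have h2 : (a - b) * Lam L l ≤ max (a - b) 0 * Lam L l :=
        mul_le_mul_of_nonneg_right (le_max_left _ _) h0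
      have h3 : max (a - b) 0 * Lam L l ≤ max (a - b) 0 * x :=
        mul_le_mul_of_nonneg_left h (le_max_right _ _)
      have h4 : b * Lam L l ≤ s.re * Lam L l := mul_le_mul_of_nonneg_right hb h0
      linarith
    calc ‖co u (fun z => -w z) l‖ * Real.exp (-(s.re * Lam L l))
        ≤ ‖co u (fun z => -w z) l‖ * Real.exp (max (a - b) 0 * x + -(a * Lam L l)) :=
          mul_le_mul_of_nonneg_left (Real.exp_le_exp.2 h1) (norm_nonneg _)
      _ = _ := by rw [Real.exp_add]; ring
  · rw [norm_zero]
    positivity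

end MbAux

open MbAux

theorem mb : S_MB := by
  intro X _ u w L x a hL hx hs
  have hs' : Summable fun z => ‖u z‖ * ‖(fun z => -w z) z‖ * Real.exp (-(a * L z)) := by
    refine hs.congr fun z => ?_
    simp only [norm_neg]
  have hsum := Pool.Agent.N846.DT.co_abs (u := u) (v := fun z => -w z) (L := L) (σ := a) hs'
  have hval : (∑' z, ‖u z‖ * ‖(fun z => -w z) z‖ * Real.exp (-(a * L z))) =
      ∑' z, ‖u z‖ * ‖w z‖ * Real.exp (-(a * L z)) := by
    refine tsum_congr fun z => ?_
    simp only [norm_neg]
  rw [hval] at hsum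
  have hMM : ∀ s, MM L x u w s = ∑' l, tm L x u w l s := fun s => rfl
  constructor
  · intro z0
    have hopen : IsOpen {z : ℂ | z0.re - 1 < z.re} := isOpen_lt continuous_const Complex.continuous_re
    have h1 : DifferentiableOn ℂ (fun z => ∑' l, tm L x u w l z) {z : ℂ | z0.re - 1 < z.re} := by
      refine Complex.differentiableOn_tsum_of_summable_norm
        (u := fun l => Real.exp (max (a - (z0.re - 1)) 0 * x) *
          (‖co u (fun z => -w z) l‖ * Real.exp (-(a * Lam L l)))) (hsum.summable.mul_left _)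
        (fun l => ?_) hopen (fun l z hz => ?_)
      · refine Differentiable.differentiableOn ?_
        unfold tm
        split_ifs
        · fun_prop
        · fun_prop
      · have hz' : z0.re - 1 < z.re := hz
        exact tm_le hL hx u w a (z0.re - 1) hz'.le l
    have h2 : z0 ∈ {z : ℂ | z0.re - 1 < z.re} := by
      change z0.re - 1 < z0.re
      linarith
    exact h1.differentiableAt (hopen.mem_nhds h2)
  · intro s
    rw [hMM]
    exact tsum_of_norm_bounded (hsum.mul_left _) fun l => tm_le hL hx u w a s.re le_rfl l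

end Pool.Agent.N846.ZD
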