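import Pool.Agent.N846.ZD.Stm

/-!
# Zero density: the mollified `L`-function (part MOLL, by helper383)
-/

set_option autoImplicit false

namespace Pool.Agent.N846.ZD.MollL

open Complex
open Pool.Agent.TH949.LT (TT Lam VV)
open Pool.Agent.N846.DT (PairF co Uc co_sum co_abs)

variable {X : Type}

/-- products over a list -/
noncomputable def UL (u : X → ℂ) (l : List X) : ℂ := (l.map u).prod

/-- sums over a list -/
def LL (L : X → ℝ) (l : List X) : ℝ := (l.map L).sum

theorem Uc_eq (u : X → ℂ) (l : List X) : Uc u (List.equivSigmaTuple l) = UL u l := by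
  exact Fin.prod_univ_fun_getElem l u

theorem Lam_eq (L : X → ℝ) (l : List X) : Lam L (List.equivSigmaTuple l) = LL L l := by
  exact Fin.sum_univ_fun_getElem l L

theorem UL_append (u : X → ℂ) (a b : List X) : UL u (a ++ b) = UL u a * UL u b := by
  simp [UL]

theorem LL_append (L : X → ℝ) (a b : List X) : LL L (a ++ b) = LL L a + LL L b := by
  simp [LL]

theorem LL_nonneg {L : X → ℝ} (hL : ∀ z, 0 ≤ L z) (l : List X) : 0 ≤ LL L l := by
  apply List.sum_nonneg
  intro y hy
  rw [List.mem_map] at hy
  obtain ⟨z, _, rfl⟩ := hy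
  exact hL z

theorem UL_neg (w : X → ℂ) (l : List X) : UL (fun z => -w z) l = (-1) ^ l.length * UL w l := by
  induction l with
  | nil => simp [UL]
  | cons a l ih =>
    have h1 : UL (fun z => -w z) (a :: l) = -w a * UL (fun z => -w z) l := by simp [UL]
    have h2 : UL w (a :: l) = w a * UL w l := by simp [UL]
    rw [h1, h2, ih, List.length_cons]
    ring

/-- cutting a list -/
def cut (X : Type) : (Σ l : List X, Fin (l.length + 1)) ≃ List X × List X where
  toFun p := (p.1.take p.2, p.1.drop p.2)
  invFun q := ⟨q.1 ++ q.2, ⟨q.1.length, by rw [List.length_append]; omega⟩⟩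
  left_inv := by
    rintro ⟨l, i⟩
    have h1 : l.take i ++ l.drop i = l := List.take_append_drop _ _
    refine Sigma.ext h1 ?_
    rw [Fin.heq_ext_iff (by
      show (l.take i ++ l.drop i).length + 1 = l.length + 1
      rw [h1])]
    show (l.take i).length = i
    rw [List.length_take]
    have := i.2
    omega
  right_inv := by
    rintro ⟨a, b⟩
    simp

/-- the alternating sum -/
noncomputable def al (L : X → ℝ) (x : ℝ) (l : List X) : ℂ :=
  ∑ i ∈ Finset.range (l.length + 1), (-1) ^ (l.length - i) * (l.length.choose i : ℂ) *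
    (if LL L (l.drop i) ≤ x then 1 else 0)

/-- the coefficients, on lists -/
noncomputable def cL (w : X → ℂ) (L : X → ℝ) (x : ℝ) (l : List X) : ℂ :=
  (starRingEnd ℂ) (UL w l) / (l.length.factorial : ℂ) * al L x l

theorem al_norm (L : X → ℝ) (x : ℝ) (l : List X) : ‖al L x l‖ ≤ 2 ^ l.length := by
  unfold al
  refine (norm_sum_le _ _).trans ?_
  have h1 : ∀ i ∈ Finset.range (l.length + 1), ‖(-1 : ℂ) ^ (l.length - i) *
      (l.length.choose i : ℂ) * (if LL L (l.drop i) ≤ x then 1 else 0)‖ ≤
      (l.length.choose i : ℝ) := by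
    intro i _
    rw [norm_mul, norm_mul, norm_pow, norm_neg, norm_one, one_pow, one_mul, Complex.norm_natCast]
    split_ifs
    · simp
    · simp
  refine (Finset.sum_le_sum h1).trans ?_
  have := Nat.sum_range_choose l.length
  exact_mod_cast this.le

theorem al_zero {L : X → ℝ} (hL : ∀ z, 0 ≤ L z) {x : ℝ} {l : List X} (h0 : l.length ≠ 0)
    (hx : LL L l ≤ x) : al L x l = 0 := by
  unfold al
  have h1 : ∀ i, LL L (l.drop i) ≤ x := by
    intro i
    have h2 : LL L l = LL L (l.take i) + LL L (l.drop i) := by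
      rw [← LL_append, List.take_append_drop]
    have h3 := LL_nonneg hL (l.take i)
    linarith
  have h2 := add_pow (1 : ℂ) (-1) l.length
  rw [add_neg_cancel, zero_pow h0] at h2
  rw [h2]
  refine Finset.sum_congr rfl fun i _ => ?_
  rw [if_pos (h1 i), one_pow, one_mul, mul_one]

theorem moll_aux (w : X → ℂ) (L : X → ℝ) (x : ℝ) (u : X → ℂ) (s : ℂ)
    (hs : Summable fun z => ‖u z‖ * ‖w z‖ * Real.exp (-(s.re * L z))) :
    HasSum (fun l : List X => UL u l * cL w L x l * cexp (-(s * (LL L l : ℂ))))
      (cexp (∑' z, u z * (starRingEnd ℂ) (w z) * cexp (-(s * (L z : ℂ)))) *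
        MM L x u w s) := by
  set e : List X ≃ TT X := List.equivSigmaTuple with he
  -- first factor
  have hA := co_sum hs
  have hAn := (co_abs hs).summable
  -- second factor
  have hs' : Summable fun z => ‖u z‖ * ‖(fun z => -w z) z‖ * Real.exp (-(s.re * L z)) := by
    simpa using hs
  have hBn := (co_abs hs').summable
  have hnorm : ∀ (v : X → ℂ) (t : TT X), ‖co u v t * cexp (-(s * Lam L t))‖ =
      ‖co u v t‖ * Real.exp (-(s.re * Lam L t)) := fun v t =>
    Pool.Agent.N846.DT.term_norm' _ _ _
  have hB1 : Summable fun t : TT X => ‖if Lam L t ≤ x then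
      co u (fun z => -w z) t * cexp (-(s * Lam L t)) else 0‖ := by
    refine Summable.of_nonneg_of_le (fun t => norm_nonneg _) (fun t => ?_) hBn
    split_ifs
    · rw [hnorm]
    · rw [norm_zero]
      positivity
  have hB : HasSum (fun t : TT X => if Lam L t ≤ x then
      co u (fun z => -w z) t * cexp (-(s * Lam L t)) else 0) (MM L x u w s) :=
    hB1.of_norm.hasSum
  -- on lists
  set f1 : List X → ℂ := fun l => co u w (e l) * cexp (-(s * Lam L (e l))) with hf1
  set f2 : List X → ℂ := fun l => if Lam L (e l) ≤ x then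
      co u (fun z => -w z) (e l) * cexp (-(s * Lam L (e l))) else 0 with hf2
  have hA' : HasSum f1 (cexp (∑' z, u z * (starRingEnd ℂ) (w z) * cexp (-(s * (L z : ℂ))))) :=
    e.hasSum_iff.2 hA
  have hB' : HasSum f2 (MM L x u w s) := e.hasSum_iff.2 hB
  have hAn' : Summable fun l => ‖f1 l‖ := by
    have h1 : Summable fun t : TT X => ‖co u w t * cexp (-(s * Lam L t))‖ :=
      hAn.congr fun t => (hnorm w t).symm
    exact e.summable_iff.2 h1
  have hBn' : Summable fun l => ‖f2 l‖ := e.summable_iff.2 hB1
  have hF : HasSum (fun q : List X × List X => f1 q.1 * f2 q.2)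
      (cexp (∑' z, u z * (starRingEnd ℂ) (w z) * cexp (-(s * (L z : ℂ)))) * MM L x u w s) :=
    hA'.mul hB' (summable_mul_of_summable_norm hAn' hBn')
  have h1 := (cut X).hasSum_iff.2 hF
  have h2 := h1.sigma fun l => hasSum_fintype _
  refine h2.congr_fun fun l => ?_
  have h3 : ∀ i ∈ Finset.range (l.length + 1), f1 (l.take i) * f2 (l.drop i) =
      UL u l * ((starRingEnd ℂ) (UL w l) / (l.length.factorial : ℂ)) *
        cexp (-(s * (LL L l : ℂ))) * ((-1) ^ (l.length - i) * (l.length.choose i : ℂ) *
        (if LL L (l.drop i) ≤ x then 1 else 0)) := by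
    intro i hi
    have hi' : i ≤ l.length := by
      rw [Finset.mem_range] at hi
      omega
    have e1 : (e (l.take i)).1 = i := by
      show (l.take i).length = i
      rw [List.length_take]
      omega
    have e2 : (e (l.drop i)).1 = l.length - i := by
      show (l.drop i).length = l.length - i
      rw [List.length_drop]
    have e2' : (l.drop i).length = l.length - i := List.length_drop
    have g1 : UL u l = UL u (l.take i) * UL u (l.drop i) := by
      rw [← UL_append, List.take_append_drop]
    have g2 : UL w l = UL w (l.take i) * UL w (l.drop i) := by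
      rw [← UL_append, List.take_append_drop]
    have g3 : LL L l = LL L (l.take i) + LL L (l.drop i) := by
      rw [← LL_append, List.take_append_drop]
    have g4 : cexp (-(s * (LL L l : ℂ))) =
        cexp (-(s * (LL L (l.take i) : ℂ))) * cexp (-(s * (LL L (l.drop i) : ℂ))) := by
      rw [← Complex.exp_add, g3]
      congr 1
      push_cast
      ring
    have g5 : (l.length.choose i : ℂ) * (i.factorial : ℂ) * ((l.length - i).factorial : ℂ) =
        (l.length.factorial : ℂ) := by
      exact_mod_cast Nat.choose_mul_factorial_mul_factorial hi'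
    have p1 : (i.factorial : ℂ) ≠ 0 := by exact_mod_cast i.factorial_ne_zero
    have p2 : ((l.length - i).factorial : ℂ) ≠ 0 := by
      exact_mod_cast (l.length - i).factorial_ne_zero
    have p3 : (l.length.factorial : ℂ) ≠ 0 := by exact_mod_cast l.length.factorial_ne_zero
    simp only [hf1, hf2, co, he, Uc_eq, Lam_eq]
    rw [← he, e1, e2]
    split_ifs with hx
    · rw [UL_neg, e2', g4, g1, g2, map_mul, map_mul, map_pow, map_neg, map_one]
      field_simp
      rw [← g5]
      ring
    · simp
  have h4 : ∑ i : Fin (l.length + 1), f1 (l.take i) * f2 (l.drop i) =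
      ∑ i ∈ Finset.range (l.length + 1), f1 (l.take i) * f2 (l.drop i) :=
    Fin.sum_univ_eq_sum_range (fun i => f1 (l.take i) * f2 (l.drop i)) (l.length + 1)
  show UL u l * cL w L x l * cexp (-(s * (LL L l : ℂ))) =
    ∑ i : Fin (l.length + 1), f1 (l.take i) * f2 (l.drop i)
  rw [h4, Finset.sum_congr rfl h3, ← Finset.mul_sum, cL, al]
  ring

end Pool.Agent.N846.ZD.MollL

namespace Pool.Agent.N846.ZD

open Complex
open Pool.Agent.TH949.LT (TT Lam VV)
open Pool.Agent.N846.DT (PairF co Uc co_sum co_abs)
open Pool.Agent.N846.ZD.MollL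

theorem moll : S_MOLL := by
  intro X w L x hL hx
  set e : List X ≃ TT X := List.equivSigmaTuple with he
  have hlen : ∀ t : TT X, (e.symm t).length = t.1 := by
    intro t
    have : (e (e.symm t)).1 = (e.symm t).length := rfl
    rw [← this, Equiv.apply_symm_apply]
  have hU : ∀ (v : X → ℂ) (t : TT X), UL v (e.symm t) = Uc v t := by
    intro v t
    rw [← Uc_eq, ← he, Equiv.apply_symm_apply]
  have hLa : ∀ t : TT X, LL L (e.symm t) = Lam L t := by
    intro t
    rw [← Lam_eq, ← he, Equiv.apply_symm_apply]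
  refine ⟨fun t => cL w L x (e.symm t), ?_, ?_, ?_, ?_⟩
  · intro t
    show ‖cL w L x (e.symm t)‖ ≤ _
    rw [cL, norm_mul, norm_div, RCLike.norm_conj, Complex.norm_natCast, hlen, hU]
    have h1 := al_norm L x (e.symm t)
    rw [hlen] at h1
    calc ‖Uc w t‖ / (t.1.factorial : ℝ) * ‖al L x (e.symm t)‖
        ≤ ‖Uc w t‖ / (t.1.factorial : ℝ) * 2 ^ t.1 := by gcongr
      _ = ((2 : ℕ) : ℝ) ^ t.1 * ‖Uc w t‖ / (t.1.factorial : ℝ) := by
          push_cast
          ring
  · intro t ht
    have h1 : e.symm t = [] := by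
      rw [← List.length_eq_zero_iff, hlen, ht]
    show cL w L x (e.symm t) = 1
    rw [h1]
    simp [cL, al, UL, LL, hx]
  · intro t ht hxt
    show cL w L x (e.symm t) = 0
    rw [cL, al_zero hL (by rw [hlen]; exact ht) (by rw [hLa]; exact hxt), mul_zero]
  · intro u s hs
    rw [← e.hasSum_iff]
    refine (moll_aux w L x u s hs).congr_fun fun l => ?_
    show Uc u (e l) * cL w L x (e.symm (e l)) * cexp (-(s * Lam L (e l))) = _
    rw [Equiv.symm_apply_apply, he, Uc_eq, Lam_eq]

end Pool.Agent.N846.ZD

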