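import Pool.Agent.N846.ZD.Stm
import Pool.Agent.N846.DT.Master

/-! The smoothed sum at a zero. -/

set_option autoImplicit false

namespace Pool.Agent.N846.ZD

namespace OffP

open Filter Topology Complex MeasureTheory Set
open Pool.Agent.TH949.LT (TT Lam VV VV_nonneg VV_le VV_zero EE EE_int kernel norm_exp_sq complex_exp_sum real_exp_sum
  pow_exp)
open Pool.Agent.N846.DT (rpow_exp JK_int JK JK_nonneg summ_mono' expandC cross)

/-- the smoothed sum at a zero -/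
theorem off_core {ι : Type} [Countable ι] {c : ι → ℂ} {Λ : ι → ℝ} {F : ℂ → ℂ} (hdiff : Differentiable ℂ F)
    (hgrowth : ∀ a b : ℝ, ∃ C' A' : ℝ, ∀ s : ℂ, a ≤ s.re → s.re ≤ b → ‖F s‖ ≤ C' * (1 + |s.im|) ^ A')
    {s0 : ℂ} (h0 : 0 ≤ s0.re) (h01 : s0.re ≤ 1)
    (hs : Summable fun l => ‖c l‖ * Real.exp (-((s0.re + 3) * Λ l)))
    (hs3 : ∀ s : ℂ, s.re = s0.re + 3 → HasSum (fun l => c l * cexp (-(s * Λ l))) (F s))
    (hz : F s0 = 0) {σ₀ B K y : ℝ} (hσ : 0 < σ₀)
    (hB0 : 0 ≤ B)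
    (hB : ∀ v : ℝ, ‖F (((-σ₀ : ℝ) : ℂ) + (s0.im + v : ℝ) * I)‖ ≤ B * (1 + |v|) ^ K) :
    ∃ T : ℂ, HasSum (fun l => c l * cexp (-(s0 * Λ l)) * VV (y - Λ l)) T ∧
      ‖T‖ ≤ Real.exp ((σ₀ + 1) ^ 2) / σ₀ * JK K * B * Real.exp (-(σ₀ + s0.re) * y) := by
  have h1 := expandC (c := c) (Λ := Λ) (F := F) (s0 := s0) (b := 3) (by norm_num) hs hs3 y
  set a : ℝ := -(σ₀ + s0.re) with ha
  have ha0 : a < 0 := by rw [ha]; linarith
  set H : ℂ → ℂ := fun w => F (s0 + w) * cexp (w * y) with hH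
  obtain ⟨C1, A1, hCA⟩ := hgrowth (-σ₀) (s0.re + 3)
  obtain ⟨C2, hC20, hC2⟩ := rpow_exp (|A1|)
  have hHb : ∀ w : ℂ, a ≤ w.re → w.re ≤ 3 →
      ‖H w‖ ≤ |C1| * ((1 + |s0.im|) ^ (|A1|) * C2) * Real.exp ((|a| + 3) * |y|) * Real.exp |w.im| := by
    intro w hw1 hw2
    rw [hH]
    simp only
    rw [norm_mul]
    have h2 := hCA (s0 + w) (by simp; linarith) (by simp; linarith)
    have h3 : ‖cexp (w * y)‖ ≤ Real.exp ((|a| + 3) * |y|) := by
      rw [Complex.norm_exp]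
      refine Real.exp_le_exp.2 ?_
      simp only [Complex.mul_re, Complex.ofReal_re, Complex.ofReal_im, mul_zero, sub_zero]
      calc w.re * y ≤ |w.re * y| := le_abs_self _
        _ = |w.re| * |y| := abs_mul _ _
        _ ≤ (|a| + 3) * |y| := by
            refine mul_le_mul_of_nonneg_right ?_ (abs_nonneg y)
            rw [abs_le]
            constructor
            · linarith [neg_abs_le a]
            · linarith [abs_nonneg a]
    have h4 : (1 + |(s0 + w).im|) ^ A1 ≤ (1 + |s0.im|) ^ (|A1|) * C2 * Real.exp |w.im| := by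
      have e1 : 1 + |(s0 + w).im| ≤ (1 + |s0.im|) * (1 + |w.im|) := by
        rw [Complex.add_im]
        have := abs_add_le s0.im w.im
        nlinarith [abs_nonneg s0.im, abs_nonneg w.im]
      have e2 : (1 + |(s0 + w).im|) ^ A1 ≤ (1 + |(s0 + w).im|) ^ (|A1|) :=
        Real.rpow_le_rpow_of_exponent_le (by linarith [abs_nonneg (s0 + w).im]) (le_abs_self _)
      have e3 : (1 + |(s0 + w).im|) ^ (|A1|) ≤ ((1 + |s0.im|) * (1 + |w.im|)) ^ (|A1|) :=
        Real.rpow_le_rpow (by positivity) e1 (abs_nonneg _)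
      rw [Real.mul_rpow (by positivity) (by positivity)] at e3
      refine (e2.trans e3).trans ?_
      rw [mul_assoc]
      exact mul_le_mul_of_nonneg_left (hC2 _ (abs_nonneg _)) (by positivity)
    have h5 : ‖F (s0 + w)‖ ≤ |C1| * ((1 + |s0.im|) ^ (|A1|) * C2 * Real.exp |w.im|) := by
      refine h2.trans ?_
      have hX : 0 ≤ (1 + |(s0 + w).im|) ^ A1 := Real.rpow_nonneg (by positivity) _
      calc _ ≤ |C1| * (1 + |(s0 + w).im|) ^ A1 := mul_le_mul_of_nonneg_right (le_abs_self _) hX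
        _ ≤ _ := mul_le_mul_of_nonneg_left h4 (abs_nonneg _)
    calc ‖F (s0 + w)‖ * ‖cexp (w * y)‖ ≤
          (|C1| * ((1 + |s0.im|) ^ (|A1|) * C2 * Real.exp |w.im|)) * Real.exp ((|a| + 3) * |y|) :=
          mul_le_mul h5 h3 (norm_nonneg _) (by positivity)
      _ = _ := by ring
  have hHd : Differentiable ℂ H := (hdiff.comp (by fun_prop)).mul (by fun_prop)
  have h2 := cross hHd ha0 (by norm_num : (0 : ℝ) < 3) hHb
  have hH0 : H 0 = 0 := by
    rw [hH]
    simp [hz]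
  rw [hH0, mul_zero, sub_eq_zero] at h2
  -- the integral on the left
  set Il : ℂ := ∫ v : ℝ, H (a + v * I) * (cexp ((a + v * I) ^ 2) / (a + v * I)) with hIl
  have hIb : ‖Il‖ ≤ Real.exp ((σ₀ + 1) ^ 2) / σ₀ * JK K * B * Real.exp (a * y) := by
    have h3 : ∀ v : ℝ, ‖H (a + v * I) * (cexp ((a + v * I) ^ 2) / (a + v * I))‖ ≤
        Real.exp ((σ₀ + 1) ^ 2) / σ₀ * B * Real.exp (a * y) * ((1 + |v|) ^ K * Real.exp (-v ^ 2)) := by
      intro v
      have e1 : s0 + ((a : ℂ) + v * I) = ((-σ₀ : ℝ) : ℂ) + (s0.im + v : ℝ) * I := by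
        apply Complex.ext
        · simp [ha]
        · simp
      have e2 : ‖cexp (((a : ℂ) + v * I) * y)‖ = Real.exp (a * y) := by
        rw [Complex.norm_exp]
        simp
      have e3 : ‖cexp (((a : ℂ) + v * I) ^ 2) / (a + v * I)‖ ≤
          Real.exp ((σ₀ + 1) ^ 2) * Real.exp (-v ^ 2) / σ₀ := by
        rw [norm_div, norm_exp_sq]
        have e4 : σ₀ ≤ ‖(a : ℂ) + v * I‖ := by
          have h5 := Complex.abs_re_le_norm ((a : ℂ) + v * I)
          have h6 : ((a : ℂ) + v * I).re = a := by simp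
          rw [h6, ha, abs_neg, abs_of_pos (by linarith)] at h5
          linarith
        have e5 : Real.exp ((((a : ℂ) + v * I).re) ^ 2 - (((a : ℂ) + v * I).im) ^ 2) ≤
            Real.exp ((σ₀ + 1) ^ 2) * Real.exp (-v ^ 2) := by
          rw [← Real.exp_add]
          refine Real.exp_le_exp.2 ?_
          have h6 : ((a : ℂ) + v * I).re = a := by simp
          have h7 : ((a : ℂ) + v * I).im = v := by simp
          rw [h6, h7]
          have : a ^ 2 ≤ (σ₀ + 1) ^ 2 := by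
            rw [ha, neg_sq]
            exact pow_le_pow_left₀ (by linarith) (by linarith) 2
          linarith
        exact div_le_div₀ (by positivity) e5 hσ e4
      rw [hH]
      simp only
      rw [norm_mul, norm_mul, e1, e2]
      calc _ ≤ (B * (1 + |v|) ^ K) * Real.exp (a * y) * (Real.exp ((σ₀ + 1) ^ 2) * Real.exp (-v ^ 2) / σ₀) := by
            refine mul_le_mul (mul_le_mul_of_nonneg_right (hB v) (Real.exp_pos _).le) e3 (norm_nonneg _) ?_
            have : 0 ≤ (1 + |v|) ^ K := Real.rpow_nonneg (by positivity) _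
            positivity
        _ = _ := by ring
    refine (norm_integral_le_of_norm_le ((JK_int K).const_mul _) (Eventually.of_forall h3)).trans (le_of_eq ?_)
    rw [integral_const_mul]
    unfold JK
    ring
  -- conclusion
  have hpi := Real.pi_pos
  have h2pi : (2 * Real.pi : ℂ) ≠ 0 := by exact_mod_cast (by positivity : (2 * Real.pi : ℝ) ≠ 0)
  have h4 : (∫ v : ℝ, F (s0 + ((3 : ℝ) + v * I)) * cexp (((3 : ℝ) + v * I) * y) * EE 3 v) = Il := by
    rw [← h2]
    rfl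
  rw [h4] at h1
  refine ⟨(2 * Real.pi : ℂ)⁻¹ * Il, ?_, ?_⟩
  · refine (h1.mul_left ((2 * Real.pi : ℂ)⁻¹)).congr_fun fun l => ?_
    field_simp
  · rw [norm_mul, norm_inv]
    have h5 : ‖(2 * Real.pi : ℂ)‖ = 2 * Real.pi := by
      rw [norm_mul, Complex.norm_real, Real.norm_of_nonneg hpi.le]
      simp
    rw [h5]
    have h6 : (2 * Real.pi)⁻¹ ≤ 1 := inv_le_one_of_one_le₀ (by linarith [Real.pi_gt_three])
    calc _ ≤ 1 * ‖Il‖ := mul_le_mul_of_nonneg_right h6 (norm_nonneg _)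
      _ ≤ _ := by rw [one_mul]; exact hIb


end OffP

open Complex in
theorem off : S_OFF := by
  intro σ₀ A hσ hA
  have hJ := Pool.Agent.N846.DT.JK_nonneg A
  refine ⟨Real.exp ((σ₀ + 1) ^ 2) / σ₀ * Pool.Agent.N846.DT.JK A + 1, by positivity, ?_⟩
  intro ι _ c Λ F s0 B y hΛ hdiff hgrowth hs hF h0 h01 hz hB0 hB
  obtain ⟨T, hT, hTn⟩ := OffP.off_core hdiff hgrowth h0 h01
    (Pool.Agent.N846.DT.summ_mono' hΛ (fun l => norm_nonneg (c l)) (by linarith : (3 : ℝ) ≤ s0.re + 3) hs)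
    (fun s hs' => hF s (by linarith)) hz (y := y) hσ hB0 hB
  refine ⟨T, hT, hTn.trans ?_⟩
  have h1 : 0 ≤ B * Real.exp (-(σ₀ + s0.re) * y) := by positivity
  calc _ = Real.exp ((σ₀ + 1) ^ 2) / σ₀ * Pool.Agent.N846.DT.JK A * (B * Real.exp (-(σ₀ + s0.re) * y)) := by ring
    _ ≤ (Real.exp ((σ₀ + 1) ^ 2) / σ₀ * Pool.Agent.N846.DT.JK A + 1) * (B * Real.exp (-(σ₀ + s0.re) * y)) :=
        mul_le_mul_of_nonneg_right (by linarith) h1
    _ = _ := by ring

end Pool.Agent.N846.ZD
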