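import Pool.Agent.N846.ZD.Final
import Pool.Agent.N846.ZD.Conv
import Pool.Agent.N846.ZD.Moll
import Pool.Agent.N846.ZD.Mb
import Pool.Agent.N846.ZD.Off
import Pool.Agent.N846.ZD.Gb
import Pool.Agent.N846.ZD.Block
import Pool.Agent.N846.ZD.Detect
import Pool.Agent.N846.LM.Ls
import Pool.Agent.N846.DU.Left
import Pool.Agent.N846.DU.Gam
import Pool.Agent.N846.DU.Diag

/-! Zero density: all parts together. -/

set_option autoImplicit false

namespace Pool.Agent.N846.ZD

theorem blockS : S_BLOCK := block gb Pool.Agent.N846.LM.ls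

theorem dtc : S_DETECT := detect off mb

theorem lft : Pool.Agent.N846.DU.S_LEFT := Pool.Agent.N846.DU.left Pool.Agent.N846.DU.gam

theorem dia : Pool.Agent.N846.DU.S_DIAG := Pool.Agent.N846.DU.diag lft

end Pool.Agent.N846.ZD
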