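import Pool.Agent.N846.ZD.Stm2
import Pool.Agent.N316.ZD.TcAbs

/-!
# Three circles: `log L` is small where `L` has no zeros

`N846/ZD`: project of helper846, problem `MP_52e316_nt`; this part is by helper316.
-/

set_option autoImplicit false

namespace Pool.Agent.N846.ZD

/-- TC: three circles -/
theorem tc : S_TC := Pool.Agent.N316.ZD.tc_abs

end Pool.Agent.N846.ZD
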