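import Pool.Agent.N846.ZD.Stm3

/-!
# Part TL: three lines with the functional equation (helper475)
-/

set_option autoImplicit false

namespace Pool.Agent.N846.ZD

open Complex

namespace TlAux

theorem pw_exp {a x : ℝ} (ha : 0 ≤ a) (hx : 0 ≤ x) :
    (1 + x) ^ a * Real.exp (-(x ^ 2 / 2)) ≤ Real.exp (a ^ 2 / 2) := by
  have h1 : (1 + x) ^ a ≤ Real.exp (a * x) := by
    rw [mul_comm, Real.exp_mul]
    apply Real.rpow_le_rpow (by positivity) _ ha
    have := Real.add_one_le_exp x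
    linarith
  calc (1 + x) ^ a * Real.exp (-(x ^ 2 / 2)) ≤ Real.exp (a * x) * Real.exp (-(x ^ 2 / 2)) :=
        mul_le_mul_of_nonneg_right h1 (Real.exp_pos _).le
    _ = Real.exp (a * x - x ^ 2 / 2) := by rw [← Real.exp_add]; congr 1
    _ ≤ Real.exp (a ^ 2 / 2) := by
        apply Real.exp_le_exp.2
        nlinarith [sq_nonneg (a - x)]

/-- the Gaussian factor -/
theorem norm_g (t x y : ℝ) :
    ‖Complex.exp ((((x : ℝ) : ℂ) + (y : ℝ) * I - I * (t : ℂ)) ^ 2)‖ =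
      Real.exp (x ^ 2 - (y - t) ^ 2) := by
  rw [Complex.norm_exp]
  congr 1
  have h : (((x : ℝ) : ℂ) + (y : ℝ) * I - I * (t : ℂ)) ^ 2 =
      (((x ^ 2 - (y - t) ^ 2 : ℝ)) : ℂ) + ((2 * x * (y - t) : ℝ) : ℂ) * I := by
    have h2 : I ^ 2 = -1 := Complex.I_sq
    push_cast
    ring_nf
    rw [h2]
    ring
  rw [h, Complex.add_re, Complex.ofReal_re, Complex.re_ofReal_mul, Complex.I_re, mul_zero, add_zero]

theorem norm_gs (t : ℝ) (s : ℂ) :
    ‖Complex.exp ((s - I * (t : ℂ)) ^ 2)‖ = Real.exp (s.re ^ 2 - (s.im - t) ^ 2) := by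
  have h := norm_g t s.re s.im
  rwa [Complex.re_add_im] at h

theorem growth (A' t y : ℝ) (hA : 0 ≤ A') :
    (1 + |y|) ^ A' * Real.exp (-(y - t) ^ 2) ≤ Real.exp (A' * |t| + A' ^ 2) := by
  have h1 : (1 + |y|) ^ A' ≤ Real.exp (A' * |y|) := by
    rw [mul_comm, Real.exp_mul]
    apply Real.rpow_le_rpow (by positivity) _ hA
    have := Real.add_one_le_exp |y|
    linarith
  have h2 : |y| ≤ |y - t| + |t| := by
    have := abs_add_le (y - t) t
    rwa [sub_add_cancel] at this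
  calc (1 + |y|) ^ A' * Real.exp (-(y - t) ^ 2) ≤ Real.exp (A' * |y|) * Real.exp (-(y - t) ^ 2) :=
        mul_le_mul_of_nonneg_right h1 (Real.exp_pos _).le
    _ = Real.exp (A' * |y| - (y - t) ^ 2) := by rw [← Real.exp_add]; congr 1
    _ ≤ Real.exp (A' * |t| + A' ^ 2) := by
        apply Real.exp_le_exp.2
        have h3 : (y - t) ^ 2 = |y - t| ^ 2 := (sq_abs _).symm
        rw [h3]
        have h4 : A' * |y| ≤ A' * (|y - t| + |t|) := mul_le_mul_of_nonneg_left h2 hA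
        nlinarith [sq_nonneg (A' - |y - t|), sq_nonneg A', sq_nonneg |y - t|]

end TlAux

open TlAux in
/-- **TL.** -/
theorem tl : S_TL := by
  intro c A hc hc4 hA
  obtain ⟨C2, hC2⟩ : ∃ C2 : ℝ, C2 = Real.exp 1 * Real.exp (2 * A ^ 2) := ⟨_, rfl⟩
  have hC21 : 1 ≤ C2 := by
    rw [hC2, ← Real.exp_add]
    exact Real.one_le_exp (by positivity)
  refine ⟨C2, hC21, ?_⟩
  intro F t B H P R hF hgr hB hH hP hR hPR h1 h2 h3 s hs1 hs2 hst
  -- the right line with weights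
  have hw : ∀ v : ℝ, ‖F (((1 / 2 + c : ℝ) : ℂ) + (t + v : ℝ) * I)‖ * (1 + |v|) ^ A *
      Real.exp (-v ^ 2) ≤ Real.exp (2 * A ^ 2) * H := by
    intro v
    have hv0 : 0 ≤ |v| := abs_nonneg v
    have e1 : Real.exp (-v ^ 2) = Real.exp (-(|v| ^ 2 / 2)) * Real.exp (-(|v| ^ 2 / 2)) := by
      rw [← Real.exp_add, sq_abs]
      congr 1
      ring
    have e2 : Real.exp (-(|v| ^ 2 / 2)) ≤ 1 := Real.exp_le_one_iff.2 (by
      have := sq_nonneg |v|
      linarith)
    have e3 := pw_exp hA hv0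
    have e3' : Real.exp (A ^ 2 / 2) ≤ Real.exp (2 * A ^ 2) := Real.exp_le_exp.2 (by nlinarith [sq_nonneg A])
    have hp : 0 < (1 + |v|) ^ A := Real.rpow_pos_of_pos (by positivity) _
    by_cases hvR : |v| ≤ R
    · calc ‖F (((1 / 2 + c : ℝ) : ℂ) + (t + v : ℝ) * I)‖ * (1 + |v|) ^ A * Real.exp (-v ^ 2)
          ≤ H * (1 + |v|) ^ A * Real.exp (-v ^ 2) := by
            have := h1 v hvR
            gcongr
        _ = H * ((1 + |v|) ^ A * Real.exp (-(|v| ^ 2 / 2))) * Real.exp (-(|v| ^ 2 / 2)) := by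
            rw [e1]; ring
        _ ≤ H * Real.exp (2 * A ^ 2) * 1 := by
            have := e3.trans e3'
            gcongr
        _ = _ := by ring
    · have hvR' : R ≤ |v| := (not_le.1 hvR).le
      have e4 := pw_exp (a := 2 * A) (by positivity) hv0
      have e5 : P * Real.exp (-(|v| ^ 2 / 2)) ≤ 1 := by
        refine le_trans ?_ hPR
        apply mul_le_mul_of_nonneg_left _ hP
        apply Real.exp_le_exp.2
        have := pow_le_pow_left₀ hR hvR' 2
        linarith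
      have e6 : (1 + |v|) ^ A * (1 + |v|) ^ A = (1 + |v|) ^ (2 * A) := by
        rw [← Real.rpow_add (by positivity)]
        congr 1
        ring
      have e7 : Real.exp ((2 * A) ^ 2 / 2) = Real.exp (2 * A ^ 2) := by
        congr 1
        ring
      calc ‖F (((1 / 2 + c : ℝ) : ℂ) + (t + v : ℝ) * I)‖ * (1 + |v|) ^ A * Real.exp (-v ^ 2)
          ≤ (P * (1 + |v|) ^ A) * (1 + |v|) ^ A * Real.exp (-v ^ 2) := by
            have := h2 v
            gcongr
        _ = (P * Real.exp (-(|v| ^ 2 / 2))) * ((1 + |v|) ^ (2 * A) * Real.exp (-(|v| ^ 2 / 2))) := by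
            rw [e1, ← e6]; ring
        _ ≤ 1 * Real.exp (2 * A ^ 2) := by
            rw [e7] at e4
            gcongr
        _ ≤ Real.exp (2 * A ^ 2) * H := by
            rw [one_mul]
            exact le_mul_of_one_le_right (Real.exp_pos _).le hH
  obtain ⟨G, hG⟩ : ∃ G : ℂ → ℂ, G = fun z => F z * Complex.exp ((z - I * (t : ℂ)) ^ 2) := ⟨_, rfl⟩
  have hGn : ∀ z, ‖G z‖ = ‖F z‖ * Real.exp (z.re ^ 2 - (z.im - t) ^ 2) := by
    intro z
    rw [hG]
    dsimp only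
    rw [norm_mul, norm_gs]
  have hGd : Differentiable ℂ G := by
    rw [hG]
    exact hF.mul (((differentiable_id.sub (differentiable_const _)).pow 2).cexp)
  have hsplit : ∀ x y : ℝ, Real.exp (x ^ 2 - (y - t) ^ 2) = Real.exp (x ^ 2) * Real.exp (-(y - t) ^ 2) := by
    intro x y
    rw [← Real.exp_add]
    congr 1
  have hex : ∀ x : ℝ, |x| ≤ 1 → Real.exp (x ^ 2) ≤ Real.exp 1 := by
    intro x hx
    apply Real.exp_le_exp.2
    rw [← sq_abs]
    have := abs_nonneg x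
    nlinarith
  have hline : ∀ x : ℝ, ∀ z : ℂ, z.re = x → z = ((x : ℝ) : ℂ) + ((t + (z.im - t) : ℝ) : ℂ) * I := by
    intro x z hz
    apply Complex.ext
    · simp [hz]
    · simp
  have ha : ∀ z ∈ re ⁻¹' {1 / 2 - c}, ‖G z‖ ≤ C2 * B * H := by
    intro z hz
    have hz' : z.re = 1 / 2 - c := hz
    have e1 := h3 (z.im - t)
    rw [← hline _ z hz'] at e1
    have e2 := hw (z.im - t)
    rw [hGn, hz', hsplit]
    have e3 := hex (1 / 2 - c) (by rw [abs_le]; constructor <;> linarith)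
    calc ‖F z‖ * (Real.exp ((1 / 2 - c) ^ 2) * Real.exp (-(z.im - t) ^ 2))
        ≤ (B * (1 + |z.im - t|) ^ A * ‖F (((1 / 2 + c : ℝ) : ℂ) + (t + (z.im - t) : ℝ) * I)‖) *
          (Real.exp 1 * Real.exp (-(z.im - t) ^ 2)) := by gcongr
      _ = B * Real.exp 1 * (‖F (((1 / 2 + c : ℝ) : ℂ) + (t + (z.im - t) : ℝ) * I)‖ *
          (1 + |z.im - t|) ^ A * Real.exp (-(z.im - t) ^ 2)) := by ring
      _ ≤ B * Real.exp 1 * (Real.exp (2 * A ^ 2) * H) := by gcongr
      _ = C2 * B * H := by rw [hC2]; ring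
  have hb : ∀ z ∈ re ⁻¹' {1 / 2 + c}, ‖G z‖ ≤ C2 * H := by
    intro z hz
    have hz' : z.re = 1 / 2 + c := hz
    have e2 := hw (z.im - t)
    rw [← hline _ z hz'] at e2
    rw [hGn, hz', hsplit]
    have e3 := hex (1 / 2 + c) (by rw [abs_le]; constructor <;> linarith)
    have e4 : 1 ≤ (1 + |z.im - t|) ^ A := Real.one_le_rpow (by
      have := abs_nonneg (z.im - t)
      linarith) hA
    calc ‖F z‖ * (Real.exp ((1 / 2 + c) ^ 2) * Real.exp (-(z.im - t) ^ 2))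
        ≤ ‖F z‖ * (Real.exp 1 * Real.exp (-(z.im - t) ^ 2)) := by gcongr
      _ = Real.exp 1 * (‖F z‖ * 1 * Real.exp (-(z.im - t) ^ 2)) := by ring
      _ ≤ Real.exp 1 * (‖F z‖ * (1 + |z.im - t|) ^ A * Real.exp (-(z.im - t) ^ 2)) := by gcongr
      _ ≤ Real.exp 1 * (Real.exp (2 * A ^ 2) * H) := by gcongr
      _ = C2 * H := by rw [hC2]; ring
  have hbdd : BddAbove ((norm ∘ G) '' HadamardThreeLines.verticalClosedStrip (1 / 2 - c) (1 / 2 + c)) := by
    obtain ⟨C', A', hCA⟩ := hgr (1 / 2 - c) (1 / 2 + c)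
    refine ⟨|C'| * (Real.exp 1 * Real.exp (|A'| * |t| + |A'| ^ 2)), ?_⟩
    rintro _ ⟨z, hz, rfl⟩
    have hz1 : 1 / 2 - c ≤ z.re := hz.1
    have hz2 : z.re ≤ 1 / 2 + c := hz.2
    have e1 := hCA z hz1 hz2
    have e2 : (1 + |z.im|) ^ A' ≤ (1 + |z.im|) ^ |A'| := by
      apply Real.rpow_le_rpow_of_exponent_le _ (le_abs_self _)
      have := abs_nonneg z.im
      linarith
    have e3 : ‖F z‖ ≤ |C'| * (1 + |z.im|) ^ |A'| := by
      refine e1.trans ?_
      have hp : 0 ≤ (1 + |z.im|) ^ A' := Real.rpow_nonneg (by positivity) _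
      calc C' * (1 + |z.im|) ^ A' ≤ |C'| * (1 + |z.im|) ^ A' :=
            mul_le_mul_of_nonneg_right (le_abs_self _) hp
        _ ≤ _ := mul_le_mul_of_nonneg_left e2 (abs_nonneg _)
    have e4 := hex z.re (by rw [abs_le]; constructor <;> linarith)
    have e5 := growth |A'| t z.im (abs_nonneg _)
    show ‖G z‖ ≤ _
    rw [hGn, hsplit]
    calc ‖F z‖ * (Real.exp (z.re ^ 2) * Real.exp (-(z.im - t) ^ 2))
        ≤ (|C'| * (1 + |z.im|) ^ |A'|) * (Real.exp 1 * Real.exp (-(z.im - t) ^ 2)) := by gcongr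
      _ = |C'| * (Real.exp 1 * ((1 + |z.im|) ^ |A'| * Real.exp (-(z.im - t) ^ 2))) := by ring
      _ ≤ _ := by gcongr
  have hfin := HadamardThreeLines.norm_le_interp_of_mem_verticalClosedStrip' (f := G) (z := s)
    (a := C2 * B * H) (b := C2 * H) (l := 1 / 2 - c) (u := 1 / 2 + c) (by linarith) ⟨hs1, hs2⟩
    hGd.diffContOnCl hbdd ha hb
  obtain ⟨θ, hθ⟩ : ∃ θ : ℝ, θ = (1 / 2 + c - s.re) / (2 * c) := ⟨_, rfl⟩
  have e1 : 1 - (s.re - (1 / 2 - c)) / (1 / 2 + c - (1 / 2 - c)) = θ := by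
    rw [hθ]
    field_simp
    ring
  have e2 : (s.re - (1 / 2 - c)) / (1 / 2 + c - (1 / 2 - c)) = 1 - θ := by linarith
  rw [e1, e2] at hfin
  rw [← hθ]
  have hC20 : 0 < C2 * H := by positivity
  have e3 : (C2 * B * H) ^ θ * (C2 * H) ^ (1 - θ) = C2 * H * B ^ θ := by
    have e4 : C2 * B * H = (C2 * H) * B := by ring
    rw [e4, Real.mul_rpow hC20.le (by linarith), mul_right_comm, ← Real.rpow_add hC20,
      add_sub_cancel, Real.rpow_one]
  rw [e3] at hfin
  refine le_trans ?_ hfin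
  rw [hGn, hst, sub_self]
  have e5 : 1 ≤ Real.exp (s.re ^ 2 - 0 ^ 2) := Real.one_le_exp (by
    have := sq_nonneg s.re
    linarith)
  exact le_mul_of_one_le_right (norm_nonneg _) e5

end Pool.Agent.N846.ZD
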