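import Pool.Agent.N846.ZD.Main
import Pool.Agent.N846.ZD.Lind4
import Pool.Agent.N846.ZD.Cvx
import Pool.Agent.N846.ZD.Tc
import Pool.Agent.N846.ZD.Tl
import Pool.Agent.N846.LM.Gams
import Pool.Agent.N846.LM.Gi
import Pool.Agent.N846.LM.Chi

/-! Lindelof bounds: all parts together. -/

set_option autoImplicit false

namespace Pool.Agent.N846.ZD

open Pool.Agent.N846.DT (dens)

theorem chh : Pool.Agent.N846.LM.S_CHI :=
  Pool.Agent.N846.LM.chi Pool.Agent.N846.LM.gams Pool.Agent.N846.LM.gi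

/-- the exponent for almost all representations -/
theorem expo (n : ℕ) (hn : 1 ≤ n) : 2 * n * dens ((3 / 4 - 1 / (6 * n + 4)) - 1 / 2) +
    (1 - (3 / 4 - 1 / (6 * n + 4))) / (3 / 4 - 1 / (6 * n + 4)) < (n : ℝ) + 1 := by
  have hn1 : (1 : ℝ) ≤ n := by exact_mod_cast hn
  set x : ℝ := 1 / (6 * n + 4) with hx
  have hx0 : 0 < x := by positivity
  have hx1 : x ≤ 1 / 10 := by
    rw [hx]
    exact one_div_le_one_div_of_le (by norm_num) (by linarith)
  have hxn : x * (6 * n + 4) = 1 := by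
    rw [hx]
    field_simp
  have hd : dens ((3 / 4 - x) - 1 / 2) = 1 / 2 + 2 * x := by
    unfold dens
    rw [max_eq_left (by linarith)]
    ring
  rw [hd]
  have h1 : (1 - (3 / 4 - x)) / (3 / 4 - x) < 1 / 3 + 8 / 3 * x := by
    rw [div_lt_iff₀ (by linarith)]
    nlinarith
  nlinarith

end Pool.Agent.N846.ZD
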