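import Pool.Agent.N846.LM.Stm

/-!
# Zero density in arbitrary families of `L`-functions of `GL(n)`: definitions, statements of the parts

`N846/ZD`: project of helper846, problem `MP_77948b_nt`.
-/

set_option autoImplicit false

namespace Pool.Agent.N846.ZD

open Complex MeasureTheory NumberField IsDedekindDomain
open Pool.Agent.TH949.LT (TT Lam VV)
open Pool.Agent.N846.DT (PairF co Uc)
open Pool.Agent.N846.LM (EG)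

/-- the value at `s` of the Dirichlet series with the coefficients `Uc u l * b l` -/
noncomputable def Ph {X : Type} (L : X → ℝ) (b : TT X → ℂ) (u : X → ℂ) (s : ℂ) : ℂ :=
  ∑' l : TT X, Uc u l * b l * Complex.exp (-(s * Lam L l))

/-- `b` is majorised by the `k`-th power of the coefficients of `w` -/
def Maj {X : Type} (w : X → ℂ) (k : ℕ) (b : TT X → ℂ) : Prop :=
  ∀ l : TT X, ‖b l‖ ≤ (k : ℝ) ^ l.1 * ‖Uc w l‖ / (l.1.factorial : ℝ)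

/-- `b` is supported in the interval `[p, r]` -/
def Supp {X : Type} (L : X → ℝ) (b : TT X → ℂ) (p r : ℝ) : Prop :=
  ∀ l : TT X, b l ≠ 0 → p ≤ Lam L l ∧ Lam L l ≤ r

/-- the mollifier of length `exp x` -/
noncomputable def MM {X : Type} (L : X → ℝ) (x : ℝ) (u w : X → ℂ) (s : ℂ) : ℂ :=
  ∑' l : TT X, if Lam L l ≤ x then co u (fun z => -w z) l * Complex.exp (-(s * Lam L l)) else 0

/-- CONV: products -/
def S_CONV : Prop := ∀ (X : Type) (w : X → ℂ) (L : X → ℝ) (k₁ k₂ : ℕ) (b₁ b₂ : TT X → ℂ) (p₁ r₁ p₂ r₂ : ℝ),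
  Maj w k₁ b₁ → Maj w k₂ b₂ → Supp L b₁ p₁ r₁ → Supp L b₂ p₂ r₂ →
  ∃ b : TT X → ℂ, Maj w (k₁ + k₂) b ∧ Supp L b (p₁ + p₂) (r₁ + r₂) ∧ ∀ (u : X → ℂ) (s : ℂ),
    (Summable fun l : TT X => Uc u l * b₁ l * Complex.exp (-(s * Lam L l))) →
    (Summable fun l : TT X => Uc u l * b₂ l * Complex.exp (-(s * Lam L l))) →
    HasSum (fun l : TT X => Uc u l * b l * Complex.exp (-(s * Lam L l))) (Ph L b₁ u s * Ph L b₂ u s)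

/-- POW: powers -/
def S_POW : Prop := ∀ (X : Type) (w : X → ℂ) (L : X → ℝ) (k : ℕ) (b : TT X → ℂ) (p r : ℝ),
  Maj w k b → Supp L b p r → ∀ j : ℕ,
  ∃ b' : TT X → ℂ, Maj w (j * k) b' ∧ Supp L b' (j * p) (j * r) ∧ ∀ (u : X → ℂ) (s : ℂ),
    (Summable fun l : TT X => Uc u l * b l * Complex.exp (-(s * Lam L l))) →
    HasSum (fun l : TT X => Uc u l * b' l * Complex.exp (-(s * Lam L l))) (Ph L b u s ^ j)

/-- MOLL: the mollified `L`-function -/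
def S_MOLL : Prop := ∀ (X : Type) (w : X → ℂ) (L : X → ℝ) (x : ℝ), (∀ z, 0 ≤ L z) → 0 ≤ x →
  ∃ c : TT X → ℂ, Maj w 2 c ∧ (∀ l : TT X, l.1 = 0 → c l = 1) ∧ (∀ l : TT X, l.1 ≠ 0 → Lam L l ≤ x → c l = 0) ∧
    ∀ (u : X → ℂ) (s : ℂ), (Summable fun z => ‖u z‖ * ‖w z‖ * Real.exp (-(s.re * L z))) →
      HasSum (fun l : TT X => Uc u l * c l * Complex.exp (-(s * Lam L l)))
        (Complex.exp (∑' z, u z * (starRingEnd ℂ) (w z) * Complex.exp (-(s * (L z : ℂ)))) * MM L x u w s)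

/-- MB: the mollifier -/
def S_MB : Prop := ∀ (X : Type) [Countable X] (u w : X → ℂ) (L : X → ℝ) (x a : ℝ), (∀ z, 0 ≤ L z) → 0 ≤ x →
  (Summable fun z => ‖u z‖ * ‖w z‖ * Real.exp (-(a * L z))) →
  Differentiable ℂ (MM L x u w) ∧ ∀ s : ℂ, ‖MM L x u w s‖ ≤ Real.exp (max (a - s.re) 0 * x) *
    Real.exp (∑' z, ‖u z‖ * ‖w z‖ * Real.exp (-(a * L z)))

/-- OFF: the smoothed sum at a zero -/
def S_OFF : Prop := ∀ σ₀ A : ℝ, 0 < σ₀ → 0 ≤ A → ∃ C : ℝ, 0 < C ∧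
  ∀ (ι : Type) [Countable ι] (c : ι → ℂ) (Λ : ι → ℝ) (F : ℂ → ℂ) (s0 : ℂ) (B y : ℝ), (∀ l, 0 ≤ Λ l) →
    Differentiable ℂ F → (∀ a b : ℝ, ∃ C' A' : ℝ, ∀ s : ℂ, a ≤ s.re → s.re ≤ b → ‖F s‖ ≤ C' * (1 + |s.im|) ^ A') →
    (Summable fun l => ‖c l‖ * Real.exp (-(3 * Λ l))) →
    (∀ s : ℂ, 3 ≤ s.re → HasSum (fun l => c l * Complex.exp (-(s * Λ l))) (F s)) →
    0 ≤ s0.re → s0.re ≤ 1 → F s0 = 0 → 0 ≤ B →
    (∀ v : ℝ, ‖F (((-σ₀ : ℝ) : ℂ) + (s0.im + v : ℝ) * I)‖ ≤ B * (1 + |v|) ^ A) →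
    ∃ T : ℂ, HasSum (fun l => c l * Complex.exp (-(s0 * Λ l)) * VV (y - Λ l)) T ∧
      ‖T‖ ≤ C * B * Real.exp (-(σ₀ + s0.re) * y)

/-- GB: one Gaussian, the off-diagonal elements of the Gram matrix -/
def S_GB : Prop := ∀ σ₀ A : ℝ, 0 < σ₀ → 0 ≤ A → ∃ C : ℝ, 0 < C ∧
  ∀ (X : Type) [Countable X] (u v : X → ℂ) (L : X → ℝ) (F : ℂ → ℂ), (∀ x, 0 ≤ L x) → PairF u v L F →
    (Summable fun x => ‖u x‖ ^ 2 * Real.exp (-((5 / 4 : ℝ) * L x))) →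
    (Summable fun x => ‖v x‖ ^ 2 * Real.exp (-((5 / 4 : ℝ) * L x))) →
    ∀ (s0 : ℂ) (B i : ℝ), 0 ≤ s0.re → s0.re ≤ 1 → 0 ≤ B → 0 ≤ i →
      (∀ v' : ℝ, ‖F (((-σ₀ : ℝ) : ℂ) + (s0.im + v' : ℝ) * I)‖ ≤ B * (1 + |v'|) ^ A) →
      (Summable fun l : TT X => co u v l * Complex.exp (-(s0 * Lam L l)) * EG (i - Lam L l)) ∧
      ‖∑' l : TT X, co u v l * Complex.exp (-(s0 * Lam L l)) * EG (i - Lam L l)‖ ≤ C * B * Real.exp (-(σ₀ * i))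

/-- BLOCK: large values of a Dirichlet series supported in `[a, a + r]` -/
def S_BLOCK : Prop := ∀ (σ₀ c A : ℝ) (J : ℕ), 0 < σ₀ → 0 < c → c ≤ 1 / 4 → 0 ≤ A → ∃ C : ℝ, 0 < C ∧
  ∀ (X ι : Type) [Countable X] [Fintype ι] (u : ι → X → ℂ) (L : X → ℝ) (s : ι → ℂ) (F : ι → ι → ℂ → ℂ)
    (w : X → ℂ) (k : ℕ) (b : TT X → ℂ) (a r : ℕ) (σ D D' B V : ℝ), (∀ x, 0 ≤ L x) → 1 / 2 ≤ σ →
    (∀ f, σ ≤ (s f).re) → (∀ f, (s f).re ≤ 1) →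
    (∀ f, Summable fun x => ‖u f x‖ ^ 2 * Real.exp (-((1 + c) * L x))) →
    (∀ f, Real.exp (∑' x, ‖u f x‖ ^ 2 * Real.exp (-((1 + c) * L x))) ≤ D) →
    (Summable fun x => ‖w x‖ ^ 2 * Real.exp (-((1 + 2 * c) * L x))) →
    Real.exp (∑' x, ‖w x‖ ^ 2 * Real.exp (-((1 + 2 * c) * L x))) ≤ D' →
    (∀ f g, f ≠ g → PairF (u f) (u g) L (F f g)) → 0 ≤ B →
    (∀ f g, f ≠ g → ∀ v : ℝ, ‖F f g (((-σ₀ : ℝ) : ℂ) + (((s f).im - (s g).im) + v : ℝ) * I)‖ ≤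
      B * (1 + |v|) ^ A) →
    Maj w k b → k ≤ 2 * J → Supp L b a (a + r) → r ≤ J → 0 ≤ V → 0 ≤ D → (∀ f, V ≤ ‖Ph L b (u f) (s f)‖) →
    Fintype.card ι * V ^ 2 ≤ C * (D * Real.exp ((1 + c) * a) + Fintype.card ι * B * Real.exp (-(σ₀ * a))) *
      (Real.exp ((1 - 2 * σ + 2 * c) * a) * D' ^ (4 * J ^ 2))

/-- DETECT: the zero detection -/
def S_DETECT : Prop := ∀ (σ₁ c A : ℝ), 0 < σ₁ → 0 < c → c ≤ 1 / 4 → 0 ≤ A → ∃ C : ℝ, 0 < C ∧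
  ∀ (X : Type) [Countable X] (u w : X → ℂ) (L : X → ℝ) (F : ℂ → ℂ) (co' : TT X → ℂ) (s0 : ℂ)
    (σ B x y Y D a : ℝ), (∀ z, 0 ≤ L z) → PairF u w L F → F s0 = 0 → 1 / 2 ≤ σ → σ ≤ s0.re → s0.re ≤ 1 →
    (Summable fun z => ‖u z‖ * ‖w z‖ * Real.exp (-((1 + c) * L z))) →
    Real.exp (∑' z, ‖u z‖ * ‖w z‖ * Real.exp (-((1 + c) * L z))) ≤ D → 0 ≤ x → 0 ≤ y → 2 ≤ a →
    0 ≤ B → (∀ v : ℝ, ‖F (((-σ₁ : ℝ) : ℂ) + (s0.im + v : ℝ) * I)‖ ≤ B * (1 + |v|) ^ A) →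
    Maj w 2 co' → (∀ l : TT X, l.1 = 0 → co' l = 1) → (∀ l : TT X, l.1 ≠ 0 → Lam L l ≤ x → co' l = 0) →
    (∀ s : ℂ, (Summable fun z => ‖u z‖ * ‖w z‖ * Real.exp (-(s.re * L z))) →
      HasSum (fun l : TT X => Uc u l * co' l * Complex.exp (-(s * Lam L l)))
        (Complex.exp (∑' z, u z * (starRingEnd ℂ) (w z) * Complex.exp (-(s * (L z : ℂ)))) * MM L x u w s)) →
    C * B * D * Real.exp ((1 + c + σ₁) * x) * Real.exp (-((σ₁ + σ) * y)) ≤ 1 / 8 →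
    D ^ 2 * Real.exp (a ^ 2 + a * y - (a - 1) * Y) ≤ 1 / 8 →
    1 / 4 ≤ ‖∑' l : TT X, if x < Lam L l ∧ Lam L l ≤ Y then
      Uc u l * (co' l * VV (y - Lam L l)) * Complex.exp (-(s0 * Lam L l)) else 0‖

end Pool.Agent.N846.ZD
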