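import Pool.Agent.N846.ZD.Stm

/-!
# Lindelof bounds from the absence of zeros: statements of the parts

`N846/ZD`: project of helper846, problem `MP_52e316_nt`.
-/

set_option autoImplicit false

namespace Pool.Agent.N846.ZD

open Complex

/-- CVX: a bound in the strip near the height `t` from bounds on two lines -/
def S_CVX : Prop := ∀ σ₁ c A : ℝ, 0 < σ₁ → 0 < c → 0 ≤ A → ∃ C : ℝ, 1 ≤ C ∧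
  ∀ (F : ℂ → ℂ) (t B D : ℝ), Differentiable ℂ F →
    (∀ a b : ℝ, ∃ C' A' : ℝ, ∀ s : ℂ, a ≤ s.re → s.re ≤ b → ‖F s‖ ≤ C' * (1 + |s.im|) ^ A') →
    1 ≤ B → 1 ≤ D → (∀ v : ℝ, ‖F (((-σ₁ : ℝ) : ℂ) + (t + v : ℝ) * I)‖ ≤ B * (1 + |v|) ^ A) →
    (∀ v : ℝ, ‖F (((1 + c : ℝ) : ℂ) + (t + v : ℝ) * I)‖ ≤ D) →
    ∀ s : ℂ, -σ₁ ≤ s.re → s.re ≤ 1 + c → |s.im - t| ≤ 2 → ‖F s‖ ≤ C * (B * D)

/-- TC: three circles -/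
def S_TC : Prop := ∀ σ ε δ : ℝ, 0 ≤ σ → 0 < ε → σ + ε ≤ 1 → 0 < δ → ∃ η : ℝ, 0 < η ∧
  ∀ (F l : ℂ → ℂ) (t M : ℝ), 0 ≤ M → Differentiable ℂ F →
    (∀ s : ℂ, σ < s.re → |s.im - t| < 2 → F s ≠ 0) →
    (∀ s : ℂ, σ < s.re → s.re < 3 → |s.im - t| < 2 → ‖F s‖ ≤ Real.exp M) →
    (∀ s : ℂ, 5 / 4 ≤ s.re → F s = Complex.exp (l s)) → ContinuousOn l {s : ℂ | 5 / 4 ≤ s.re} →
    (∀ s : ℂ, 5 / 4 ≤ s.re → ‖l s‖ ≤ η * M) →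
    ∀ s : ℂ, σ + ε ≤ s.re → s.im = t → Real.exp (-(δ * M)) ≤ ‖F s‖ ∧ ‖F s‖ ≤ Real.exp (δ * M)

end Pool.Agent.N846.ZD
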